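import Pool.Agent.Work.MP_48319b_gt.Stmts
import Pool.Agent.Work.MP_48319b_gt.Inv
import Pool.Agent.Work.MP_48319b_gt.Stmts2
import Pool.Agent.Work.MP_48319b_gt.Data

/-! Bundle of small proof modules (one section per former module). -/

section

/-!
# MP_48319b_gt L4 : conjugation of a homeomorphism by the inversion
-/

open Metric Set Topology
open scoped Manifold ContDiff

namespace Pool.Agent.Work.MP_48319b_gt

namespace CompactHomeoAux

open Pool.Agent.Work.MP_48319b_gt.Inv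

/-- `inv × id` -/
noncomputable def J (z : E3 × ℝ) : E3 × ℝ := (inv z.1, z.2)

theorem J_J (z : E3 × ℝ) : J (J z) = z := by simp [J, inv_inv]

theorem continuousAt_J {z : E3 × ℝ} (h : z.1 ≠ north) : ContinuousAt J z := by
  have h1 : ContinuousAt (fun w : E3 × ℝ => inv w.1) z :=
    ContinuousAt.comp (g := inv) (f := Prod.fst) (continuousAt_inv h) continuousAt_fst
  exact h1.prodMk continuousAt_snd

/-- the conjugated map -/
noncomputable def conj (f : E3 × ℝ → E3 × ℝ) (z : E3 × ℝ) : E3 × ℝ := J (f (J z))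

theorem conj_conj (f g : E3 × ℝ → E3 × ℝ) (hfg : ∀ z, f (g z) = z) (z : E3 × ℝ) :
    conj f (conj g z) = z := by
  simp only [conj, J_J, hfg]

theorem continuous_conj (Φ : (E3 × ℝ) ≃ₜ (E3 × ℝ)) (h : ∀ z, 1 ≤ ‖z.1‖ → Φ z = z) :
    Continuous (conj Φ) := by
  refine continuous_iff_continuousAt.2 fun z => ?_
  rcases eq_or_ne z.1 north with hz | hz
  · have hev : conj Φ =ᶠ[𝓝 z] id := by
      have h1 : ∀ᶠ w : E3 × ℝ in 𝓝 z, w.1 ≠ north → 1 ≤ ‖inv w.1‖ := by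
        have h2 : Filter.Tendsto (Prod.fst : E3 × ℝ → E3) (𝓝 z) (𝓝 north) := by
          rw [← hz]
          exact continuousAt_fst
        exact h2.eventually (eventually_le_norm_inv 1)
      filter_upwards [h1] with w hw
      have h3 : 1 ≤ ‖(J w).1‖ := by
        rcases eq_or_ne w.1 north with h4 | h4
        · simp [J, h4, inv_north, norm_north]
        · exact hw h4
      rw [conj, h _ h3, J_J, id]
    exact continuousAt_id.congr hev.symm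
  · have h1 : (Φ (J z)).1 ≠ north := by
      intro h2
      have h3 : Φ (north, (Φ (J z)).2) = (north, (Φ (J z)).2) :=
        h _ (by simp [norm_north])
      have h4 : Φ (J z) = (north, (Φ (J z)).2) := Prod.ext h2 rfl
      have h5 : J z = (north, (Φ (J z)).2) := Φ.injective (h4.trans h3.symm)
      have h6 : inv z.1 = north := congrArg Prod.fst h5
      exact hz (inv_eq_north_iff.1 h6)
    exact ContinuousAt.comp (g := J) (continuousAt_J h1)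
      (ContinuousAt.comp (g := Φ) Φ.continuous.continuousAt (continuousAt_J hz))

end CompactHomeoAux

open CompactHomeoAux Pool.Agent.Work.MP_48319b_gt.Inv in
theorem compactHomeo : CompactHomeo := by
  intro Φ h
  have h' : ∀ z, 1 ≤ ‖z.1‖ → Φ.symm z = z := fun z hz => by
    rw [Homeomorph.symm_apply_eq, h z hz]
  refine ⟨{ toFun := conj Φ
            invFun := conj Φ.symm
            left_inv := conj_conj _ _ Φ.symm_apply_apply
            right_inv := conj_conj _ _ Φ.apply_symm_apply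
            continuous_toFun := continuous_conj Φ h
            continuous_invFun := continuous_conj Φ.symm h' }, ?_, ?_⟩
  · intro x s _
    change conj Φ (inv x, s) = _
    rw [conj]
    have : J (inv x, s) = (x, s) := by simp [J, inv_inv]
    rw [this]
    rfl
  · intro s
    change conj Φ (north, s) = _
    have h1 : J (north, s) = (north, s) := by simp [J, inv_north]
    rw [conj, h1, h _ (by simp [norm_north]), h1]

end Pool.Agent.Work.MP_48319b_gt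

end

section

/-!
# [48319b L1] a linear path of uniformly bi-Lipschitz embeddings is realised by a homeomorphism
-/

open Metric Set Topology
open scoped NNReal

namespace Pool.Agent.Work.MP_48319b_gt

namespace ItemL1

abbrev FF := E3 × ℝ

/-- A perturbation of the identity with Lipschitz constant smaller than one is a homeomorphism. -/
lemma perturb (G : FF → FF) (c : ℝ≥0) (hc : c < 1) (hG : LipschitzWith c G) :
    ∃ Φ : FF ≃ₜ FF, ∀ z, Φ z = z + G z := by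
  have h : ApproximatesLinearOn (fun z => z + G z)
      ((ContinuousLinearEquiv.refl ℝ FF : FF ≃L[ℝ] FF) : FF →L[ℝ] FF) univ c := by
    intro x _ y _
    have h1 := hG.dist_le_mul x y
    rw [dist_eq_norm, dist_eq_norm] at h1
    have h2 : x + G x - (y + G y) -
        ((ContinuousLinearEquiv.refl ℝ FF : FF ≃L[ℝ] FF) : FF →L[ℝ] FF) (x - y) = G x - G y := by
      have : ((ContinuousLinearEquiv.refl ℝ FF : FF ≃L[ℝ] FF) : FF →L[ℝ] FF) (x - y) = x - y := rfl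
      rw [this]
      abel
    show ‖x + G x - (y + G y) -
        ((ContinuousLinearEquiv.refl ℝ FF : FF ≃L[ℝ] FF) : FF →L[ℝ] FF) (x - y)‖ ≤ _
    rw [h2]
    exact h1
  refine ⟨h.toHomeomorph _ (Or.inr ?_), fun z => rfl⟩
  have : ‖((ContinuousLinearEquiv.refl ℝ FF : FF ≃L[ℝ] FF).symm : FF →L[ℝ] FF)‖₊ = 1 := by
    have e : ((ContinuousLinearEquiv.refl ℝ FF : FF ≃L[ℝ] FF).symm : FF →L[ℝ] FF) =
        ContinuousLinearMap.id ℝ FF := rfl
    rw [e]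
    exact ContinuousLinearMap.nnnorm_id
  rw [this]
  simpa using hc

/-- Product with a cutoff function. -/
lemma cutoff_lip (χ : FF → ℝ) (W : FF → FF) (a b M : ℝ) (ha : 0 ≤ a) (hb : 0 ≤ b) (hM0 : 0 ≤ M)
    (hχ : ∀ z z', |χ z - χ z'| ≤ b * dist z z') (h01 : ∀ z, 0 ≤ χ z ∧ χ z ≤ 1)
    (hW : ∀ z z', ‖W z - W z'‖ ≤ a * dist z z') (hM : ∀ z, χ z ≠ 0 → ‖W z‖ ≤ M) (z z' : FF) :
    ‖χ z • W z - χ z' • W z'‖ ≤ (b * M + a) * dist z z' := by
  have key : ∀ u u' : FF, χ u ≠ 0 → ‖χ u • W u - χ u' • W u'‖ ≤ (b * M + a) * dist u u' := by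
    intro u u' hu
    have hd : 0 ≤ dist u u' := dist_nonneg
    have e : χ u • W u - χ u' • W u' = (χ u - χ u') • W u + χ u' • (W u - W u') := by
      rw [sub_smul, smul_sub]
      abel
    have hM' := hM u hu
    have h1 : ‖(χ u - χ u') • W u‖ ≤ b * dist u u' * M := by
      rw [norm_smul, Real.norm_eq_abs]
      exact mul_le_mul (hχ u u') hM' (norm_nonneg _) (by positivity)
    have h2 : ‖χ u' • (W u - W u')‖ ≤ a * dist u u' := by
      rw [norm_smul, Real.norm_eq_abs, abs_of_nonneg (h01 u').1]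
      calc χ u' * ‖W u - W u'‖ ≤ 1 * ‖W u - W u'‖ :=
            mul_le_mul_of_nonneg_right (h01 u').2 (norm_nonneg _)
        _ = ‖W u - W u'‖ := one_mul _
        _ ≤ _ := hW u u'
    rw [e]
    calc ‖(χ u - χ u') • W u + χ u' • (W u - W u')‖
        ≤ ‖(χ u - χ u') • W u‖ + ‖χ u' • (W u - W u')‖ := norm_add_le _ _
      _ ≤ b * dist u u' * M + a * dist u u' := add_le_add h1 h2
      _ = _ := by ring
  by_cases hz : χ z = 0
  · by_cases hz' : χ z' = 0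
    · have hd : 0 ≤ dist z z' := dist_nonneg
      rw [hz, hz', zero_smul, zero_smul, sub_zero, norm_zero]
      positivity
    · rw [norm_sub_rev, dist_comm]
      exact key z' z hz'
  · exact key z z' hz

lemma kk_eq (k0 k1 : E2 → FF) (s : ℝ) (p : E2) : kk k0 k1 s p = k0 p + s • (k1 p - k0 p) := by
  rw [kk, smul_sub, sub_smul, one_smul]
  abel

/-- The cutoff function of a compact set. -/
noncomputable def chi (K : Set FF) (δ : ℝ) (z : FF) : ℝ := max (1 - infDist z K / δ) 0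

lemma chi01 (K : Set FF) {δ : ℝ} (hδ : 0 < δ) (z : FF) : 0 ≤ chi K δ z ∧ chi K δ z ≤ 1 := by
  refine ⟨le_max_right _ _, max_le ?_ zero_le_one⟩
  have : 0 ≤ infDist z K / δ := div_nonneg infDist_nonneg hδ.le
  linarith

lemma chi_lip (K : Set FF) {δ : ℝ} (hδ : 0 < δ) (z z' : FF) :
    |chi K δ z - chi K δ z'| ≤ 1 / δ * dist z z' := by
  refine (abs_max_sub_max_le_abs _ _ _).trans ?_
  have h1 : |infDist z K - infDist z' K| ≤ dist z z' := by
    have := (lipschitz_infDist_pt K).dist_le_mul z z'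
    rw [Real.dist_eq] at this
    simpa using this
  have h2 : 1 - infDist z K / δ - (1 - infDist z' K / δ) =
      -((1 / δ) * (infDist z K - infDist z' K)) := by
    field_simp
    ring
  rw [h2, abs_neg, abs_mul, abs_of_pos (by positivity : (0 : ℝ) < 1 / δ)]
  exact mul_le_mul_of_nonneg_left h1 (by positivity)

lemma chi_one {K : Set FF} {δ : ℝ} {z : FF} (hz : z ∈ K) : chi K δ z = 1 := by
  rw [chi, infDist_zero_of_mem hz]
  simp

lemma chi_supp {K : Set FF} {δ : ℝ} (hδ : 0 < δ) {z : FF} (h : chi K δ z ≠ 0) :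
    infDist z K < δ := by
  by_contra hcon
  apply h
  rw [chi, max_eq_right]
  have : 1 ≤ infDist z K / δ := by
    rw [le_div_iff₀ hδ, one_mul]
    exact not_lt.mp hcon
  linarith

/-- One small step. -/
lemma one_step (k0 k1 : E2 → FF) (m R : ℝ) (hm : 0 < m) (hR0 : 0 ≤ R) (Lv : ℝ≥0)
    (hv : LipschitzWith Lv fun p => k1 p - k0 p) (hR : ∀ p, R ≤ ‖p‖ → k0 p = k1 p)
    (K : Set FF) (hK : IsCompact K)
    (hKm : ∀ s ∈ Icc (0 : ℝ) 1, ∀ p, ‖p‖ ≤ R → kk k0 k1 s p ∈ K)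
    (hbi : ∀ s ∈ Icc (0 : ℝ) 1, ∀ p q, m * ‖p - q‖ ≤ ‖kk k0 k1 s p - kk k0 k1 s q‖)
    (δ : ℝ) (hδ : 0 < δ) :
    ∃ T : ℝ, ∀ n : ℕ, 0 < n → T < n → ∀ i : ℕ, i < n → ∃ Ψ : FF ≃ₜ FF,
      (∀ p, Ψ (kk k0 k1 ((i : ℝ) / n) p) = kk k0 k1 (((i : ℝ) + 1) / n) p) ∧
      ∀ z, δ ≤ infDist z K → Ψ z = z := by
  obtain ⟨C, hC⟩ : ∃ C : ℝ, C = (lipschitzExtensionConstant FF : ℝ) * (Lv / m) := ⟨_, rfl⟩
  have hC0 : 0 ≤ C := by rw [hC]; positivity
  obtain ⟨M, hM⟩ : ∃ M : ℝ, M = ‖k1 0 - k0 0‖ + C * (δ + diam K) := ⟨_, rfl⟩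
  have hM0 : 0 ≤ M := by
    rw [hM]
    have : 0 ≤ diam K := diam_nonneg
    positivity
  refine ⟨1 / δ * M + C, fun n hn hTn i hi => ?_⟩
  have hn0 : (0 : ℝ) < n := by exact_mod_cast hn
  have hs : (i : ℝ) / n ∈ Icc (0 : ℝ) 1 := by
    constructor
    · positivity
    · rw [div_le_one hn0]
      exact_mod_cast hi.le
  obtain ⟨k, hk⟩ : ∃ k : E2 → FF, k = kk k0 k1 ((i : ℝ) / n) := ⟨_, rfl⟩
  have hkbi : ∀ p q, m * ‖p - q‖ ≤ ‖k p - k q‖ := by
    rw [hk]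
    exact hbi _ hs
  have hinj : Function.Injective k := by
    intro p q hpq
    have h1 := hkbi p q
    rw [hpq, sub_self, norm_zero] at h1
    have h2 : ‖p - q‖ ≤ 0 := by
      by_contra hcon
      have : 0 < m * ‖p - q‖ := mul_pos hm (not_le.mp hcon)
      linarith
    exact sub_eq_zero.mp (norm_le_zero_iff.mp h2)
  obtain ⟨w, hw⟩ : ∃ w : FF → FF, ∀ p, w (k p) = (1 / (n : ℝ)) • (k1 p - k0 p) :=
    ⟨Function.extend k (fun p => (1 / (n : ℝ)) • (k1 p - k0 p)) 0, fun p => hinj.extend_apply _ _ _⟩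
  have hwl : LipschitzOnWith (Real.toNNReal ((1 / (n : ℝ)) * (Lv / m))) w (range k) := by
    refine LipschitzOnWith.of_dist_le_mul ?_
    rintro _ ⟨p, rfl⟩ _ ⟨q, rfl⟩
    rw [hw, hw, dist_eq_norm, dist_eq_norm, ← smul_sub, norm_smul, Real.norm_eq_abs,
      abs_of_pos (by positivity : (0 : ℝ) < 1 / n), Real.coe_toNNReal _ (by positivity)]
    have h1 := hv.dist_le_mul p q
    rw [dist_eq_norm, dist_eq_norm] at h1
    have h2 : ‖p - q‖ ≤ ‖k p - k q‖ / m := by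
      rw [le_div_iff₀ hm, mul_comm]
      exact hkbi p q
    calc 1 / (n : ℝ) * ‖k1 p - k0 p - (k1 q - k0 q)‖ ≤ 1 / (n : ℝ) * (Lv * ‖p - q‖) := by gcongr
      _ ≤ 1 / (n : ℝ) * (Lv * (‖k p - k q‖ / m)) := by gcongr
      _ = _ := by ring
  obtain ⟨W, hWl, hWw⟩ := hwl.extend_finite_dimension
  have hWk : ∀ p, W (k p) = (1 / (n : ℝ)) • (k1 p - k0 p) := fun p => by
    rw [← hWw (mem_range_self p), hw]
  have hWlip : ∀ z z', ‖W z - W z'‖ ≤ (C / n) * dist z z' := by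
    intro z z'
    have h1 := hWl.dist_le_mul z z'
    rw [dist_eq_norm] at h1
    refine h1.trans (le_of_eq ?_)
    congr 1
    rw [NNReal.coe_mul, Real.coe_toNNReal _ (by positivity), hC]
    ring
  have hz0 : k 0 ∈ K := by
    rw [hk]
    exact hKm _ hs 0 (by rw [norm_zero]; exact hR0)
  have hWM : ∀ z, chi K δ z ≠ 0 → ‖W z‖ ≤ M / n := by
    intro z hz
    have h1 := chi_supp hδ hz
    obtain ⟨z1, hz1, hd1⟩ := (infDist_lt_iff ⟨_, hz0⟩).mp h1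
    have h2 : dist z (k 0) ≤ δ + diam K :=
      (dist_triangle z z1 (k 0)).trans (add_le_add hd1.le (dist_le_diam_of_mem hK.isBounded hz1 hz0))
    have h3 := hWlip z (k 0)
    have h4 : ‖W z‖ ≤ ‖W (k 0)‖ + ‖W z - W (k 0)‖ := by
      have := norm_add_le (W (k 0)) (W z - W (k 0))
      rwa [add_sub_cancel] at this
    have h5 : ‖W (k 0)‖ = 1 / (n : ℝ) * ‖k1 0 - k0 0‖ := by
      rw [hWk, norm_smul, Real.norm_eq_abs, abs_of_pos (by positivity : (0 : ℝ) < 1 / n)]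
    calc ‖W z‖ ≤ ‖W (k 0)‖ + ‖W z - W (k 0)‖ := h4
      _ ≤ 1 / (n : ℝ) * ‖k1 0 - k0 0‖ + (C / n) * (δ + diam K) := by
          rw [h5]
          have : (C / n) * dist z (k 0) ≤ (C / n) * (δ + diam K) :=
            mul_le_mul_of_nonneg_left h2 (by positivity)
          linarith
      _ = M / n := by rw [hM]; ring
  have hlip := cutoff_lip (chi K δ) W (C / n) (1 / δ) (M / n) (by positivity) (by positivity)
    (by positivity) (chi_lip K hδ) (chi01 K hδ) hWlip hWM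
  have hconst : 1 / δ * (M / n) + C / n < 1 := by
    have : 1 / δ * (M / n) + C / n = (1 / δ * M + C) / n := by ring
    rw [this, div_lt_one hn0]
    exact hTn
  have hconst0 : 0 ≤ 1 / δ * (M / n) + C / n := by positivity
  obtain ⟨Ψ, hΨ⟩ := perturb (fun z => chi K δ z • W z)
    (Real.toNNReal (1 / δ * (M / n) + C / n)) (by
      rw [← NNReal.coe_lt_coe, Real.coe_toNNReal _ hconst0]
      exact_mod_cast hconst)
    (LipschitzWith.of_dist_le_mul fun z z' => by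
      rw [Real.coe_toNNReal _ hconst0, dist_eq_norm (chi K δ z • W z)]
      exact hlip z z')
  refine ⟨Ψ, fun p => ?_, fun z hz => ?_⟩
  · have e1 : kk k0 k1 (((i : ℝ) + 1) / n) p = k p + (1 / (n : ℝ)) • (k1 p - k0 p) := by
      rw [hk, kk_eq, kk_eq, add_assoc, ← add_smul, ← add_div]
    rw [← hk, e1, hΨ, hWk]
    by_cases hp : ‖p‖ ≤ R
    · have : k p ∈ K := by
        rw [hk]
        exact hKm _ hs p hp
      rw [chi_one this, one_smul]
    · have : k1 p - k0 p = 0 := by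
        rw [hR p (not_le.mp hp).le, sub_self]
      rw [this, smul_zero, smul_zero]
  · rw [hΨ]
    have : chi K δ z = 0 := by
      by_contra hcon
      exact absurd (chi_supp hδ hcon) (not_lt.mpr hz)
    rw [this, zero_smul, add_zero]

end ItemL1

open ItemL1 in
theorem lipThm : LipThm := by
  intro k0 k1 m R U hm hL0 hL1 hU hR hUm hbi
  obtain ⟨L0, hL0⟩ := hL0
  obtain ⟨L1, hL1⟩ := hL1
  by_cases hR0 : 0 ≤ R
  swap
  · refine ⟨Homeomorph.refl _, fun p => ?_, fun z _ => rfl⟩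
    exact hR p (by linarith [norm_nonneg p, not_le.mp hR0])
  obtain ⟨K, hKdef⟩ : ∃ K : Set FF, K = (fun z : ℝ × E2 => kk k0 k1 z.1 z.2) ''
      (Icc (0 : ℝ) 1 ×ˢ closedBall (0 : E2) R) := ⟨_, rfl⟩
  have hcont : Continuous fun z : ℝ × E2 => kk k0 k1 z.1 z.2 := by
    have h0 := hL0.continuous
    have h1 := hL1.continuous
    unfold kk
    fun_prop
  have hK : IsCompact K := by
    rw [hKdef]
    exact (isCompact_Icc.prod (isCompact_closedBall _ _)).image hcont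
  have hKm : ∀ s ∈ Icc (0 : ℝ) 1, ∀ p, ‖p‖ ≤ R → kk k0 k1 s p ∈ K := by
    intro s hs p hp
    rw [hKdef]
    exact ⟨(s, p), ⟨hs, by rw [mem_closedBall_zero_iff]; exact hp⟩, rfl⟩
  have hKU : K ⊆ U := by
    rw [hKdef]
    rintro _ ⟨⟨s, p⟩, ⟨hs, hp⟩, rfl⟩
    exact hUm s hs p (by rw [mem_closedBall_zero_iff] at hp; exact hp)
  have hKne : K.Nonempty := ⟨_, hKm 0 ⟨le_rfl, zero_le_one⟩ 0 (by rw [norm_zero]; exact hR0)⟩
  obtain ⟨δ, hδ, hthick⟩ := hK.exists_thickening_subset_open hU hKU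
  obtain ⟨T, hT⟩ := one_step k0 k1 m R hm hR0 (L1 + L0) (hL1.sub hL0) hR K hK hKm hbi δ hδ
  obtain ⟨n, hn⟩ := exists_nat_gt (max T 0)
  have hn0 : 0 < n := by
    have : (0 : ℝ) < n := (le_max_right T 0).trans_lt hn
    exact_mod_cast this
  have hTn : T < n := (le_max_left T 0).trans_lt hn
  have hind : ∀ i : ℕ, i ≤ n → ∃ Φ : FF ≃ₜ FF,
      (∀ p, Φ (k0 p) = kk k0 k1 ((i : ℝ) / n) p) ∧ ∀ z, δ ≤ infDist z K → Φ z = z := by
    intro i
    induction i with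
    | zero =>
      intro _
      refine ⟨Homeomorph.refl _, fun p => ?_, fun z _ => rfl⟩
      rw [kk_eq]
      simp
    | succ i ih =>
      intro hi
      obtain ⟨Φ, h1, h2⟩ := ih (by omega)
      obtain ⟨Ψ, h3, h4⟩ := hT n hn0 hTn i (by omega)
      refine ⟨Φ.trans Ψ, fun p => ?_, fun z hz => ?_⟩
      · rw [Homeomorph.trans_apply, h1, h3]
        push_cast
        rfl
      · rw [Homeomorph.trans_apply, h2 z hz, h4 z hz]
  obtain ⟨Φ, h1, h2⟩ := hind n le_rfl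
  refine ⟨Φ, fun p => ?_, fun z hz => h2 z ?_⟩
  · rw [h1, div_self (by exact_mod_cast hn0.ne'), kk_eq, one_smul]
    abel
  · by_contra hcon
    apply hz
    apply hthick
    rw [mem_thickening_iff_infDist_lt hKne]
    exact not_le.mp hcon

end Pool.Agent.Work.MP_48319b_gt

end

section

/-!
# MP_48319b_gt, item M4: local structure of the double set of the approximations
-/

set_option autoImplicit false

open Metric Set Topology
open scoped Manifold ContDiff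

namespace Pool.Agent.Work.MP_48319b_gt

namespace ItemM4

/-- A vector completing `τ` to a basis. -/
noncomputable def perp (τ : E2) : E2 := !₂[-τ 1, τ 0]

/-- The linear map `(s, t) ↦ s ν + t τ`. -/
noncomputable def psiL (τ : E2) : (ℝ × ℝ) →ₗ[ℝ] E2 where
  toFun z := z.1 • perp τ + z.2 • τ
  map_add' a b := by
    simp only [Prod.fst_add, Prod.snd_add, add_smul]
    abel
  map_smul' c a := by
    simp only [Prod.smul_fst, Prod.smul_snd, smul_add, mul_smul, RingHom.id_apply, smul_eq_mul]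

theorem psiL_injective (τ : E2) (hτ : τ ≠ 0) : Function.Injective (psiL τ) := by
  rw [injective_iff_map_eq_zero]
  rintro ⟨s, t⟩ h
  have h0 : s * (-τ 1) + t * τ 0 = 0 := by
    have := congrArg (fun v : E2 => v 0) h
    simpa [psiL, perp] using this
  have h1 : s * τ 0 + t * τ 1 = 0 := by
    have := congrArg (fun v : E2 => v 1) h
    simpa [psiL, perp] using this
  have hn : τ 0 ^ 2 + τ 1 ^ 2 ≠ 0 := by
    intro h2
    apply hτ
    have ha : τ 0 = 0 := by nlinarith [sq_nonneg (τ 0), sq_nonneg (τ 1)]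
    have hb : τ 1 = 0 := by nlinarith [sq_nonneg (τ 0), sq_nonneg (τ 1)]
    ext i
    fin_cases i
    · exact ha
    · exact hb
  have hs : s * (τ 0 ^ 2 + τ 1 ^ 2) = 0 := by linear_combination (-τ 1) * h0 + (τ 0) * h1
  have ht : t * (τ 0 ^ 2 + τ 1 ^ 2) = 0 := by linear_combination (τ 0) * h0 + (τ 1) * h1
  rw [mul_eq_zero] at hs ht
  rcases hs with hs | hs
  · rcases ht with ht | ht
    · rw [hs, ht]
      rfl
    · exact absurd ht hn
  · exact absurd hs hn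

/-- The coordinates `(s, t)` of the plane. -/
noncomputable def psi (τ : E2) (hτ : τ ≠ 0) : (ℝ × ℝ) ≃L[ℝ] E2 :=
  (LinearEquiv.ofInjectiveOfFinrankEq (psiL τ) (psiL_injective τ hτ) (by
    simp)).toContinuousLinearEquiv

theorem psi_apply (τ : E2) (hτ : τ ≠ 0) (z : ℝ × ℝ) : psi τ hτ z = z.1 • perp τ + z.2 • τ := rfl

/-- The linear map `(u, c) ↦ A u + c w`. -/
noncomputable def phiL (A : E2 →L[ℝ] E3) (w : E3) : (E2 × ℝ) →ₗ[ℝ] E3 where
  toFun z := A z.1 + z.2 • w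
  map_add' a b := by
    simp only [Prod.fst_add, Prod.snd_add, add_smul, map_add]
    abel
  map_smul' c a := by
    simp only [Prod.smul_fst, Prod.smul_snd, smul_add, mul_smul, RingHom.id_apply, smul_eq_mul,
      map_smul]

theorem phiL_injective (A : E2 →L[ℝ] E3) (w : E3) (hA : Function.Injective A)
    (hw : w ∉ LinearMap.range (A : E2 →ₗ[ℝ] E3)) : Function.Injective (phiL A w) := by
  rw [injective_iff_map_eq_zero]
  rintro ⟨u, c⟩ h
  have h' : A u + c • w = 0 := h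
  have hc : c = 0 := by
    by_contra hc
    apply hw
    refine ⟨-(c⁻¹ • u), ?_⟩
    have h2 : A u = -(c • w) := eq_neg_of_add_eq_zero_left h'
    show A (-(c⁻¹ • u)) = w
    rw [map_neg, map_smul, h2, smul_neg, neg_neg, smul_smul, inv_mul_cancel₀ hc, one_smul]
  rw [hc, zero_smul, add_zero] at h'
  have hu : u = 0 := hA (by rw [h', map_zero])
  rw [hu, hc]
  rfl

/-- The coordinates of `E3` adapted to the flat sheet and `w`. -/
noncomputable def phi (A : E2 →L[ℝ] E3) (w : E3) (hA : Function.Injective A)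
    (hw : w ∉ LinearMap.range (A : E2 →ₗ[ℝ] E3)) : (E2 × ℝ) ≃L[ℝ] E3 :=
  (LinearEquiv.ofInjectiveOfFinrankEq (phiL A w) (phiL_injective A w hA hw) (by
    simp)).toContinuousLinearEquiv

theorem phi_apply (A : E2 →L[ℝ] E3) (w : E3) (hA : Function.Injective A)
    (hw : w ∉ LinearMap.range (A : E2 →ₗ[ℝ] E3)) (z : E2 × ℝ) :
    phi A w hA hw z = A z.1 + z.2 • w := rfl

end ItemM4

open ItemM4

theorem localThm : LocalThm := by
  intro f F hf hF p q hpq hTF W hW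
  obtain ⟨τ, w, A, r, hr, hT, hA, hAinj, hw⟩ := hTF
  obtain ⟨hpq1, hpq2⟩ := hpq
  have hw0 : w ≠ 0 := by
    rintro rfl
    exact hw (Submodule.zero_mem _)
  have hτ : τ ≠ 0 := by
    rintro rfl
    have h1 := hT p (mem_ball_self hr) 1 (by rw [smul_zero, add_zero]; exact mem_ball_self hr)
    rw [smul_zero, add_zero, one_smul] at h1
    exact hw0 (left_eq_add.1 h1)
  -- the coordinates
  set Ψ := psi τ hτ with hΨ
  set Φ := phi A w hAinj hw with hΦ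
  obtain ⟨K, hK⟩ := hF.close
  obtain ⟨K', hK'⟩ := hf.lip
  have hΦw : Φ.symm w = (0, 1) := by
    rw [ContinuousLinearEquiv.symm_apply_eq, hΦ, phi_apply]
    simp
  have hΦA : ∀ u, Φ.symm (A u) = (u, 0) := by
    intro u
    rw [ContinuousLinearEquiv.symm_apply_eq, hΦ, phi_apply]
    simp
  -- small radii
  obtain ⟨δW, hδW, hWsub⟩ := Metric.mem_nhds_iff.1 hW
  have hdist : 0 < dist p q := dist_pos.2 hpq1
  obtain ⟨δ, hδ, hδ1, hδ2, hδ3⟩ : ∃ δ > 0, δ ≤ δW ∧ δ ≤ r / 2 ∧ δ ≤ dist p q / 2 :=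
    ⟨min δW (min (r / 2) (dist p q / 2)), lt_min hδW (lt_min (by positivity) (by positivity)),
      min_le_left _ _, (min_le_right _ _).trans (min_le_left _ _),
      (min_le_right _ _).trans (min_le_right _ _)⟩
  set cΨ : ℝ := ‖(Ψ : (ℝ × ℝ) →L[ℝ] E2)‖ with hcΨ
  set cΦ : ℝ := ‖(Φ.symm : E3 →L[ℝ] E2 × ℝ)‖ with hcΦ
  have hcΨ0 : 0 ≤ cΨ := norm_nonneg _
  have hcΦ0 : 0 ≤ cΦ := norm_nonneg _
  obtain ⟨t0, ht0, ht01⟩ : ∃ t0 > 0, t0 * (cΨ + 1) ≤ δ / 2 :=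
    ⟨δ / 2 / (cΨ + 1), by positivity, by rw [div_mul_cancel₀ _ (by positivity)]⟩
  set η : ℝ := min t0 δ with hη
  have hη0 : 0 < η := lt_min ht0 hδ
  set c1 : ℝ := (cΦ + 1) * (|K| + 1) with hc1
  set c2 : ℝ := (cΦ + 1) * (K' + 1) * (cΨ + 1) with hc2
  have hc10 : 0 < c1 := by positivity
  have hc20 : 0 < c2 := by positivity
  obtain ⟨σ, hσ, hσ1, hσ2⟩ : ∃ σ > 0, σ ≤ t0 ∧ c2 * σ ≤ η / 4 :=
    ⟨min t0 (η / 4 / c2), lt_min ht0 (by positivity), min_le_left _ _, by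
      calc c2 * min t0 (η / 4 / c2) ≤ c2 * (η / 4 / c2) :=
            mul_le_mul_of_nonneg_left (min_le_right _ _) hc20.le
        _ = η / 4 := by field_simp⟩
  obtain ⟨ε0, hε0, hε1, hε2⟩ : ∃ ε0 > 0, ε0 ≤ r / 2 ∧ c1 * ε0 ≤ η / 4 :=
    ⟨min (r / 2) (η / 4 / c1), lt_min (by positivity) (by positivity), min_le_left _ _, by
      calc c1 * min (r / 2) (η / 4 / c1) ≤ c1 * (η / 4 / c1) :=
            mul_le_mul_of_nonneg_left (min_le_right _ _) hc10.le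
        _ = η / 4 := by field_simp⟩
  -- the open set
  set N : Set (E2 × E2) := {z | |(Ψ.symm (z.1 - p)).1| < σ ∧ |(Ψ.symm (z.1 - p)).2| < t0 ∧
    ‖z.2 - q‖ < δ} with hN
  have hnorm : ∀ s t : ℝ, |s| < σ → |t| < t0 → ‖Ψ (s, t)‖ < δ := by
    intro s t hs ht
    have h1 : ‖Ψ (s, t)‖ ≤ cΨ * ‖((s, t) : ℝ × ℝ)‖ :=
      (Ψ : (ℝ × ℝ) →L[ℝ] E2).le_opNorm (s, t)
    have h2 : ‖((s, t) : ℝ × ℝ)‖ ≤ t0 := by
      rw [Prod.norm_def]
      exact max_le (by rw [Real.norm_eq_abs]; exact hs.le.trans hσ1)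
        (by rw [Real.norm_eq_abs]; exact ht.le)
    have h3 : cΨ * ‖((s, t) : ℝ × ℝ)‖ ≤ cΨ * t0 := mul_le_mul_of_nonneg_left h2 hcΨ0
    nlinarith
  have hNball : ∀ z ∈ N, z.1 ∈ ball p δ ∧ z.2 ∈ ball q δ := by
    rintro z ⟨h1, h2, h3⟩
    constructor
    · rw [mem_ball, dist_eq_norm]
      have h4 := hnorm _ _ h1 h2
      rwa [Prod.mk.eta, ContinuousLinearEquiv.apply_symm_apply] at h4
    · rw [mem_ball, dist_eq_norm]
      exact h3
  refine ⟨N, ?_, ?_, ?_, ε0, hε0, ?_⟩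
  · intro z hz
    obtain ⟨h1, h2⟩ := hNball z hz
    refine hWsub ?_
    rw [mem_ball, Prod.dist_eq]
    exact max_lt ((mem_ball.1 h1).trans_le hδ1) ((mem_ball.1 h2).trans_le hδ1)
  · have c1 : Continuous fun z : E2 × E2 => Ψ.symm (z.1 - p) :=
      Ψ.symm.continuous.comp (continuous_fst.sub continuous_const)
    refine (isOpen_lt (continuous_fst.comp c1).abs continuous_const).inter
      ((isOpen_lt (continuous_snd.comp c1).abs continuous_const).inter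
        (isOpen_lt (continuous_snd.sub continuous_const).norm continuous_const))
  · refine ⟨?_, ?_, ?_⟩
    · show |(Ψ.symm (p - p)).1| < σ
      rw [sub_self, map_zero]
      simpa using hσ
    · show |(Ψ.symm (p - p)).2| < t0
      rw [sub_self, map_zero]
      simpa using ht0
    · show ‖q - q‖ < δ
      rw [sub_self, norm_zero]
      exact hδ
  intro ε hε hεε0
  have hεr : ε < r / 2 := hεε0.trans_le hε1
  have hTε := hF.trans p τ w r hT ε hε hεr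
  have hAε := hF.aff q A r hA ε hε hεr
  have hFc : Continuous (F ε) := (hF.smooth ε hε).continuous
  -- the parametrisation
  set g : ℝ → E2 × ℝ := fun s => Φ.symm (F ε (p + Ψ (s, 0)) - f q) with hg
  have hgc : Continuous g := by
    refine Φ.symm.continuous.comp ((hFc.comp (continuous_const.add
      (Ψ.continuous.comp (continuous_id.prodMk continuous_const)))).sub continuous_const)
  have hgb : ∀ s, |s| < σ → ‖g s‖ < η := by
    intro s hs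
    have h1 : ‖g s‖ ≤ cΦ * ‖F ε (p + Ψ (s, 0)) - f q‖ :=
      (Φ.symm : E3 →L[ℝ] E2 × ℝ).le_opNorm _
    have h2 : ‖F ε (p + Ψ (s, 0)) - f (p + Ψ (s, 0))‖ ≤ K * ε := hK ε hε _
    have h3 : ‖f (p + Ψ (s, 0)) - f p‖ ≤ K' * ‖Ψ (s, 0)‖ := by
      have := hK'.dist_le_mul (p + Ψ (s, 0)) p
      rwa [dist_eq_norm, dist_eq_norm, add_sub_cancel_left] at this
    have h4 : ‖Ψ (s, 0)‖ ≤ cΨ * |s| := by
      have := (Ψ : (ℝ × ℝ) →L[ℝ] E2).le_opNorm (s, 0)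
      rw [Prod.norm_def, norm_zero, max_eq_left (norm_nonneg _)] at this
      exact this
    have h5 : ‖F ε (p + Ψ (s, 0)) - f q‖ ≤ (|K| + 1) * ε + (K' + 1) * (cΨ + 1) * |s| := by
      have e1 : F ε (p + Ψ (s, 0)) - f q = (F ε (p + Ψ (s, 0)) - f (p + Ψ (s, 0))) +
          (f (p + Ψ (s, 0)) - f p) := by
        rw [show f q = f p from hpq2.symm]
        abel
      rw [e1]
      refine (norm_add_le _ _).trans (add_le_add (h2.trans ?_) (h3.trans ?_))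
      · exact mul_le_mul_of_nonneg_right (by linarith [le_abs_self K]) hε.le
      · have hK0 : (0 : ℝ) ≤ K' := K'.2
        calc (K' : ℝ) * ‖Ψ (s, 0)‖ ≤ (K' + 1) * ((cΨ + 1) * |s|) := by
              refine mul_le_mul (by linarith) (h4.trans ?_) (norm_nonneg _) (by linarith)
              exact mul_le_mul_of_nonneg_right (by linarith) (abs_nonneg s)
          _ = (K' + 1) * (cΨ + 1) * |s| := by ring
    have h6 : cΦ * ‖F ε (p + Ψ (s, 0)) - f q‖ ≤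
        (cΦ + 1) * ((|K| + 1) * ε + (K' + 1) * (cΨ + 1) * |s|) :=
      mul_le_mul (by linarith) h5 (norm_nonneg _) (by linarith)
    have h7 : (cΦ + 1) * ((|K| + 1) * ε + (K' + 1) * (cΨ + 1) * |s|) = c1 * ε + c2 * |s| := by
      rw [hc1, hc2]
      ring
    have h8 : c1 * ε ≤ c1 * ε0 := mul_le_mul_of_nonneg_left hεε0.le hc10.le
    have h9 : c2 * |s| ≤ c2 * σ := mul_le_mul_of_nonneg_left hs.le hc20.le
    linarith
  -- translation formula
  have htr : ∀ s t, |s| < σ → |t| < t0 →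
      F ε (p + Ψ (s, t)) = F ε (p + Ψ (s, 0)) + t • w := by
    intro s t hs ht
    have e1 : p + Ψ (s, t) = (p + Ψ (s, 0)) + t • τ := by
      rw [hΨ, psi_apply, psi_apply]
      simp only [zero_smul, add_zero]
      abel
    rw [e1]
    refine hTε _ ?_ t ?_
    · rw [mem_ball, dist_eq_norm, add_sub_cancel_left]
      exact (hnorm s 0 hs (by rw [abs_zero]; exact ht0)).trans_le hδ2
    · rw [← e1, mem_ball, dist_eq_norm, add_sub_cancel_left]
      exact (hnorm s t hs ht).trans_le hδ2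
  -- the double set in `N`
  have hkey : DD (F ε) ∩ N = (fun s : ℝ => (p + Ψ (s, -(g s).2), q + (g s).1)) '' Ioo (-σ) σ := by
    ext ⟨p', q'⟩
    constructor
    · rintro ⟨⟨_, heq⟩, hmem⟩
      obtain ⟨hb1, hb2⟩ := hNball _ hmem
      obtain ⟨h1, h2, h3⟩ := hmem
      have heq' : F ε p' = F ε q' := heq
      set s := (Ψ.symm (p' - p)).1 with hs
      set t := (Ψ.symm (p' - p)).2 with ht
      have h1' : |s| < σ := h1
      have h2' : |t| < t0 := h2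
      have hp' : p' = p + Ψ (s, t) := by
        rw [hs, ht, Prod.mk.eta, ContinuousLinearEquiv.apply_symm_apply]
        abel
      have hq' : F ε q' = f q + A (q' - q) := by
        rw [hAε q' ((mem_ball.1 hb2).trans_le hδ2)]
        exact hA q' ((mem_ball.1 hb2).trans_le (hδ2.trans (by linarith)))
      have e1 : F ε (p + Ψ (s, 0)) - f q = A (q' - q) - t • w := by
        have := htr s t h1' h2'
        rw [← hp', heq', hq'] at this
        rw [eq_sub_iff_add_eq, sub_add_eq_add_sub, ← this]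
        abel
      have e2 : g s = (q' - q, -t) := by
        show Φ.symm (F ε (p + Ψ (s, 0)) - f q) = _
        rw [e1, map_sub, map_smul, hΦA, hΦw]
        simp
      refine ⟨s, abs_lt.1 h1', ?_⟩
      show (p + Ψ (s, -(g s).2), q + (g s).1) = (p', q')
      rw [e2]
      refine Prod.ext ?_ ?_
      · show p + Ψ (s, - -t) = p'
        rw [neg_neg, hp']
      · show q + (q' - q) = q'
        abel
    · rintro ⟨s, hs, heq⟩
      have h1 : |s| < σ := abs_lt.2 hs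
      obtain ⟨rfl, rfl⟩ := Prod.mk.inj heq
      have h2 := hgb s h1
      have h3 : ‖(g s).1‖ < η := (norm_fst_le (g s)).trans_lt h2
      have h4 : |(g s).2| < η := (norm_snd_le (g s)).trans_lt h2
      have h5 : |-(g s).2| < t0 := by
        rw [abs_neg]
        exact h4.trans_le (min_le_left _ _)
      have hmem : (p + Ψ (s, -(g s).2), q + (g s).1) ∈ N := by
        refine ⟨?_, ?_, ?_⟩
        · show |(Ψ.symm (p + Ψ (s, -(g s).2) - p)).1| < σ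
          rw [add_sub_cancel_left, ContinuousLinearEquiv.symm_apply_apply]
          exact h1
        · show |(Ψ.symm (p + Ψ (s, -(g s).2) - p)).2| < t0
          rw [add_sub_cancel_left, ContinuousLinearEquiv.symm_apply_apply]
          exact h5
        · show ‖q + (g s).1 - q‖ < δ
          rw [add_sub_cancel_left]
          exact h3.trans_le (min_le_right _ _)
      obtain ⟨hb1, hb2⟩ := hNball _ hmem
      refine ⟨⟨?_, ?_⟩, hmem⟩
      · intro hcon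
        have h6 : dist p q < dist p q := by
          have hcon' : p + Ψ (s, -(g s).2) = q + (g s).1 := hcon
          calc dist p q ≤ dist p (p + Ψ (s, -(g s).2)) + dist (p + Ψ (s, -(g s).2)) q :=
                dist_triangle _ _ _
            _ < δ + δ := by
                refine add_lt_add ?_ ?_
                · rw [dist_comm]
                  exact mem_ball.1 hb1
                · rw [hcon']
                  exact mem_ball.1 hb2
            _ ≤ dist p q := by linarith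
        exact lt_irrefl _ h6
      · show F ε (p + Ψ (s, -(g s).2)) = F ε (q + (g s).1)
        rw [htr s _ h1 h5, hAε _ ((mem_ball.1 hb2).trans_le hδ2),
          hA _ ((mem_ball.1 hb2).trans_le (hδ2.trans (by linarith))), add_sub_cancel_left]
        have e1 : F ε (p + Ψ (s, 0)) - f q = A (g s).1 + (g s).2 • w := by
          have : Φ (g s) = F ε (p + Ψ (s, 0)) - f q := by
            rw [hg]
            exact ContinuousLinearEquiv.apply_symm_apply _ _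
          rw [← this]
          rfl
        have e2 : F ε (p + Ψ (s, 0)) = f q + (A (g s).1 + (g s).2 • w) := by
          rw [← e1]
          abel
        rw [e2, neg_smul]
        abel
  refine ⟨?_, ?_, ?_⟩
  · rw [hkey]
    refine isPreconnected_Ioo.image _ (Continuous.continuousOn ?_)
    refine Continuous.prodMk ?_ ?_
    · exact continuous_const.add (Ψ.continuous.comp
        (continuous_id.prodMk (continuous_snd.comp hgc).neg))
    · exact continuous_const.add (continuous_fst.comp hgc)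
  · rw [hkey]
    exact ⟨_, mem_image_of_mem _ ⟨neg_lt_zero.2 hσ, hσ⟩⟩
  · rintro ⟨p', q'⟩ ⟨_, hmem⟩
    obtain ⟨hb1, hb2⟩ := hNball _ hmem
    have hd : DifferentiableAt ℝ (F ε) p' :=
      (hF.smooth ε hε).contDiffAt.differentiableAt (by simp)
    have hw' : w ∈ LinearMap.range (fderiv ℝ (F ε) p' : E2 →ₗ[ℝ] E3) := by
      refine ⟨τ, ?_⟩
      have h1 : HasDerivAt (fun t : ℝ => F ε (p' + t • τ)) ((fderiv ℝ (F ε) p') τ) 0 := by
        have h2 : HasDerivAt (fun t : ℝ => p' + t • τ) τ 0 := by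
          have := ((hasDerivAt_id (0 : ℝ)).smul_const τ).const_add p'
          simpa using this
        have h3 : HasFDerivAt (F ε) (fderiv ℝ (F ε) p') (p' + (0 : ℝ) • τ) := by
          rw [zero_smul, add_zero]
          exact hd.hasFDerivAt
        exact h3.comp_hasDerivAt (0 : ℝ) h2
      have h2 : HasDerivAt (fun t : ℝ => F ε (p' + t • τ)) w 0 := by
        have h3 : HasDerivAt (fun t : ℝ => F ε p' + t • w) w 0 := by
          have := ((hasDerivAt_id (0 : ℝ)).smul_const w).const_add (F ε p')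
          simpa using this
        refine h3.congr_of_eventuallyEq ?_
        have h4 : ∀ᶠ t : ℝ in 𝓝 0, p' + t • τ ∈ ball p (r / 2) := by
          have h5 : Continuous fun t : ℝ => p' + t • τ := by fun_prop
          refine h5.continuousAt.eventually_mem (isOpen_ball.mem_nhds ?_)
          rw [zero_smul, add_zero]
          exact (mem_ball.1 hb1).trans_le hδ2
        filter_upwards [h4] with t ht
        exact hTε p' ((mem_ball.1 hb1).trans_le hδ2) t ht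
      exact h1.unique h2
    have hA' : LinearMap.range (fderiv ℝ (F ε) q' : E2 →ₗ[ℝ] E3) =
        LinearMap.range (A : E2 →ₗ[ℝ] E3) := by
      have h1 : HasFDerivAt (F ε) A q' := by
        have h2 : HasFDerivAt (fun x => f q + A (x - q)) A q' := by
          have := (A.hasFDerivAt (x := q' - q)).comp q' ((hasFDerivAt_id q').sub_const q)
          exact (this.const_add (f q))
        refine h2.congr_of_eventuallyEq ?_
        filter_upwards [isOpen_ball.mem_nhds (show q' ∈ ball q (r / 2) from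
          (mem_ball.1 hb2).trans_le hδ2)] with x hx
        rw [hAε x hx]
        exact hA x ((mem_ball.1 hx).trans_le (by linarith))
      rw [h1.fderiv]
    show LinearMap.range (fderiv ℝ (F ε) p' : E2 →ₗ[ℝ] E3) ⊔
      LinearMap.range (fderiv ℝ (F ε) q' : E2 →ₗ[ℝ] E3) = ⊤
    rw [hA', eq_top_iff]
    intro v _
    have hv : A (Φ.symm v).1 + (Φ.symm v).2 • w = v := by
      have := ContinuousLinearEquiv.apply_symm_apply Φ v
      exact this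
    rw [← hv]
    exact Submodule.add_mem _ (Submodule.mem_sup_right ⟨_, rfl⟩)
      (Submodule.smul_mem _ _ (Submodule.mem_sup_left hw'))

end Pool.Agent.Work.MP_48319b_gt

end

section

/-!
# MP_48319b_gt : the main lemma on products of colours (used by items C and P4)
-/

open Metric Set Topology Filter

namespace Pool.Agent.Work.MP_48319b_gt
namespace ItemC

section StackLemmas

variable {S : Type*} {P : S → E3} {h : S → ℝ}

/-- stacks are unique -/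
theorem stack_unique {y : E3} {s : ℝ} {l l' : List S}
    (hl : IsStack P h y s l) (hl' : IsStack P h y s l') : l = l' := by
  have : Std.Irrefl (fun p q : S => h q < h p) := ⟨fun a => lt_irrefl _⟩
  have : Std.Antisymm (fun p q : S => h q < h p) := ⟨fun a b h1 h2 => absurd h1 (not_lt.mpr h2.le)⟩
  exact List.Pairwise.eq_of_mem_iff hl.1 hl'.1 (fun p => (hl.2 p).trans (hl'.2 p).symm)

/-- the part of a stack above one of its members is the stack above this member -/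
theorem stack_prefix {y : E3} {s : ℝ} {l1 l2 : List S} {p : S}
    (hl : IsStack P h y s (l1 ++ p :: l2)) : IsStack P h (P p) (h p) l1 := by
  obtain ⟨h1, h2⟩ := hl
  rw [List.pairwise_append, List.pairwise_cons] at h1
  obtain ⟨a1, ⟨a2, a3⟩, a4⟩ := h1
  have hp := (h2 p).mp (by simp)
  refine ⟨a1, fun q => ⟨fun hq => ⟨?_, a4 q hq p (by simp)⟩, ?_⟩⟩
  · rw [hp.1]; exact ((h2 q).mp (by simp [hq])).1
  · rintro ⟨q1, q2⟩
    have hq : q ∈ l1 ++ p :: l2 := (h2 q).mpr ⟨q1.trans hp.1, hp.2.trans q2⟩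
    rcases List.mem_append.mp hq with h | h
    · exact h
    · rcases List.mem_cons.mp h with h | h
      · subst h; exact absurd q2 (lt_irrefl _)
      · exact absurd q2 (not_lt.mpr (a2 q h).le)

variable [TopologicalSpace S]

/-- fibres are finite -/
theorem fibre_finite (hP : IsProperMap P) (hinj : ∀ p, ∃ O ∈ 𝓝 p, InjOn P O) (y : E3) :
    (P ⁻¹' {y}).Finite := by
  have hc : IsCompact (P ⁻¹' {y}) := hP.isCompact_preimage isCompact_singleton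
  apply hc.finite
  rw [isDiscrete_iff_forall_mem_exists_isOpen]
  intro p hp
  obtain ⟨O, hO, hinjO⟩ := hinj p
  obtain ⟨U, hUO, hU, hpU⟩ := mem_nhds_iff.mp hO
  refine ⟨U, hU, ?_⟩
  ext q
  constructor
  · rintro ⟨hq1, hq2⟩
    exact hinjO (hUO hq1) (hUO hpU) (by
      rw [mem_preimage, mem_singleton_iff] at hp hq2; rw [hp, hq2])
  · rintro rfl
    exact ⟨hpU, hp⟩

/-- stacks exist -/
theorem exists_stack (hP : IsProperMap P) (hinj : ∀ p, ∃ O ∈ 𝓝 p, InjOn P O)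
    (hPh : Function.Injective (fun p => (P p, h p))) (y : E3) (s : ℝ) :
    ∃ l, IsStack P h y s l := by
  classical
  have hfin : {p | P p = y ∧ s < h p}.Finite :=
    (fibre_finite hP hinj y).subset (fun p hp => hp.1)
  have key : ∀ F : Finset S, (∀ p ∈ F, ∀ q ∈ F, h p = h q → p = q) →
      ∃ l : List S, l.Pairwise (fun p q => h q < h p) ∧ ∀ p, p ∈ l ↔ p ∈ F := by
    intro F
    induction F using Finset.induction_on_max_value h with
    | empty => intro _; exact ⟨[], List.Pairwise.nil, by simp⟩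
    | insert a s ha hmax ih =>
      intro hF
      obtain ⟨l, hl1, hl2⟩ := ih (fun p hp q hq => hF p (Finset.mem_insert_of_mem hp) q
        (Finset.mem_insert_of_mem hq))
      refine ⟨a :: l, List.Pairwise.cons ?_ hl1, ?_⟩
      · intro q hq
        have hqs := (hl2 q).mp hq
        refine lt_of_le_of_ne (hmax q hqs) (fun he => ha ?_)
        have := hF q (Finset.mem_insert_of_mem hqs) a (Finset.mem_insert_self _ _) he
        rwa [this] at hqs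
      · intro p
        rw [List.mem_cons, Finset.mem_insert, hl2]
  obtain ⟨l, hl1, hl2⟩ := key hfin.toFinset (by
    intro p hp q hq hpq
    rw [Set.Finite.mem_toFinset] at hp hq
    exact hPh (Prod.ext (hp.1.trans hq.1.symm) hpq))
  exact ⟨l, hl1, fun p => by rw [hl2, Set.Finite.mem_toFinset]; rfl⟩

end StackLemmas

section algebra

variable {S G : Type*} [Group G] {b : S → E3 → Prop} {c : S → G}

theorem wprod_nil (y : E3) : wprod b c [] y = 1 := by simp [wprod]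

open Classical in
theorem wprod_append_singleton (l : List S) (p : S) (y : E3) :
    wprod b c (l ++ [p]) y = wprod b c l y * (if b p y then c p else 1) := by
  simp [wprod]

open Classical in
theorem wprod_singleton (p : S) (y : E3) :
    wprod b c [p] y = if b p y then c p else 1 := by
  simp [wprod]

theorem wprod_filterMap (φ : S → Option S) (x1 : E3) (l : List S)
    (H : ∀ l1 p l2, l = l1 ++ p :: l2 →
      (φ p = none → ∀ᶠ y in 𝓝 x1, (b p y ↔ b p x1)) ∧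
      (∀ q, φ p = some q → (∀ᶠ y in 𝓝 x1, (b p y ↔ b q y)) ∧ ¬ b p x1 ∧
        c q = wprod b c l1 x1 * c p * (wprod b c l1 x1)⁻¹)) :
    ∀ᶠ y in 𝓝 x1, wprod b c l y = wprod b c (l.filterMap φ) y * wprod b c l x1 := by
  classical
  induction l using List.reverseRecOn with
  | nil => simp [wprod_nil]
  | append_singleton l p ih =>
    have ih' := ih (fun l1 p' l2 hl => H l1 p' (l2 ++ [p]) (by rw [hl]; simp))
    obtain ⟨h1, h2⟩ := H l p [] rfl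
    rcases hφ : φ p with _ | q
    · filter_upwards [ih', h1 hφ] with y hy1 hy2
      rw [wprod_append_singleton, wprod_append_singleton, List.filterMap_append, hy1]
      simp [hφ, hy2, mul_assoc]
    · obtain ⟨a1, a2, a3⟩ := h2 q hφ
      filter_upwards [ih', a1] with y hy1 hy2
      have hf : List.filterMap φ (l ++ [p]) = List.filterMap φ l ++ [q] := by
        rw [List.filterMap_append]; simp [hφ]
      rw [hf, wprod_append_singleton, wprod_append_singleton, wprod_append_singleton, hy1]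
      by_cases hb : b p y
      · rw [if_pos hb, if_pos (hy2.mp hb), if_neg a2, a3]
        group
      · rw [if_neg hb, if_neg (fun h => hb (hy2.mpr h)), if_neg a2]
        group

end algebra

/-- Main lemma on products of colours. `z = (x,s)`, `l` is the stack above `z`. The filter `𝓕`
tends to `z`; if there is a sheet through `z` then for `z'` near `z` along `𝓕` no sheet near this
one is above `z'`. -/
theorem main_lemma {S G : Type*} [TopologicalSpace S] [Group G] {P : S → E3} {h : S → ℝ}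
    {b : S → E3 → Prop} {c : S → G} (hP : IsProperMap P) (hh : Continuous h)
    (hPh : Function.Injective (fun p => (P p, h p))) (hb : Sides P b) {x : E3} {s : ℝ}
    {l : List S} (hl : IsStack P h x s l)
    (hc : ∀ p ∈ l, ∀ l', IsStack P h (P p) (h p) l' →
      ∀ᶠ q in 𝓝 p, c q = wprod b c l' (P q) * c p * (wprod b c l' (P q))⁻¹)
    (𝓕 : Filter (E3 × ℝ)) (hF : 𝓕 ≤ 𝓝 (x, s))
    (hex : ∀ q0, P q0 = x → h q0 = s →
      ∃ O ∈ 𝓝 q0, ∀ᶠ z in 𝓕, ∀ q ∈ O, P q = z.1 → h q ≤ z.2) :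
    ∀ᶠ z in 𝓕, ∀ l1, IsStack P h z.1 z.2 l1 →
      ∀ᶠ y in 𝓝 z.1, wprod b c l y = wprod b c l1 y * wprod b c l z.1 := by
  classical
  -- the sheet through `z`
  obtain ⟨O0, hO0, hO0'⟩ : ∃ O0 : Set S, (∀ q0, P q0 = x → h q0 = s → O0 ∈ 𝓝 q0) ∧
      ∀ᶠ z in 𝓕, ∀ q ∈ O0, P q = z.1 → h q ≤ z.2 := by
    by_cases hq : ∃ q0, P q0 = x ∧ h q0 = s
    · obtain ⟨q0, h1, h2⟩ := hq
      obtain ⟨O, hO, hO'⟩ := hex q0 h1 h2
      refine ⟨O, fun q0' h1' h2' => ?_, hO'⟩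
      have : q0' = q0 := hPh (Prod.ext (h1'.trans h1.symm) (h2'.trans h2.symm))
      rw [this]; exact hO
    · exact ⟨∅, fun q0 h1 h2 => absurd ⟨q0, h1, h2⟩ hq, by simp⟩
  -- the fibre
  have hfin : (P ⁻¹' {x}).Finite := fibre_finite hP hb.inj x
  -- the constant `δ`
  obtain ⟨δ, hδ, hδ1, hδ2, hδ3⟩ : ∃ δ > 0,
      (∀ p ∈ P ⁻¹' {x}, ∀ q ∈ P ⁻¹' {x}, h q < h p → h q + 2 * δ < h p) ∧
      (∀ p ∈ P ⁻¹' {x}, s < h p → s + 2 * δ < h p) ∧
      (∀ p ∈ P ⁻¹' {x}, h p < s → h p + 2 * δ < s) := by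
    have e0 : ∀ᶠ δ in 𝓝[>] (0 : ℝ), 0 < δ := self_mem_nhdsWithin
    have aux : ∀ u v : ℝ, ∀ᶠ δ in 𝓝[>] (0 : ℝ), (u < v → u + 2 * δ < v) := by
      intro u v
      by_cases huv : u < v
      · have : ∀ᶠ δ in 𝓝 (0 : ℝ), u + 2 * δ < v := by
          have hcont : Continuous (fun δ : ℝ => u + 2 * δ) := by fun_prop
          exact hcont.continuousAt.eventually_lt continuousAt_const (by simpa using huv)
        filter_upwards [this.filter_mono nhdsWithin_le_nhds] with δ hδ _ using hδ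
      · exact Eventually.of_forall (fun δ hh => absurd hh huv)
    have e1 : ∀ᶠ δ in 𝓝[>] (0 : ℝ), ∀ p ∈ P ⁻¹' {x}, ∀ q ∈ P ⁻¹' {x},
        (h q < h p → h q + 2 * δ < h p) :=
      (hfin.eventually_all).mpr (fun p _ => (hfin.eventually_all).mpr (fun q _ => aux _ _))
    have e2 : ∀ᶠ δ in 𝓝[>] (0 : ℝ), ∀ p ∈ P ⁻¹' {x}, (s < h p → s + 2 * δ < h p) :=
      (hfin.eventually_all).mpr (fun p _ => aux _ _)
    have e3 : ∀ᶠ δ in 𝓝[>] (0 : ℝ), ∀ p ∈ P ⁻¹' {x}, (h p < s → h p + 2 * δ < s) :=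
      (hfin.eventually_all).mpr (fun p _ => aux _ _)
    obtain ⟨δ, h0, h1, h2, h3⟩ := (e0.and (e1.and (e2.and e3))).exists
    exact ⟨δ, h0, h1, h2, h3⟩
  have hlx : ∀ p ∈ l, P p = x ∧ s < h p := fun p hp => (hl.2 p).mp hp
  have hlfin : {p | p ∈ l}.Finite := List.finite_toSet l
  -- the neighbourhoods
  have key1 : ∀ p, ∃ O : Set S, p ∈ l → (O ∈ 𝓝 p ∧ InjOn P O ∧
      (∀ q ∈ O, ∀ᶠ z in 𝓝 (P q), (b p z ↔ b q z)) ∧
      (∀ q ∈ O, ∀ l', IsStack P h (P p) (h p) l' →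
        c q = wprod b c l' (P q) * c p * (wprod b c l' (P q))⁻¹) ∧
      (∀ q ∈ O, |h q - h p| < δ)) := by
    intro p
    by_cases hp : p ∈ l
    · obtain ⟨O1, hO1, hinj⟩ := hb.inj p
      obtain ⟨lp, hlp⟩ := exists_stack hP hb.inj hPh (P p) (h p)
      have e1 := hb.same p
      have e2 := hc p hp lp hlp
      have e3 : ∀ᶠ q in 𝓝 p, |h q - h p| < δ := by
        have : ContinuousAt (fun q => |h q - h p|) p := by fun_prop
        exact this.eventually_lt continuousAt_const (by simpa using hδ)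
      refine ⟨O1 ∩ ({q | ∀ᶠ z in 𝓝 (P q), (b p z ↔ b q z)} ∩
        ({q | c q = wprod b c lp (P q) * c p * (wprod b c lp (P q))⁻¹} ∩
        {q | |h q - h p| < δ})), fun _ => ⟨?_, ?_, ?_, ?_, ?_⟩⟩
      · exact inter_mem hO1 (inter_mem e1 (inter_mem e2 e3))
      · exact hinj.mono inter_subset_left
      · exact fun q hq => hq.2.1
      · intro q hq l' hl'
        rw [stack_unique hl' hlp]
        exact hq.2.2.1
      · exact fun q hq => hq.2.2.2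
    · exact ⟨∅, fun h => absurd h hp⟩
  choose O hO using key1
  have key2 : ∀ᶠ y in 𝓝 x, ∀ p ∈ {p | p ∈ l}, (y ∉ P '' O p → ∀ᶠ z in 𝓝 y, (b p z ↔ b p y)) := by
    rw [hlfin.eventually_all]
    intro p hp
    have := hb.const p (O p) (hO p hp).1
    rwa [(hlx p hp).1] at this
  have key3 : ∀ᶠ y in 𝓝 x, ∀ q ∈ P ⁻¹' {y}, ((∃ p ∈ l, q ∈ O p) ∨ h q < s - δ ∨ q ∈ O0) := by
    apply hP.isClosedMap.eventually_nhds_fiber x
    intro q0 hq0
    rcases lt_trichotomy (h q0) s with hlt | heq | hgt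
    · have : ∀ᶠ q in 𝓝 q0, h q < s - δ :=
        hh.continuousAt.eventually_lt continuousAt_const (by have := hδ3 q0 hq0 hlt; linarith)
      filter_upwards [this] with q hq using Or.inr (Or.inl hq)
    · filter_upwards [hO0 q0 hq0 heq] with q hq using Or.inr (Or.inr hq)
    · have hmem : q0 ∈ l := (hl.2 q0).mpr ⟨hq0, hgt⟩
      filter_upwards [(hO q0 hmem).1] with q hq using Or.inl ⟨q0, hmem, hq⟩
  have hF1 : Tendsto Prod.fst 𝓕 (𝓝 x) := (continuous_fst.tendsto (x, s)).mono_left hF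
  have hF2 : Tendsto Prod.snd 𝓕 (𝓝 s) := (continuous_snd.tendsto (x, s)).mono_left hF
  have hF2' : ∀ᶠ z in 𝓕, |z.2 - s| < δ := by
    have : ∀ᶠ t in 𝓝 s, |t - s| < δ := by
      have : ContinuousAt (fun t : ℝ => |t - s|) s := by fun_prop
      exact this.eventually_lt continuousAt_const (by simpa using hδ)
    exact hF2.eventually this
  filter_upwards [hO0', hF1.eventually key2, hF1.eventually key3, hF2'] with z z0 z2 z3 z4
  intro l1 hl1
  -- the partial map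
  let φ : S → Option S := fun p => if hq : ∃ q ∈ O p, P q = z.1 then some hq.choose else none
  have hφ1 : ∀ p q, φ p = some q → q ∈ O p ∧ P q = z.1 := by
    intro p q hpq
    by_cases hq : ∃ q ∈ O p, P q = z.1
    · simp only [φ, dif_pos hq, Option.some.injEq] at hpq
      rw [← hpq]; exact hq.choose_spec
    · simp only [φ, dif_neg hq] at hpq
      exact absurd hpq (by simp)
  have hφ2 : ∀ p ∈ l, ∀ q ∈ O p, P q = z.1 → φ p = some q := by
    intro p hp q hq hPq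
    have hex : ∃ q ∈ O p, P q = z.1 := ⟨q, hq, hPq⟩
    have : φ p = some hex.choose := by simp only [φ, dif_pos hex]
    rw [this]
    congr 1
    exact (hO p hp).2.1 hex.choose_spec.1 hq (hex.choose_spec.2.trans hPq.symm)
  have hφ3 : ∀ p, φ p = none → z.1 ∉ P '' O p := by
    rintro p hp ⟨q, hq, hPq⟩
    have hex : ∃ q ∈ O p, P q = z.1 := ⟨q, hq, hPq⟩
    simp only [φ, dif_pos hex] at hp
    exact absurd hp (by simp)
  have z4' := abs_lt.mp z4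
  have hst : IsStack P h z.1 z.2 (l.filterMap φ) := by
    constructor
    · rw [List.pairwise_filterMap]
      refine List.Pairwise.imp_of_mem ?_ hl.1
      intro p p' hp hp' hlt q hq q' hq'
      have a1 := abs_lt.mp ((hO p hp).2.2.2.2 q (hφ1 p q hq).1)
      have a2 := abs_lt.mp ((hO p' hp').2.2.2.2 q' (hφ1 p' q' hq').1)
      have a3 := hδ1 p (hlx p hp).1 p' (hlx p' hp').1 hlt
      linarith
    · intro q
      rw [List.mem_filterMap]
      constructor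
      · rintro ⟨p, hp, hpq⟩
        refine ⟨(hφ1 p q hpq).2, ?_⟩
        have a1 := abs_lt.mp ((hO p hp).2.2.2.2 q (hφ1 p q hpq).1)
        have a3 := hδ2 p (hlx p hp).1 (hlx p hp).2
        linarith
      · rintro ⟨hq1, hq2⟩
        rcases z3 q hq1 with ⟨p, hp, hq⟩ | hq | hq
        · exact ⟨p, hp, hφ2 p hp q hq hq1⟩
        · exfalso; linarith
        · exact absurd hq2 (not_lt.mpr (z0 q hq hq1))
  rw [stack_unique hl1 hst]
  apply wprod_filterMap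
  rintro la p lb hlab
  have hp : p ∈ l := by rw [hlab]; simp
  have hpre : IsStack P h (P p) (h p) la := stack_prefix (hlab ▸ hl)
  refine ⟨fun hn => z2 p hp (hφ3 p hn), fun q hq => ?_⟩
  obtain ⟨hqO, hqz⟩ := hφ1 p q hq
  have hsame := (hO p hp).2.2.1 q hqO
  rw [hqz] at hsame
  refine ⟨hsame, ?_, ?_⟩
  · rw [hsame.self_of_nhds, ← hqz]
    exact hb.self q
  · have := (hO p hp).2.2.2.1 q hqO la hpre
    rwa [hqz] at this

end ItemC
end Pool.Agent.Work.MP_48319b_gt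

end

section

/-!
# MP_48319b_gt, the common main lemma of items C and P4

Let `l` be the stack of the surface over `y0` above `s0`.  For `(y1, s1)` near `(y0, s0)` and a
stack `l1` over `y1` above `s1` whose members are near the members of `l` one has
`wprod b c l y = wprod b c l1 y * wprod b c l y1` for `y` near `y1`.
-/

open Metric Set Topology

namespace Pool.Agent.Work.MP_48319b_gt

namespace MainLem

variable {S G : Type*} [Group G]

theorem wprod_nil (b : S → E3 → Prop) (c : S → G) (y : E3) : wprod b c [] y = 1 := rfl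

open Classical in
theorem wprod_snoc (b : S → E3 → Prop) (c : S → G) (l : List S) (p : S) (y : E3) :
    wprod b c (l ++ [p]) y = wprod b c l y * (if b p y then c p else 1) := by
  simp [wprod]

/-- `l1` arises from `l` by replacing or deleting the members one by one. -/
inductive Corr (b : S → E3 → Prop) (c : S → G) (y1 : E3) : List S → List S → Prop
  | nil : Corr b c y1 [] []
  | del {l l1 : List S} {p : S} : Corr b c y1 l l1 → (∀ᶠ y in 𝓝 y1, (b p y ↔ b p y1)) →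
      Corr b c y1 (l ++ [p]) l1
  | keep {l l1 : List S} {p q : S} : Corr b c y1 l l1 → (∀ᶠ y in 𝓝 y1, (b p y ↔ b q y)) →
      ¬ b q y1 → c q = wprod b c l y1 * c p * (wprod b c l y1)⁻¹ →
      Corr b c y1 (l ++ [p]) (l1 ++ [q])

theorem Corr.main {b : S → E3 → Prop} {c : S → G} {y1 : E3} {l l1 : List S}
    (h : Corr b c y1 l l1) :
    ∀ᶠ y in 𝓝 y1, wprod b c l y = wprod b c l1 y * wprod b c l y1 := by
  induction h with
  | nil => exact Filter.Eventually.of_forall fun y => by simp [wprod_nil]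
  | @del l l1 p h hp ih =>
    filter_upwards [ih, hp] with y h1 h2
    rw [wprod_snoc, wprod_snoc, h1]
    by_cases hy : b p y
    · rw [if_pos hy, if_pos (h2.1 hy), mul_assoc]
    · rw [if_neg hy, if_neg (fun h => hy (h2.2 h)), mul_assoc]
  | @keep l l1 p q h hpq hq hc ih =>
    have hp1 := hpq.self_of_nhds
    filter_upwards [ih, hpq] with y h1 h2
    rw [wprod_snoc, wprod_snoc, wprod_snoc, h1]
    have hp : ¬ b p y1 := fun h => hq (hp1.1 h)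
    rw [if_neg hp, mul_one]
    by_cases hy : b p y
    · rw [if_pos hy, if_pos (h2.1 hy), hc]
      group
    · rw [if_neg hy, if_neg (fun h => hy (h2.2 h))]
      group

/-- the local data needed to compare stacks -/
structure Loc (P : S → E3) (h : S → ℝ) (b : S → E3 → Prop) (c : S → G) (y1 : E3) (l : List S)
    (O : S → Set S) : Prop where
  inj : ∀ p ∈ l, InjOn P (O p)
  same : ∀ p ∈ l, ∀ q ∈ O p, ∀ᶠ z in 𝓝 (P q), (b p z ↔ b q z)
  col : ∀ l' p l'', l = l' ++ p :: l'' → ∀ q ∈ O p,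
    c q = wprod b c l' (P q) * c p * (wprod b c l' (P q))⁻¹
  sep : ∀ p ∈ l, ∀ p' ∈ l, h p' < h p → ∀ q ∈ O p, ∀ q' ∈ O p', h q' < h q
  const : ∀ p ∈ l, y1 ∉ P '' O p → ∀ᶠ z in 𝓝 y1, (b p z ↔ b p y1)

theorem Loc.corr {P : S → E3} {h : S → ℝ} {b : S → E3 → Prop} {c : S → G} {y1 : E3}
    {O : S → Set S} (hself : ∀ p, ¬ b p (P p)) (l : List S) :
    ∀ l1 : List S, Loc P h b c y1 l O → l.Pairwise (fun p q => h q < h p) →
      l1.Pairwise (fun p q => h q < h p) → (∀ r, r ∈ l1 ↔ P r = y1 ∧ ∃ p ∈ l, r ∈ O p) →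
      Corr b c y1 l l1 := by
  induction l using List.reverseRecOn with
  | nil =>
    intro l1 _ _ _ hmem
    have : l1 = [] := by
      apply List.eq_nil_iff_forall_not_mem.2
      intro r hr
      obtain ⟨_, p, hp, _⟩ := (hmem r).1 hr
      simp at hp
    subst this
    exact Corr.nil
  | append_singleton l p ih =>
    intro l1 hL hl hl1 hmem
    have hL' : Loc P h b c y1 l O :=
      { inj := fun q hq => hL.inj q (by simp [hq])
        same := fun q hq => hL.same q (by simp [hq])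
        col := fun l' q l'' hl' => hL.col l' q (l'' ++ [p]) (by simp [hl'])
        sep := fun q hq q' hq' => hL.sep q (by simp [hq]) q' (by simp [hq'])
        const := fun q hq => hL.const q (by simp [hq]) }
    have hpm : p ∈ l ++ [p] := by simp
    have hll : l.Pairwise (fun p q => h q < h p) := (List.pairwise_append.1 hl).1
    have hlp : ∀ a ∈ l, h p < h a := fun a ha => (List.pairwise_append.1 hl).2.2 a ha p (by simp)
    by_cases hy : y1 ∈ P '' O p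
    · obtain ⟨q, hq, hqy⟩ := hy
      have hq1 : q ∈ l1 := (hmem q).2 ⟨hqy, p, hpm, hq⟩
      -- all the other members are higher
      have hhigh : ∀ r ∈ l1, r ≠ q → h q < h r ∧ ∃ p' ∈ l, r ∈ O p' := by
        intro r hr hrq
        obtain ⟨hr1, p', hp', hr'⟩ := (hmem r).1 hr
        rcases List.mem_append.1 hp' with h1 | h1
        · exact ⟨hL.sep p' hp' p hpm (hlp p' h1) r hr' q hq, p', h1, hr'⟩
        · have : p' = p := by simpa using h1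
          subst this
          exact absurd (hL.inj _ hpm hr' hq (hr1.trans hqy.symm)) hrq
      -- `q` is the last element
      obtain ⟨l2, rfl⟩ : ∃ l2, l1 = l2 ++ [q] := by
        rcases List.eq_nil_or_concat l1 with h0 | ⟨l2, r, h2⟩
        · rw [h0] at hq1
          simp at hq1
        · rw [List.concat_eq_append] at h2
          rw [h2] at hq1 hl1 ⊢
          refine ⟨l2, ?_⟩
          by_cases hrq : r = q
          · rw [hrq]
          · exfalso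
            have hr1 : r ∈ l1 := by rw [h2]; simp
            have hqr := (hhigh r hr1 hrq).1
            have hql : q ∈ l2 := by
              rcases List.mem_append.1 hq1 with h3 | h3
              · exact h3
              · exact absurd (by simpa using h3 : q = r).symm hrq
            have := (List.pairwise_append.1 hl1).2.2 q hql r (by simp)
            exact lt_asymm this hqr
      have hl2 : l2.Pairwise (fun p q => h q < h p) := (List.pairwise_append.1 hl1).1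
      have hl2q : ∀ r ∈ l2, h q < h r := fun r hr =>
        (List.pairwise_append.1 hl1).2.2 r hr q (by simp)
      have hmem2 : ∀ r, r ∈ l2 ↔ P r = y1 ∧ ∃ p' ∈ l, r ∈ O p' := by
        intro r
        constructor
        · intro hr
          have hrq : r ≠ q := by
            rintro rfl
            exact lt_irrefl _ (hl2q r hr)
          exact ⟨((hmem r).1 (by simp [hr])).1, (hhigh r (by simp [hr]) hrq).2⟩
        · rintro ⟨hr1, p', hp', hr2⟩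
          have hr : r ∈ l2 ++ [q] := (hmem r).2 ⟨hr1, p', by simp [hp'], hr2⟩
          rcases List.mem_append.1 hr with h3 | h3
          · exact h3
          · have : r = q := by simpa using h3
            subst this
            exact absurd (hL.sep p' (by simp [hp']) p hpm (hlp p' hp') r hr2 r hq) (lt_irrefl _)
      refine Corr.keep (ih l2 hL' hll hl2 hmem2) ?_ ?_ ?_
      · have := hL.same p hpm q hq
        rwa [hqy] at this
      · rw [← hqy]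
        exact hself q
      · have := hL.col l p [] rfl q hq
        rwa [hqy] at this
    · refine Corr.del (ih l1 hL' hll hl1 ?_) (hL.const p hpm hy)
      intro r
      rw [hmem r]
      constructor
      · rintro ⟨hr1, p', hp', hr2⟩
        refine ⟨hr1, p', ?_, hr2⟩
        rcases List.mem_append.1 hp' with h3 | h3
        · exact h3
        · have : p' = p := by simpa using h3
          subst this
          exact absurd ⟨r, hr2, hr1⟩ hy
      · rintro ⟨hr1, p', hp', hr2⟩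
        exact ⟨hr1, p', by simp [hp'], hr2⟩

/-- a prefix of a stack is a stack -/
theorem isStack_prefix {P : S → E3} {h : S → ℝ} {y0 : E3} {s0 : ℝ} {l' l'' : List S} {p : S}
    (hl : IsStack P h y0 s0 (l' ++ p :: l'')) : IsStack P h (P p) (h p) l' := by
  obtain ⟨h1, h2⟩ := hl
  have hp : P p = y0 ∧ s0 < h p := (h2 p).1 (by simp)
  obtain ⟨a1, a2, a3⟩ := List.pairwise_append.1 h1
  obtain ⟨a4, a5⟩ := List.pairwise_cons.1 a2
  refine ⟨a1, fun q => ⟨fun hq => ⟨?_, a3 q hq p (by simp)⟩, ?_⟩⟩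
  · rw [hp.1]
    exact ((h2 q).1 (by simp [hq])).1
  · rintro ⟨hq1, hq2⟩
    have : q ∈ l' ++ p :: l'' := (h2 q).2 ⟨hq1.trans hp.1, hp.2.trans hq2⟩
    rcases List.mem_append.1 this with h3 | h3
    · exact h3
    · rcases List.mem_cons.1 h3 with h4 | h4
      · subst h4
        exact absurd hq2 (lt_irrefl _)
      · exact absurd (a4 q h4) (lt_asymm hq2)

/-- **Main lemma.** -/
theorem main [TopologicalSpace S] {P : S → E3} {h : S → ℝ} {b : S → E3 → Prop} {c : S → G}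
    (hh : Continuous h) (hS : Sides P b) {y0 : E3} {s0 : ℝ} {l : List S}
    (hl : IsStack P h y0 s0 l)
    (hcol : ∀ p ∈ l, ∀ l', IsStack P h (P p) (h p) l' →
      ∀ᶠ q in 𝓝 p, c q = wprod b c l' (P q) * c p * (wprod b c l' (P q))⁻¹) :
    ∃ U : Set S, (∀ p ∈ l, U ∈ 𝓝 p) ∧ ∀ᶠ z in 𝓝 (y0, s0), ∀ l1, IsStack P h z.1 z.2 l1 →
      (∀ r ∈ l1, r ∈ U) →
      ∀ᶠ y in 𝓝 z.1, wprod b c l y = wprod b c l1 y * wprod b c l z.1 := by
  classical
  -- the neighbourhoods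
  have hO : ∀ p ∈ l, ∃ O ∈ 𝓝 p, InjOn P O ∧ (∀ q ∈ O, ∀ᶠ z in 𝓝 (P q), (b p z ↔ b q z)) ∧
      (∀ l' l'', l = l' ++ p :: l'' → ∀ q ∈ O,
        c q = wprod b c l' (P q) * c p * (wprod b c l' (P q))⁻¹) ∧
      (∀ p' ∈ l, h p < h p' → ∀ q ∈ O, h q < (h p + h p') / 2) ∧
      (∀ p' ∈ l, h p' < h p → ∀ q ∈ O, (h p + h p') / 2 < h q) ∧
      (∀ q ∈ O, (s0 + h p) / 2 < h q) := by
    intro p hp
    have hps : P p = y0 ∧ s0 < h p := (hl.2 p).1 hp
    obtain ⟨O1, hO1, hinj⟩ := hS.inj p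
    have h2 := hS.same p
    have h3 : ∀ᶠ q in 𝓝 p, ∀ l' l'', l = l' ++ p :: l'' →
        c q = wprod b c l' (P q) * c p * (wprod b c l' (P q))⁻¹ := by
      -- the prefix is unique
      obtain ⟨l', l'', hl'⟩ := List.append_of_mem hp
      have h4 := hcol p hp l' (isStack_prefix (by rw [← hl']; exact hl))
      filter_upwards [h4] with q hq m' m'' hm
      have hnd : l.Nodup := by
        refine hl.1.imp ?_
        rintro a b hab rfl
        exact lt_irrefl _ hab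
      have : m' = l' := by
        have h5 : l' ++ p :: l'' = m' ++ p :: m'' := hl'.symm.trans hm
        have hp1 : p ∉ l' := by
          intro hpl
          rw [hl'] at hnd
          have := List.nodup_append.1 hnd
          exact (this.2.2 p hpl p (by simp)) rfl
        have hp2 : p ∉ m' := by
          intro hpl
          rw [hm] at hnd
          have := List.nodup_append.1 hnd
          exact (this.2.2 p hpl p (by simp)) rfl
        have e1 : (l' ++ p :: l'').takeWhile (fun x => decide (x ≠ p)) = l' := by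
          rw [List.takeWhile_append_of_pos]
          · simp
          · intro x hx
            simp only [decide_eq_true_eq]
            rintro rfl
            exact hp1 hx
        have e2 : (m' ++ p :: m'').takeWhile (fun x => decide (x ≠ p)) = m' := by
          rw [List.takeWhile_append_of_pos]
          · simp
          · intro x hx
            simp only [decide_eq_true_eq]
            rintro rfl
            exact hp2 hx
        rw [← e1, ← e2, h5]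
      rw [this]
      exact hq
    have h4 : ∀ᶠ q in 𝓝 p, ∀ p' ∈ l, h p < h p' → h q < (h p + h p') / 2 := by
      have : ∀ p' ∈ l, ∀ᶠ q in 𝓝 p, h p < h p' → h q < (h p + h p') / 2 := by
        intro p' _
        by_cases hlt : h p < h p'
        · filter_upwards [hh.continuousAt.eventually_lt_const
            (show h p < (h p + h p') / 2 by linarith)] with q hq _ using hq
        · exact Filter.Eventually.of_forall fun q hq => absurd hq hlt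
      have h5 : ∀ᶠ q in 𝓝 p, ∀ p' ∈ l.toFinset, h p < h p' → h q < (h p + h p') / 2 :=
        (Filter.eventually_all_finset _).2 fun p' hp' => this p' (by simpa using hp')
      filter_upwards [h5] with q hq p' hp'
      exact hq p' (by simpa using hp')
    have h6 : ∀ᶠ q in 𝓝 p, ∀ p' ∈ l, h p' < h p → (h p + h p') / 2 < h q := by
      have : ∀ p' ∈ l, ∀ᶠ q in 𝓝 p, h p' < h p → (h p + h p') / 2 < h q := by
        intro p' _
        by_cases hlt : h p' < h p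
        · filter_upwards [hh.continuousAt.eventually_const_lt
            (show (h p + h p') / 2 < h p by linarith)] with q hq _ using hq
        · exact Filter.Eventually.of_forall fun q hq => absurd hq hlt
      have h5 : ∀ᶠ q in 𝓝 p, ∀ p' ∈ l.toFinset, h p' < h p → (h p + h p') / 2 < h q :=
        (Filter.eventually_all_finset _).2 fun p' hp' => this p' (by simpa using hp')
      filter_upwards [h5] with q hq p' hp'
      exact hq p' (by simpa using hp')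
    have h7 : ∀ᶠ q in 𝓝 p, (s0 + h p) / 2 < h q :=
      hh.continuousAt.eventually_const_lt (show (s0 + h p) / 2 < h p by linarith [hps.2])
    refine ⟨O1 ∩ {q | (∀ᶠ z in 𝓝 (P q), (b p z ↔ b q z)) ∧ (∀ l' l'', l = l' ++ p :: l'' →
        c q = wprod b c l' (P q) * c p * (wprod b c l' (P q))⁻¹) ∧
        (∀ p' ∈ l, h p < h p' → h q < (h p + h p') / 2) ∧
        (∀ p' ∈ l, h p' < h p → (h p + h p') / 2 < h q) ∧ (s0 + h p) / 2 < h q},
      Filter.inter_mem hO1 (by filter_upwards [h2, h3, h4, h6, h7] with q a1 a2 a3 a4 a5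
                               exact ⟨a1, a2, a3, a4, a5⟩), hinj.mono inter_subset_left,
      fun q hq => hq.2.1, fun l' l'' hll q hq => hq.2.2.1 l' l'' hll,
      fun p' hp' hlt q hq => hq.2.2.2.1 p' hp' hlt, fun p' hp' hlt q hq => hq.2.2.2.2.1 p' hp' hlt,
      fun q hq => hq.2.2.2.2.2⟩
  choose! O hOn hOinj hOsame hOcol hOup hOdown hOs using hO
  refine ⟨⋃ p ∈ l, O p, fun p hp => Filter.mem_of_superset (hOn p hp)
    (subset_biUnion_of_mem (u := fun p => O p) (show p ∈ {x | x ∈ l} from hp)), ?_⟩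
  -- the neighbourhood of `(y0, s0)`
  have hconst : ∀ᶠ y in 𝓝 y0, ∀ p ∈ l, y ∉ P '' O p → ∀ᶠ z in 𝓝 y, (b p z ↔ b p y) := by
    have h5 : ∀ᶠ y in 𝓝 y0, ∀ p ∈ l.toFinset, y ∉ P '' O p →
        ∀ᶠ z in 𝓝 y, (b p z ↔ b p y) := by
      refine (Filter.eventually_all_finset _).2 fun p hp => ?_
      have hp' : p ∈ l := by simpa using hp
      have := hS.const p (O p) (hOn p hp')
      rwa [((hl.2 p).1 hp').1] at this
    filter_upwards [h5] with y hy p hp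
    exact hy p (by simpa using hp)
  have hlow : ∀ᶠ s in 𝓝 s0, ∀ p ∈ l, s < (s0 + h p) / 2 := by
    have h5 : ∀ᶠ s in 𝓝 s0, ∀ p ∈ l.toFinset, s < (s0 + h p) / 2 := by
      refine (Filter.eventually_all_finset _).2 fun p hp => ?_
      have hp' : p ∈ l := by simpa using hp
      exact gt_mem_nhds (by linarith [((hl.2 p).1 hp').2])
    filter_upwards [h5] with y hy p hp
    exact hy p (by simpa using hp)
  have h8 : ∀ᶠ z in 𝓝 (y0, s0), (∀ p ∈ l, z.1 ∉ P '' O p →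
      ∀ᶠ y in 𝓝 z.1, (b p y ↔ b p z.1)) ∧ ∀ p ∈ l, z.2 < (s0 + h p) / 2 := by
    rw [nhds_prod_eq]
    exact hconst.prod_mk hlow
  filter_upwards [h8] with z hz l1 hl1 hU
  have hL : Loc P h b c z.1 l O :=
    { inj := hOinj
      same := hOsame
      col := fun l' p l'' hll => hOcol p (by rw [hll]; simp) l' l'' hll
      sep := by
        intro p hp p' hp' hlt q hq q' hq'
        have e1 := hOdown p hp p' hp' hlt q hq
        have e2 := hOup p' hp' p hp hlt q' hq'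
        linarith
      const := hz.1 }
  refine (hL.corr hS.self l l1 hl.1 hl1.1 ?_).main
  intro r
  constructor
  · intro hr
    have := hU r hr
    simp only [mem_iUnion, exists_prop] at this
    exact ⟨((hl1.2 r).1 hr).1, this⟩
  · rintro ⟨hr1, p, hp, hrp⟩
    exact (hl1.2 r).2 ⟨hr1, (hz.2 p hp).trans (hOs p hp r hrp)⟩

/-! ### Proper maps -/

/-- the sheets over points near `y0`, with height almost at least `s0`, lie in any open set
containing the sheets over `y0` of height at least `s0` -/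
theorem near_fibre [TopologicalSpace S] {P : S → E3} {h : S → ℝ} (hP : Continuous P)
    (hh : Continuous h) {y0 : E3} {s0 : ℝ} {K : Set S} (hK : IsCompact K)
    (hKy : ∀ᶠ y in 𝓝 y0, ∀ p, P p = y → p ∈ K) {V : Set S} (hV : IsOpen V)
    (hVy : ∀ p, P p = y0 → s0 ≤ h p → p ∈ V) :
    ∀ᶠ z in 𝓝 (y0, s0), ∀ p, P p = z.1 → z.2 ≤ h p → p ∈ V := by
  have hKV : IsCompact (K \ V) := hK.diff hV
  have h1 : ∀ᶠ z in 𝓝 (y0, s0), ∀ p ∈ K \ V, ¬ (P p = z.1 ∧ z.2 ≤ h p) := by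
    refine hKV.eventually_forall_of_forall_eventually
      (P := fun (z : E3 × ℝ) p => ¬ (P p = z.1 ∧ z.2 ≤ h p)) ?_
    intro p hp
    have hcl : IsClosed {w : (E3 × ℝ) × S | P w.2 = w.1.1 ∧ w.1.2 ≤ h w.2} :=
      (isClosed_eq (hP.comp continuous_snd) (continuous_fst.comp continuous_fst)).inter
        (isClosed_le (continuous_snd.comp continuous_fst) (hh.comp continuous_snd))
    exact hcl.isOpen_compl.mem_nhds fun hw => hp.2 (hVy p hw.1 hw.2)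
  have h2 : ∀ᶠ z in 𝓝 (y0, s0), ∀ p, P p = z.1 → p ∈ K := by
    rw [nhds_prod_eq]
    exact (Filter.tendsto_fst).eventually hKy
  filter_upwards [h1, h2] with z hz1 hz2 p hp1 hp2
  by_contra hpV
  exact hz1 p ⟨hz2 p hp1, hpV⟩ ⟨hp1, hp2⟩

/-- fibres are finite -/
theorem finite_fibre [TopologicalSpace S] {P : S → E3} (hP : Continuous P)
    (hinj : ∀ p, ∃ O ∈ 𝓝 p, InjOn P O) {y0 : E3} {K : Set S} (hK : IsCompact K)
    (hKy : ∀ p, P p = y0 → p ∈ K) : {p | P p = y0}.Finite := by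
  have hcl : IsClosed {p | P p = y0} := isClosed_eq hP continuous_const
  have hc : IsCompact {p | P p = y0} := by
    have := hK.inter_right hcl
    rwa [inter_eq_right.2 (show {p | P p = y0} ⊆ K from fun p hp => hKy p hp)] at this
  choose O hO hOinj using hinj
  obtain ⟨t, ht, hcov⟩ := hc.elim_nhds_subcover O fun p _ => hO p
  refine (t.finite_toSet.biUnion (s := (↑t : Set S)) (t := fun p => O p ∩ {p | P p = y0})
    ?_).subset ?_
  · intro p _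
    refine Set.Subsingleton.finite ?_
    intro a ha b hb
    exact hOinj p ha.1 hb.1 (ha.2.trans hb.2.symm)
  · intro p hp
    have := hcov hp
    simp only [mem_iUnion, exists_prop] at this
    obtain ⟨q, hq, hpq⟩ := this
    simp only [mem_iUnion, exists_prop]
    exact ⟨q, hq, hpq, hp⟩

/-- sorted lists of finite sets -/
theorem exists_sorted (h : S → ℝ) {A : Set S} (hA : A.Finite) (hinj : InjOn h A) :
    ∃ l : List S, l.Pairwise (fun p q => h q < h p) ∧ ∀ p, p ∈ l ↔ p ∈ A := by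
  classical
  set l0 := hA.toFinset.toList
  have hl0 : ∀ p, p ∈ l0 ↔ p ∈ A := by
    intro p
    simp [l0]
  have hnd : l0.Nodup := Finset.nodup_toList _
  let r : S → S → Prop := fun p q => h q ≤ h p
  have : Std.Total r := ⟨fun a b => le_total (h b) (h a)⟩
  have : IsTrans S r := ⟨fun a b c hab hbc => le_trans hbc hab⟩
  have hs : (l0.insertionSort r).Pairwise r := List.pairwise_insertionSort r l0
  have hperm : (l0.insertionSort r).Perm l0 := List.perm_insertionSort r l0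
  refine ⟨l0.insertionSort r, ?_, fun p => ?_⟩
  · have hnd' : (l0.insertionSort r).Pairwise (· ≠ ·) := hperm.nodup_iff.2 hnd
    have := hs.and hnd'
    refine this.imp_of_mem ?_
    intro a b ha hb hab
    refine lt_of_le_of_ne hab.1 fun he => hab.2 ?_
    exact (hinj ((hl0 b).1 (hperm.mem_iff.1 hb)) ((hl0 a).1 (hperm.mem_iff.1 ha)) he).symm
  · rw [hperm.mem_iff, hl0]

/-- stacks exist -/
theorem exists_stack [TopologicalSpace S] {P : S → E3} (h : S → ℝ) (hP : Continuous P)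
    (hinj : ∀ p, ∃ O ∈ 𝓝 p, InjOn P O) (hPh : Function.Injective fun p => (P p, h p)) (y0 : E3)
    (s0 : ℝ) {K : Set S} (hK : IsCompact K) (hKy : ∀ p, P p = y0 → p ∈ K) :
    ∃ l, IsStack P h y0 s0 l := by
  have hfin := finite_fibre hP hinj hK hKy
  obtain ⟨l, h1, h2⟩ := exists_sorted h (A := {p | P p = y0 ∧ s0 < h p})
    (hfin.subset fun p hp => hp.1) (by
      intro a ha b hb hab
      exact hPh (Prod.ext (ha.1.trans hb.1.symm) hab))
  exact ⟨l, h1, fun p => h2 p⟩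

end MainLem

end Pool.Agent.Work.MP_48319b_gt

end

section

/-!
# MP_48319b_gt : mollification (item M1)
-/

open Metric Set Topology MeasureTheory
open scoped Manifold ContDiff

namespace Pool.Agent.Work.MP_48319b_gt

namespace ItemM1

/-- the bump function -/
noncomputable def bump (ε : ℝ) (h : 0 < ε) : ContDiffBump (0 : E2) :=
  ⟨ε / 2, ε, half_pos h, half_lt_self h⟩

/-- the mollifier -/
noncomputable def rho (ε : ℝ) (h : 0 < ε) : E2 → ℝ := (bump ε h).normed volume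

variable {ε : ℝ} (h : 0 < ε)

lemma rho_nonneg (y : E2) : 0 ≤ rho ε h y := (bump ε h).nonneg_normed y

lemma rho_even (y : E2) : rho ε h (-y) = rho ε h y := (bump ε h).normed_neg y

lemma rho_int : ∫ y, rho ε h y = 1 := (bump ε h).integral_normed

lemma rho_integrable : Integrable (rho ε h) volume := (bump ε h).integrable_normed

lemma rho_cont : Continuous (rho ε h) := (bump ε h).continuous_normed

lemma rho_cs : HasCompactSupport (rho ε h) := (bump ε h).hasCompactSupport_normed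

lemma rho_zero {y : E2} (hy : y ∉ ball (0 : E2) ε) : rho ε h y = 0 := by
  have h1 := (bump ε h).support_normed_eq (μ := (volume : Measure E2))
  have h2 : y ∉ Function.support (rho ε h) := by
    show y ∉ Function.support ((bump ε h).normed volume)
    rw [h1]
    exact hy
  exact Function.notMem_support.1 h2

/-- the average -/
noncomputable def av {W : Type} [NormedAddCommGroup W] [NormedSpace ℝ W] (ε : ℝ) (h : 0 < ε)
    (u : E2 → W) : W := ∫ y, rho ε h y • u y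

section

variable {W : Type} [NormedAddCommGroup W] [NormedSpace ℝ W]

lemma av_integrable {u : E2 → W} (hu : Continuous u) :
    Integrable (fun y => rho ε h y • u y) volume :=
  ((rho_cont h).smul hu).integrable_of_hasCompactSupport (rho_cs h).smul_right

lemma av_const [CompleteSpace W] (c : W) : av ε h (fun _ => c) = c := by
  unfold av
  rw [integral_smul_const, rho_int, one_smul]

lemma av_add {u v : E2 → W} (hu : Continuous u) (hv : Continuous v) :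
    av ε h (fun y => u y + v y) = av ε h u + av ε h v := by
  unfold av
  rw [← integral_add (av_integrable h hu) (av_integrable h hv)]
  simp only [smul_add]

lemma av_sub {u v : E2 → W} (hu : Continuous u) (hv : Continuous v) :
    av ε h (fun y => u y - v y) = av ε h u - av ε h v := by
  unfold av
  rw [← integral_sub (av_integrable h hu) (av_integrable h hv)]
  simp only [smul_sub]

lemma av_congr {u v : E2 → W} (huv : ∀ y ∈ ball (0 : E2) ε, u y = v y) :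
    av ε h u = av ε h v := by
  unfold av
  refine integral_congr_ae (Filter.Eventually.of_forall fun y => ?_)
  show rho ε h y • u y = rho ε h y • v y
  by_cases hy : y ∈ ball (0 : E2) ε
  · rw [huv y hy]
  · rw [rho_zero h hy, zero_smul, zero_smul]

lemma av_clm {W' : Type} [NormedAddCommGroup W'] [NormedSpace ℝ W'] [CompleteSpace W]
    [CompleteSpace W'] (L : W →L[ℝ] W') {u : E2 → W} (hu : Continuous u) :
    av ε h (fun y => L (u y)) = L (av ε h u) := by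
  unfold av
  rw [← L.integral_comp_comm (av_integrable h hu)]
  simp only [map_smul]

lemma av_norm {u : E2 → W} {C : ℝ} (hu : Continuous u)
    (hC : ∀ y ∈ ball (0 : E2) ε, ‖u y‖ ≤ C) : ‖av ε h u‖ ≤ C := by
  unfold av
  calc ‖∫ y, rho ε h y • u y‖ ≤ ∫ y, ‖rho ε h y • u y‖ := norm_integral_le_integral_norm _
    _ ≤ ∫ y, rho ε h y * C := by
        refine integral_mono (av_integrable h hu).norm ((rho_integrable h).mul_const C) fun y => ?_
        show ‖rho ε h y • u y‖ ≤ rho ε h y * C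
        rw [norm_smul, Real.norm_of_nonneg (rho_nonneg h y)]
        by_cases hy : y ∈ ball (0 : E2) ε
        · exact mul_le_mul_of_nonneg_left (hC y hy) (rho_nonneg h y)
        · rw [rho_zero h hy, zero_mul, zero_mul]
    _ = C := by rw [integral_mul_const, rho_int, one_mul]

end

lemma av_mono {u : E2 → ℝ} {c : ℝ} (hu : Continuous u)
    (hc : ∀ y ∈ ball (0 : E2) ε, c ≤ u y) : c ≤ av ε h u := by
  unfold av
  calc c = ∫ y, rho ε h y * c := by rw [integral_mul_const, rho_int, one_mul]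
    _ ≤ ∫ y, rho ε h y • u y := by
        refine integral_mono ((rho_integrable h).mul_const c) (av_integrable h hu) fun y => ?_
        show rho ε h y * c ≤ rho ε h y • u y
        rw [smul_eq_mul]
        by_cases hy : y ∈ ball (0 : E2) ε
        · exact mul_le_mul_of_nonneg_left (hc y hy) (rho_nonneg h y)
        · rw [rho_zero h hy, zero_mul, zero_mul]

lemma av_id : av ε h (fun y : E2 => y) = 0 := by
  have h1 : av ε h (fun y : E2 => y) = -av ε h (fun y : E2 => y) := by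
    unfold av
    conv_lhs => rw [← integral_neg_eq_self]
    rw [← integral_neg]
    refine integral_congr_ae (Filter.Eventually.of_forall fun y => ?_)
    show rho ε h (-y) • (-y) = -(rho ε h y • y)
    rw [rho_even, smul_neg]
  have h2 : (2 : ℝ) • av ε h (fun y : E2 => y) = 0 := by
    rw [two_smul]
    exact add_eq_zero_iff_eq_neg.2 h1
  exact (smul_eq_zero.1 h2).resolve_left two_ne_zero

section

variable {V : Type} [NormedAddCommGroup V] [NormedSpace ℝ V]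

/-- the mollification -/
noncomputable def mo (f : E2 → V) (ε : ℝ) (x : E2) : V :=
  if h : 0 < ε then av ε h (fun y => f (x - y)) else 0

lemma mo_eq (f : E2 → V) (x : E2) : mo f ε x = av ε h (fun y => f (x - y)) := dif_pos h

include h in
lemma mo_smooth {f : E2 → V} (hf : Continuous f) : ContDiff ℝ ∞ (mo f ε) := by
  have e : mo f ε = MeasureTheory.convolution (rho ε h) f (ContinuousLinearMap.lsmul ℝ ℝ)
      volume := by
    funext x
    rw [mo_eq h]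
    rfl
  rw [e]
  exact (rho_cs h).contDiff_convolution_left _ (bump ε h).contDiff_normed hf.locallyIntegrable

variable [CompleteSpace V]

include h in
lemma mo_close {f : E2 → V} {K : NNReal} (hK : LipschitzWith K f) (x : E2) :
    ‖mo f ε x - f x‖ ≤ K * ε := by
  have hc : Continuous fun y => f (x - y) := hK.continuous.comp (continuous_const.sub continuous_id)
  have e : mo f ε x - f x = av ε h (fun y => f (x - y) - f x) := by
    rw [av_sub h hc continuous_const, av_const, mo_eq h]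
  rw [e]
  refine av_norm h (hc.sub continuous_const) fun y hy => ?_
  rw [mem_ball_zero_iff] at hy
  calc ‖f (x - y) - f x‖ ≤ K * ‖x - y - x‖ := by
        simpa [dist_eq_norm] using hK.dist_le_mul (x - y) x
    _ ≤ K * ε := by
        refine mul_le_mul_of_nonneg_left ?_ K.2
        rw [sub_sub_cancel_left, norm_neg]
        exact hy.le

include h in
omit [CompleteSpace V] in
lemma mo_lip {f : E2 → V} {K : NNReal} (hK : LipschitzWith K f) : LipschitzWith K (mo f ε) := by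
  refine LipschitzWith.of_dist_le_mul fun x x' => ?_
  have hc : ∀ x : E2, Continuous fun y => f (x - y) := fun x =>
    hK.continuous.comp (continuous_const.sub continuous_id)
  rw [dist_eq_norm, dist_eq_norm, mo_eq h, mo_eq h, ← av_sub h (hc x) (hc x')]
  refine av_norm h ((hc x).sub (hc x')) fun y _ => ?_
  have := hK.dist_le_mul (x - y) (x' - y)
  rw [dist_eq_norm, dist_eq_norm, sub_sub_sub_cancel_right] at this
  exact this

include h in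
lemma mo_aff {f : E2 → V} {p : E2} {A : E2 →L[ℝ] V} {r : ℝ}
    (hA : AffAt f p A r) (hr : ε < r / 2) {p' : E2} (hp : p' ∈ ball p (r / 2)) :
    mo f ε p' = f p' := by
  have hr0 : r / 2 < r := by linarith
  have h1 : ∀ y ∈ ball (0 : E2) ε, f (p' - y) = f p' - A y := by
    intro y hy
    rw [mem_ball_zero_iff] at hy
    rw [mem_ball, dist_eq_norm] at hp
    rw [hA (p' - y), hA p']
    · rw [show p' - y - p = (p' - p) - y by abel, map_sub]
      abel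
    · rw [mem_ball, dist_eq_norm]
      linarith
    · rw [mem_ball, dist_eq_norm]
      calc ‖p' - y - p‖ = ‖(p' - p) - y‖ := by congr 1; abel
        _ ≤ ‖p' - p‖ + ‖y‖ := norm_sub_le _ _
        _ < r := by linarith
  have h2 : av ε h (fun y => A y) = 0 := by
    have h3 := av_clm h A (u := fun y : E2 => y) continuous_id
    rw [h3, av_id, map_zero]
  rw [mo_eq h, av_congr h h1, av_sub h continuous_const A.continuous, av_const, h2, sub_zero]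

end

end ItemM1

open ItemM1

/-- [48319b M1] -/
theorem mollThm : MollThm := by
  rintro f ⟨K, hK⟩
  have hc : ∀ x : E2, Continuous fun y => f (x - y) := fun x =>
    hK.continuous.comp (continuous_const.sub continuous_id)
  refine ⟨mo f, {
    smooth := fun ε h => mo_smooth h hK.continuous
    close := ⟨K, fun ε h x => mo_close h hK x⟩
    lip := ⟨K, fun ε h => mo_lip h hK⟩
    mono := ?_
    trans := ?_
    aff := fun p A r hA ε h hr p' hp => mo_aff h hA hr hp }⟩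
  · intro x Q m r hM ε h hr p hp q hq
    rw [mem_ball, dist_eq_norm] at hp hq
    have e : inner ℝ (p - q) (Q (mo f ε p - mo f ε q)) =
        av ε h (fun y => inner ℝ (p - q) (Q (f (p - y) - f (q - y)))) := by
      rw [mo_eq h, mo_eq h, ← av_sub h (hc p) (hc q)]
      exact (av_clm h ((innerSL ℝ (p - q)).comp Q) ((hc p).sub (hc q))).symm
    rw [e]
    refine av_mono h ?_ fun y hy => ?_
    · exact ((innerSL ℝ (p - q)).comp Q).continuous.comp ((hc p).sub (hc q))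
    · rw [mem_ball_zero_iff] at hy
      have h1 := hM (p - y) (by
        rw [mem_ball, dist_eq_norm]
        calc ‖p - y - x‖ = ‖(p - x) - y‖ := by congr 1; abel
          _ ≤ ‖p - x‖ + ‖y‖ := norm_sub_le _ _
          _ < r := by linarith) (q - y) (by
        rw [mem_ball, dist_eq_norm]
        calc ‖q - y - x‖ = ‖(q - x) - y‖ := by congr 1; abel
          _ ≤ ‖q - x‖ + ‖y‖ := norm_sub_le _ _
          _ < r := by linarith)
      rw [sub_sub_sub_cancel_right] at h1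
      exact h1
  · intro p τ w r hT ε h hr p' hp t ht
    rw [mem_ball, dist_eq_norm] at hp ht
    have h1 : ∀ y ∈ ball (0 : E2) ε, f (p' + t • τ - y) = f (p' - y) + t • w := by
      intro y hy
      rw [mem_ball_zero_iff] at hy
      rw [show p' + t • τ - y = (p' - y) + t • τ by abel]
      refine hT (p' - y) ?_ t ?_
      · rw [mem_ball, dist_eq_norm]
        calc ‖p' - y - p‖ = ‖(p' - p) - y‖ := by congr 1; abel
          _ ≤ ‖p' - p‖ + ‖y‖ := norm_sub_le _ _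
          _ < r := by linarith
      · rw [mem_ball, dist_eq_norm]
        calc ‖p' - y + t • τ - p‖ = ‖(p' + t • τ - p) - y‖ := by congr 1; abel
          _ ≤ ‖p' + t • τ - p‖ + ‖y‖ := norm_sub_le _ _
          _ < r := by linarith
    rw [mo_eq h, mo_eq h, av_congr h h1, av_add h (hc p') continuous_const, av_const]

/-- [48319b M1] -/
theorem mollHThm : MollHThm := by
  rintro g ⟨K, hK⟩
  exact ⟨mo g, {
    smooth := fun ε h => mo_smooth h hK.continuous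
    close := ⟨K, fun ε h x => mo_close h hK x⟩
    lip := ⟨K, fun ε h => mo_lip h hK⟩
    aff := fun p A r hA ε h hr p' hp => mo_aff h hA hr hp }⟩

end Pool.Agent.Work.MP_48319b_gt

end

section

/-!
# MP_48319b_gt, item P1 : piecewise affine maps
-/

open Metric Set Topology

namespace Pool.Agent.Work.MP_48319b_gt

namespace ItemP1

/-- A continuous function on `[0,1]` which is monotone on each of finitely many closed sets
covering `[0,1]`. -/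
theorem key {ι : Type} [Finite ι] (φ : ℝ → ℝ) (hφ : Continuous φ) (K : ι → Set ℝ)
    (hcov : ∀ t ∈ Icc (0 : ℝ) 1, ∃ i, t ∈ K i)
    (hmono : ∀ i, ∀ s ∈ Icc (0 : ℝ) 1, ∀ t ∈ Icc (0 : ℝ) 1, s ∈ K i → t ∈ K i → s ≤ t →
      φ s ≤ φ t) : φ 0 ≤ φ 1 := by
  by_contra hlt
  push Not at hlt
  have hex : ∀ c : Ioo (φ 1) (φ 0), ∃ t, IsGreatest {t | t ∈ Icc (0 : ℝ) 1 ∧ (c : ℝ) ≤ φ t} t := by
    intro c
    apply IsCompact.exists_isGreatest
    · have : {t | t ∈ Icc (0 : ℝ) 1 ∧ (c : ℝ) ≤ φ t} = Icc (0 : ℝ) 1 ∩ φ ⁻¹' (Ici (c : ℝ)) := by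
        ext t; simp
      rw [this]
      exact isCompact_Icc.inter_right (isClosed_Ici.preimage hφ)
    · exact ⟨0, ⟨⟨le_rfl, zero_le_one⟩, c.2.2.le⟩⟩
  choose T hT using hex
  have hTeq : ∀ c : Ioo (φ 1) (φ 0), φ (T c) = c := by
    intro c
    have h1 := (hT c).1
    have h2 := (hT c).2
    obtain ⟨t, ht, hte⟩ := intermediate_value_Icc' (α := ℝ) h1.1.2 hφ.continuousOn
      (show (c : ℝ) ∈ Icc (φ 1) (φ (T c)) from ⟨c.2.1.le, h1.2⟩)
    have h3 : t ≤ T c := h2 ⟨⟨h1.1.1.trans ht.1, ht.2⟩, hte.ge⟩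
    have h4 : t = T c := le_antisymm h3 ht.1
    rw [← h4]; exact hte
  have hi : ∀ c : Ioo (φ 1) (φ 0), ∃ i, T c ∈ K i := fun c => hcov _ (hT c).1.1
  choose idx hidx using hi
  have : Infinite (Ioo (φ 1) (φ 0)) := (Ioo_infinite hlt).to_subtype
  obtain ⟨c, c', hne, hcc⟩ := Finite.exists_ne_map_eq_of_infinite idx
  have main : ∀ c c' : Ioo (φ 1) (φ 0), idx c = idx c' → (c : ℝ) < c' → False := by
    intro c c' hcc hlt'
    have h1 : T c' ≤ T c := (hT c).2 ⟨(hT c').1.1, hlt'.le.trans (hT c').1.2⟩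
    have h2 := hmono (idx c) (T c') (hT c').1.1 (T c) (hT c).1.1 (hcc ▸ hidx c') (hidx c) h1
    rw [hTeq, hTeq] at h2
    exact absurd h2 (not_le.2 hlt')
  rcases lt_trichotomy (c : ℝ) c' with h | h | h
  · exact main c c' hcc h
  · exact hne (Subtype.ext h)
  · exact main c' c hcc.symm h

variable {ι : Type} {V : Type*} [NormedAddCommGroup V] [NormedSpace ℝ V]
  {C : ι → Set E2} {f : E2 → V} {A : ι → E2 →L[ℝ] V}

theorem cont [Finite ι] (h : PA C f A) : Continuous f := by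
  refine (locallyFinite_of_finite C).continuous (iUnion_eq_univ_iff.2 h.cover) h.closed ?_
  intro i
  have : LipschitzOnWith ‖A i‖₊ f (C i) := by
    refine LipschitzOnWith.of_dist_le_mul ?_
    intro p hp q hq
    rw [dist_eq_norm, dist_eq_norm, h.aff i p hp q hq]
    exact (A i).le_opNorm _
  exact this.continuousOn

/-- The basic estimate along a segment. -/
theorem seg [Finite ι] (h : PA C f A) (l : V →L[ℝ] ℝ) (q u : E2) (c : ℝ)
    (hc : ∀ i, ∀ s ∈ Icc (0 : ℝ) 1, q + s • u ∈ C i → c ≤ l (A i u)) :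
    c ≤ l (f (q + u) - f q) := by
  have hf := cont h
  have := key (fun t : ℝ => l (f (q + t • u)) - t * c)
    (by
      have : Continuous fun t : ℝ => q + t • u := by fun_prop
      exact (l.continuous.comp (hf.comp this)).sub (continuous_id.mul continuous_const))
    (fun i => {t | q + t • u ∈ C i}) (fun t _ => h.cover _) (by
      intro i s hs t ht hsi hti hst
      have e := h.aff i _ hti _ hsi
      have e2 : (q + t • u) - (q + s • u) = (t - s) • u := by rw [sub_smul]; abel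
      rw [e2, map_smul] at e
      have e3 : l (f (q + t • u)) - l (f (q + s • u)) = (t - s) * l (A i u) := by
        rw [← map_sub, e, map_smul, smul_eq_mul]
      have e4 := hc i s hs hsi
      have e5 : (t - s) * c ≤ (t - s) * l (A i u) := mul_le_mul_of_nonneg_left e4 (by linarith)
      show l (f (q + s • u)) - s * c ≤ l (f (q + t • u)) - t * c
      nlinarith)
  simp only [zero_smul, add_zero, zero_mul, sub_zero, one_smul, one_mul] at this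
  rw [map_sub]
  linarith

/-- If all linear parts met by a segment agree on its direction, `f` is affine along it. -/
theorem seg_eq [Finite ι] (h : PA C f A) (q u : E2) (v : V)
    (hc : ∀ i, ∀ s ∈ Icc (0 : ℝ) 1, q + s • u ∈ C i → A i u = v) : f (q + u) - f q = v := by
  have hz : f (q + u) - f q - v = 0 := by
    obtain ⟨l, -, hl⟩ := exists_dual_vector'' ℝ (f (q + u) - f q - v)
    have h1 := seg h (-l) q u (-(l v)) (by
      intro i s hs hi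
      rw [hc i s hs hi]; simp)
    have h2 : l (f (q + u) - f q - v) ≤ 0 := by
      rw [map_sub]
      have : (-l) (f (q + u) - f q) = -(l (f (q + u) - f q)) := rfl
      rw [this] at h1
      linarith
    rw [hl] at h2
    have h3 : ‖f (q + u) - f q - v‖ ≤ 0 := by simpa using h2
    exact norm_le_zero_iff.1 h3
  exact sub_eq_zero.1 hz

/-- A neighbourhood of `x` meets only pieces containing `x`. -/
theorem local_pieces [Finite ι] (h : PA C f A) (x : E2) :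
    ∃ r > 0, ∀ y ∈ ball x r, ∀ i, y ∈ C i → x ∈ C i := by
  have : ∀ i, ∀ᶠ y in 𝓝 x, y ∈ C i → x ∈ C i := by
    intro i
    by_cases hx : x ∈ C i
    · exact Filter.Eventually.of_forall fun _ _ => hx
    · filter_upwards [(h.closed i).isOpen_compl.mem_nhds hx] with y hy hyi
      exact absurd hyi hy
  have h2 := Filter.eventually_all.2 this
  obtain ⟨r, hr, hb⟩ := Metric.eventually_nhds_iff_ball.1 h2
  exact ⟨r, hr, hb⟩

theorem seg_mem {x : E2} {r : ℝ} {q u : E2} (hq : q ∈ ball x r) (hp : q + u ∈ ball x r) {s : ℝ}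
    (hs : s ∈ Icc (0 : ℝ) 1) : q + s • u ∈ ball x r := by
  have := (convex_ball x r).add_smul_sub_mem hq hp hs
  simpa using this

end ItemP1

open ItemP1

/-- [48319b P1] -/
theorem pALip : PALip := by
  intro ι _ V _ _ _ C f A h
  have := Fintype.ofFinite ι
  refine ⟨∑ i, ‖A i‖₊, LipschitzWith.of_dist_le_mul ?_⟩
  intro p q
  rw [dist_eq_norm, dist_eq_norm]
  obtain ⟨l, hl1, hl2⟩ := exists_dual_vector'' ℝ (f p - f q)
  have hn : ∀ i, ‖A i‖ ≤ ((∑ i, ‖A i‖₊ : NNReal) : ℝ) := by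
    intro i
    have : ‖A i‖₊ ≤ ∑ i, ‖A i‖₊ :=
      Finset.single_le_sum (f := fun i => ‖A i‖₊) (fun _ _ => zero_le) (Finset.mem_univ i)
    exact_mod_cast this
  have h1 := seg h (-l) q (p - q) (-(((∑ i, ‖A i‖₊ : NNReal) : ℝ) * ‖p - q‖)) (by
    intro i s _ _
    have h2 : l (A i (p - q)) ≤ ((∑ i, ‖A i‖₊ : NNReal) : ℝ) * ‖p - q‖ := by
      calc l (A i (p - q)) ≤ ‖l (A i (p - q))‖ := le_abs_self _
        _ ≤ ‖l‖ * ‖A i (p - q)‖ := l.le_opNorm _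
        _ ≤ 1 * ‖A i (p - q)‖ := by gcongr
        _ ≤ ‖A i‖ * ‖p - q‖ := by rw [one_mul]; exact (A i).le_opNorm _
        _ ≤ _ := by gcongr; exact hn i
    show -(((∑ i, ‖A i‖₊ : NNReal) : ℝ) * ‖p - q‖) ≤ -(l (A i (p - q)))
    linarith)
  rw [add_sub_cancel] at h1
  have h3 : (-l) (f p - f q) = -(l (f p - f q)) := rfl
  rw [h3, hl2] at h1
  have h4 : ((‖f p - f q‖ : ℝ)) ≤ ((∑ i, ‖A i‖₊ : NNReal) : ℝ) * ‖p - q‖ := by
    simpa using h1
  exact h4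

/-- [48319b P1] -/
theorem pAMono : PAMono := by
  intro ι _ C f A x Q h hpos
  obtain ⟨r, hr, hloc⟩ := local_pieces h x
  -- lower bounds for the quadratic forms
  have hm : ∀ i, ∃ m > 0, x ∈ C i → ∀ u : E2, m * ‖u‖ ^ 2 ≤ inner ℝ u (Q (A i u)) := by
    intro i
    by_cases hx : x ∈ C i
    · have hc : Continuous fun u : E2 => (inner ℝ u (Q (A i u)) : ℝ) :=
        continuous_id.inner (Q.continuous.comp (A i).continuous)
      have hne : (sphere (0 : E2) 1).Nonempty := NormedSpace.sphere_nonempty.2 zero_le_one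
      obtain ⟨u0, hu0, hmin⟩ := (isCompact_sphere (0 : E2) 1).exists_isMinOn hne hc.continuousOn
      have hu0' : ‖u0‖ = 1 := by simpa using hu0
      refine ⟨inner ℝ u0 (Q (A i u0)), hpos i hx u0 (by
        intro h0; rw [h0] at hu0'; simp at hu0'), fun _ u => ?_⟩
      by_cases hu : u = 0
      · subst hu; simp
      · have hun : ‖u‖ ≠ 0 := norm_ne_zero_iff.2 hu
        have h1 : ‖(‖u‖⁻¹ • u : E2)‖ = 1 := by
          rw [norm_smul, norm_inv, norm_norm, inv_mul_cancel₀ hun]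
        have h2 := isMinOn_iff.1 hmin (‖u‖⁻¹ • u) (by simpa using h1)
        have h3 : (inner ℝ (‖u‖⁻¹ • u) (Q (A i (‖u‖⁻¹ • u))) : ℝ) =
            (‖u‖⁻¹) ^ 2 * inner ℝ u (Q (A i u)) := by
          rw [map_smul, map_smul, inner_smul_left, inner_smul_right]
          simp; ring
        rw [h3] at h2
        have h4 := mul_le_mul_of_nonneg_right h2 (sq_nonneg ‖u‖)
        have h5 : (‖u‖⁻¹) ^ 2 * inner ℝ u (Q (A i u)) * ‖u‖ ^ 2 = inner ℝ u (Q (A i u)) := by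
          field_simp
        rw [h5] at h4
        exact h4
    · exact ⟨1, one_pos, fun h => absurd h hx⟩
  choose m hm0 hm1 using hm
  obtain ⟨m0, hm00, hm01⟩ : ∃ m0 > 0, ∀ i, m0 ≤ m i := by
    have := Fintype.ofFinite ι
    rcases isEmpty_or_nonempty ι with he | hne
    · exact ⟨1, one_pos, fun i => he.elim i⟩
    · obtain ⟨i0, hi0⟩ := Finite.exists_min m
      exact ⟨m i0, hm0 i0, hi0⟩
  refine ⟨m0, r, hm00, hr, ?_⟩
  intro p hp q hq
  have hp' : q + (p - q) ∈ ball x r := by rwa [add_sub_cancel]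
  have h1 := seg h ((innerSL ℝ (p - q)).comp Q) q (p - q) (m0 * ‖p - q‖ ^ 2) (by
    intro i s hs hi
    have hx : x ∈ C i := hloc _ (seg_mem hq hp' hs) i hi
    calc m0 * ‖p - q‖ ^ 2 ≤ m i * ‖p - q‖ ^ 2 := by gcongr; exact hm01 i
      _ ≤ inner ℝ (p - q) (Q (A i (p - q))) := hm1 i hx _
      _ = ((innerSL ℝ (p - q)).comp Q) (A i (p - q)) := rfl)
  rw [add_sub_cancel] at h1
  have h2 : ((innerSL ℝ (p - q)).comp Q) (f p - f q) = inner ℝ (p - q) (Q (f p) - Q (f q)) := by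
    show inner ℝ (p - q) (Q (f p - f q)) = _
    rw [map_sub]
  rw [h2, ← map_sub] at h1
  exact h1

/-- [48319b P1] translation covariance -/
theorem pATrans {ι : Type} [Finite ι] {C : ι → Set E2} {f : E2 → E3} {A : ι → E2 →L[ℝ] E3}
    {x τ : E2} {w : E3} (h : PA C f A) (hA : ∀ i, x ∈ C i → A i τ = w) :
    ∃ r > 0, TransAt f x τ w r := by
  obtain ⟨r, hr, hloc⟩ := local_pieces h x
  refine ⟨r, hr, ?_⟩
  intro p' hp' t ht
  have h1 := seg_eq h p' (t • τ) (t • w) (by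
    intro i s hs hi
    have hx : x ∈ C i := hloc _ (seg_mem hp' ht hs) i hi
    rw [map_smul, hA i hx])
  rw [← h1]; abel

/-- [48319b P1] flatness -/
theorem pAAff {ι : Type} [Finite ι] {V : Type*} [NormedAddCommGroup V] [NormedSpace ℝ V]
    {C : ι → Set E2} {f : E2 → V} {A : ι → E2 →L[ℝ] V}
    {x : E2} {B : E2 →L[ℝ] V} (h : PA C f A) (hA : ∀ i, x ∈ C i → A i = B) :
    ∃ r > 0, AffAt f x B r := by
  obtain ⟨r, hr, hloc⟩ := local_pieces h x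
  refine ⟨r, hr, ?_⟩
  intro p' hp'
  have hx0 : x ∈ ball x r := mem_ball_self hr
  have hp2 : x + (p' - x) ∈ ball x r := by rwa [add_sub_cancel]
  have h1 := seg_eq h x (p' - x) (B (p' - x)) (by
    intro i s hs hi
    have hx : x ∈ C i := hloc _ (seg_mem hx0 hp2 hs) i hi
    rw [hA i hx])
  rw [add_sub_cancel] at h1
  rw [← h1]; abel

end Pool.Agent.Work.MP_48319b_gt

end

section

/-!
# MP_48319b_gt, item M5: propagation of signs along a compact connected piece of the double set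
-/

set_option autoImplicit false

open Metric Set Topology
open scoped Manifold ContDiff

namespace Pool.Agent.Work.MP_48319b_gt

namespace ItemM5

theorem ev_iff (P : ℝ → Prop) :
    (∃ ε0 > 0, ∀ ε, 0 < ε → ε < ε0 → P ε) ↔ ∀ᶠ ε in 𝓝[>] (0 : ℝ), P ε := by
  rw [Filter.Eventually, mem_nhdsGT_iff_exists_Ioo_subset]
  constructor
  · rintro ⟨ε0, h0, h⟩
    exact ⟨ε0, h0, fun ε hε => h ε hε.1 hε.2⟩
  · rintro ⟨ε0, h0, h⟩
    exact ⟨ε0, h0, fun ε h1 h2 => h ⟨h1, h2⟩⟩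

theorem sign_const (S : Set (E2 × E2)) (hS : IsPreconnected S) (h : E2 → ℝ) (hc : Continuous h)
    (hne : ∀ z ∈ S, h z.1 ≠ h z.2) :
    (∀ z ∈ S, h z.1 < h z.2) ∨ (∀ z ∈ S, h z.2 < h z.1) := by
  by_cases hex : ∃ a ∈ S, h a.1 < h a.2
  · obtain ⟨a, ha, hlt⟩ := hex
    refine Or.inl fun z hz => ?_
    by_contra hcon
    push Not at hcon
    obtain ⟨c, hcS, hc'⟩ := hS.intermediate_value₂ ha hz
      (hc.comp continuous_fst).continuousOn (hc.comp continuous_snd).continuousOn hlt.le hcon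
    exact hne c hcS hc'
  · push Not at hex
    exact Or.inr fun z hz => lt_of_le_of_ne (hex z hz) (hne z hz).symm

theorem swap_mem_DD {V : Type*} (f : E2 → V) (z : E2 × E2) : z.swap ∈ DD f ↔ z ∈ DD f :=
  ⟨fun h => ⟨h.1.symm, h.2.symm⟩, fun h => ⟨h.1.symm, h.2.symm⟩⟩

/-- The local statement at every point of the double set. -/
theorem local_all (h4 : LocalThm) (f : E2 → E3) (F : ℝ → E2 → E3) (hf : GenericPL f)
    (hF : Approx f F) (z : E2 × E2) (hz : z ∈ DD f) (W : Set (E2 × E2)) (hW : W ∈ 𝓝 z) :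
    ∃ N ⊆ W, IsOpen N ∧ z ∈ N ∧ ∀ᶠ ε in 𝓝[>] (0 : ℝ),
      IsPreconnected (DD (F ε) ∩ N) ∧ (DD (F ε) ∩ N).Nonempty := by
  rcases hf.double z.1 z.2 hz.1 hz.2 with h | h
  · obtain ⟨N, hNW, hN, hzN, hε⟩ := h4 f F hf hF z.1 z.2 hz h W hW
    rw [ev_iff] at hε
    exact ⟨N, hNW, hN, hzN, hε.mono fun ε hε => ⟨hε.1, hε.2.1⟩⟩
  · have hz' : (z.2, z.1) ∈ DD f := (swap_mem_DD f z).2 hz
    have hW' : Prod.swap ⁻¹' W ∈ 𝓝 (z.2, z.1) :=
      continuous_swap.continuousAt.preimage_mem_nhds (by simpa using hW)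
    obtain ⟨N, hNW, hN, hzN, hε⟩ := h4 f F hf hF z.2 z.1 hz' h _ hW'
    rw [ev_iff] at hε
    refine ⟨Prod.swap ⁻¹' N, ?_, hN.preimage continuous_swap, hzN, hε.mono fun ε hε => ?_⟩
    · intro y hy
      have := hNW hy
      simpa using this
    · have hs : DD (F ε) ∩ Prod.swap ⁻¹' N = Prod.swap '' (DD (F ε) ∩ N) := by
        ext y
        constructor
        · rintro ⟨h1, h2⟩
          exact ⟨y.swap, ⟨(swap_mem_DD _ y).2 h1, h2⟩, Prod.swap_swap y⟩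
        · rintro ⟨x, ⟨h1, h2⟩, rfl⟩
          exact ⟨(swap_mem_DD _ x).2 h1, by simpa using h2⟩
      rw [hs]
      exact ⟨hε.1.image _ continuous_swap.continuousOn, hε.2.1.image _⟩

end ItemM5

open ItemM5

theorem propagThm (h4 : LocalThm) : PropagThm := by
  intro f F hf hF C hC hconn hsub
  choose! N hN using fun z (hz : z ∈ C) =>
    local_all h4 f F hf hF z (hsub hz) univ Filter.univ_mem
  obtain ⟨t, htC, hcov⟩ := hC.elim_nhds_subcover N fun z hz =>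
    (hN z hz).2.1.mem_nhds (hN z hz).2.2.1
  refine ⟨⋃ z ∈ t, N z, isOpen_biUnion fun z hz => (hN z (htC z hz)).2.1, hcov, ?_⟩
  rw [ev_iff]
  have h1 : ∀ᶠ ε in 𝓝[>] (0 : ℝ), ∀ z ∈ t, IsPreconnected (DD (F ε) ∩ N z) := by
    rw [Filter.eventually_all_finset]
    intro z hz
    exact (hN z (htC z hz)).2.2.2.mono fun ε h => h.1
  have h2 : ∀ᶠ ε in 𝓝[>] (0 : ℝ), ∀ z ∈ t, ∀ z' ∈ t, (C ∩ (N z ∩ N z')).Nonempty →
      (DD (F ε) ∩ (N z ∩ N z')).Nonempty := by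
    rw [Filter.eventually_all_finset]
    intro z hz
    rw [Filter.eventually_all_finset]
    intro z' hz'
    by_cases hne : (C ∩ (N z ∩ N z')).Nonempty
    · obtain ⟨y, hyC, hy⟩ := hne
      obtain ⟨N', hN', _, _, hε⟩ := local_all h4 f F hf hF y (hsub hyC) (N z ∩ N z')
        (((hN z (htC z hz)).2.1.inter (hN z' (htC z' hz')).2.1).mem_nhds hy)
      refine hε.mono fun ε h _ => ?_
      obtain ⟨x, hx⟩ := h.2
      exact ⟨x, hx.1, hN' hx.2⟩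
    · exact Filter.Eventually.of_forall fun ε h => absurd h hne
  filter_upwards [h1, h2] with ε h1 h2 h hc hne
  have hsign : ∀ z ∈ t, (∀ y ∈ DD (F ε) ∩ N z, h y.1 < h y.2) ∨
      (∀ y ∈ DD (F ε) ∩ N z, h y.2 < h y.1) := fun z hz =>
    sign_const _ (h1 z hz) h hc fun y hy => hne y hy.1
  -- the pieces with the first sign and the pieces with the second sign
  set A : Set (E2 × E2) := ⋃ z ∈ {z ∈ (t : Set (E2 × E2)) |
    ∀ y ∈ DD (F ε) ∩ N z, h y.1 < h y.2}, N z with hA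
  set B : Set (E2 × E2) := ⋃ z ∈ {z ∈ (t : Set (E2 × E2)) |
    ∀ y ∈ DD (F ε) ∩ N z, h y.2 < h y.1}, N z with hB
  have hAo : IsOpen A := isOpen_biUnion fun z hz => (hN z (htC z hz.1)).2.1
  have hBo : IsOpen B := isOpen_biUnion fun z hz => (hN z (htC z hz.1)).2.1
  have hAB : C ⊆ A ∪ B := by
    intro y hy
    obtain ⟨z, hz, hyz⟩ := mem_iUnion₂.1 (hcov hy)
    rcases hsign z hz with h3 | h3
    · exact Or.inl (mem_iUnion₂.2 ⟨z, ⟨hz, h3⟩, hyz⟩)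
    · exact Or.inr (mem_iUnion₂.2 ⟨z, ⟨hz, h3⟩, hyz⟩)
  by_cases hCA : (C ∩ A).Nonempty
  · by_cases hCB : (C ∩ B).Nonempty
    · exfalso
      obtain ⟨y, hyC, hyA, hyB⟩ := hconn A B hAo hBo hAB hCA hCB
      obtain ⟨z, hz, hyz⟩ := mem_iUnion₂.1 hyA
      obtain ⟨z', hz', hyz'⟩ := mem_iUnion₂.1 hyB
      obtain ⟨x, hx, hxz, hxz'⟩ := h2 z hz.1 z' hz'.1 ⟨y, hyC, hyz, hyz'⟩
      exact lt_asymm (hz.2 x ⟨hx, hxz⟩) (hz'.2 x ⟨hx, hxz'⟩)
    · refine Or.inl ?_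
      rintro y ⟨hy, hyU⟩
      obtain ⟨z, hz, hyz⟩ := mem_iUnion₂.1 hyU
      rcases hsign z hz with h3 | h3
      · exact h3 y ⟨hy, hyz⟩
      · exact absurd ⟨z, htC z hz, mem_iUnion₂.2 ⟨z, ⟨hz, h3⟩, (hN z (htC z hz)).2.2.1⟩⟩ hCB
  · refine Or.inr ?_
    rintro y ⟨hy, hyU⟩
    obtain ⟨z, hz, hyz⟩ := mem_iUnion₂.1 hyU
    rcases hsign z hz with h3 | h3
    · exact absurd ⟨z, htC z hz, mem_iUnion₂.2 ⟨z, ⟨hz, h3⟩, (hN z (htC z hz)).2.2.1⟩⟩ hCA
    · exact h3 y ⟨hy, hyz⟩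

end Pool.Agent.Work.MP_48319b_gt

end

section

/-!
# MP_48319b_gt, item P3 : the side of a sector is determined by one ray
-/

open Metric Set Topology

namespace Pool.Agent.Work.MP_48319b_gt

theorem sectorThm : SectorThm := by
  intro f0 b0 T x u β hf hS hT hfu hne hinj hfr
  -- the neighbourhood of `u`
  have hd : 0 < dist u x := dist_pos.2 hne
  have hO : ball u (dist u x / 2) ∈ 𝓝 u := ball_mem_nhds _ (by linarith)
  have h1 := hS.const u _ hO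
  rw [hfu] at h1
  have h2 : ∀ᶠ q in 𝓝 x, (f0 q ∉ f0 '' ball u (dist u x / 2) →
      ∀ᶠ z in 𝓝 (f0 q), (b0 u z ↔ b0 u (f0 q))) := hf.continuousAt.eventually h1
  obtain ⟨δ, hδ, hball⟩ := Metric.eventually_nhds_iff_ball.1 h2
  set ρ := min δ (dist u x / 2) with hρ
  have hρ0 : 0 < ρ := lt_min hδ (by linarith)
  set A : Set E2 := interior T ∩ ball x ρ with hA
  have hAconv : Convex ℝ A := hT.interior.inter (convex_ball x ρ)
  have hApre : IsPreconnected A := hAconv.isPreconnected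
  have hloc : ∀ q ∈ A, ∀ᶠ q' in 𝓝 q, (b0 u (f0 q') ↔ b0 u (f0 q)) := by
    intro q hq
    have hq1 : q ∈ ball x δ := ball_subset_ball (min_le_left _ _) hq.2
    have hq2 : q ∈ ball x (dist u x / 2) := ball_subset_ball (min_le_right _ _) hq.2
    have h3 := hball q hq1 (by
      rintro ⟨p, hp, hpq⟩
      have := hinj q hq.1 p hpq
      subst this
      have a1 := mem_ball.1 hp
      have a2 := mem_ball.1 hq2
      have a3 := dist_triangle_left u x p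
      linarith)
    exact hf.continuousAt.eventually h3
  have hconst : ∀ q ∈ A, ∀ q' ∈ A, (b0 u (f0 q) ↔ b0 u (f0 q')) := by
    intro q hq q' hq'
    refine hApre.induction₂ (fun a b => (b0 u (f0 a) ↔ b0 u (f0 b))) ?_ ?_ ?_ hq hq'
    · intro a ha
      filter_upwards [nhdsWithin_le_nhds (hloc a ha)] with b hb using hb.symm
    · intro a b c _ _ _ h1 h2
      exact h1.trans h2
    · intro a b _ _ h
      exact h.symm
  have hmem : ∀ᶠ q in 𝓝[interior T] x, q ∈ A := by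
    filter_upwards [self_mem_nhdsWithin, nhdsWithin_le_nhds (ball_mem_nhds x hρ0)] with q h1 h2
    exact ⟨h1, h2⟩
  obtain ⟨q0, hq0, hq0A⟩ := (hfr.and_eventually hmem).exists
  filter_upwards [hmem] with q hq
  rw [← hq0]
  exact hconst q hq q0 hq0A

end Pool.Agent.Work.MP_48319b_gt

end

section

/-!
# [48319b P2] side functions of an oriented piecewise affine surface with monotone charts
-/

open Metric Set Topology Filter
open scoped NNReal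

namespace Pool.Agent.Work.MP_48319b_gt

namespace ItemP2

/-- A strongly monotone Lipschitz map is a homeomorphism onto its image, after scaling. -/
lemma monoHomeo {φ : E2 → E2} {x : E2} {m r L : ℝ} (hm : 0 < m) (hmL : m ≤ L)
    (hmono : ∀ p ∈ ball x r, ∀ q ∈ ball x r, m * ‖p - q‖ ^ 2 ≤ inner ℝ (p - q) (φ p - φ q))
    (hlip : ∀ p ∈ ball x r, ∀ q ∈ ball x r, ‖φ p - φ q‖ ≤ L * ‖p - q‖) :
    ∃ (τ : ℝ) (e : OpenPartialHomeomorph E2 E2), 0 < τ ∧ e.source = ball x r ∧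
      ∀ q, e q = τ • φ q := by
  have hL : 0 < L := hm.trans_le hmL
  obtain ⟨τ, hτ⟩ : ∃ τ : ℝ, τ = m / L ^ 2 := ⟨_, rfl⟩
  have hτ0 : 0 < τ := by rw [hτ]; positivity
  obtain ⟨c, hc⟩ : ∃ c : ℝ, c = Real.sqrt (1 - m ^ 2 / L ^ 2) := ⟨_, rfl⟩
  have hfrac : m ^ 2 / L ^ 2 ≤ 1 := by
    rw [div_le_one (by positivity)]
    exact pow_le_pow_left₀ hm.le hmL 2
  have hfrac0 : 0 < m ^ 2 / L ^ 2 := by positivity
  have hc0 : 0 ≤ c := by rw [hc]; exact Real.sqrt_nonneg _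
  have hc2 : c ^ 2 = 1 - m ^ 2 / L ^ 2 := by
    rw [hc, Real.sq_sqrt]
    linarith
  have hc1 : c < 1 := by
    by_contra hcon
    have : 1 ≤ c ^ 2 := one_le_pow₀ (not_lt.mp hcon)
    linarith
  have happ : ApproximatesLinearOn (fun q => τ • φ q)
      ((ContinuousLinearEquiv.refl ℝ E2 : E2 ≃L[ℝ] E2) : E2 →L[ℝ] E2) (ball x r)
      (Real.toNNReal c) := by
    intro p hp q hq
    show ‖τ • φ p - τ • φ q - (p - q)‖ ≤ (Real.toNNReal c : ℝ) * ‖p - q‖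
    rw [Real.coe_toNNReal _ hc0, ← smul_sub]
    have h1 := hmono p hp q hq
    have h2 := hlip p hp q hq
    have h3 : ‖τ • (φ p - φ q) - (p - q)‖ ^ 2 =
        τ ^ 2 * ‖φ p - φ q‖ ^ 2 - 2 * τ * inner ℝ (p - q) (φ p - φ q) + ‖p - q‖ ^ 2 := by
      rw [norm_sub_sq_real, norm_smul, inner_smul_left, Real.norm_eq_abs, abs_of_pos hτ0,
        real_inner_comm]
      simp only [conj_trivial]
      ring
    have h4 : ‖φ p - φ q‖ ^ 2 ≤ L ^ 2 * ‖p - q‖ ^ 2 := by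
      rw [← mul_pow]
      exact pow_le_pow_left₀ (norm_nonneg _) h2 2
    have h5 : ‖τ • (φ p - φ q) - (p - q)‖ ^ 2 ≤ (c * ‖p - q‖) ^ 2 := by
      rw [h3, mul_pow, hc2]
      have h6 : τ ^ 2 * ‖φ p - φ q‖ ^ 2 ≤ τ ^ 2 * (L ^ 2 * ‖p - q‖ ^ 2) :=
        mul_le_mul_of_nonneg_left h4 (by positivity)
      have h7 : 2 * τ * (m * ‖p - q‖ ^ 2) ≤ 2 * τ * inner ℝ (p - q) (φ p - φ q) :=
        mul_le_mul_of_nonneg_left h1 (by positivity)
      have h8 : τ ^ 2 * L ^ 2 = m ^ 2 / L ^ 2 := by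
        rw [hτ]
        field_simp
      have h9 : τ * m = m ^ 2 / L ^ 2 := by
        rw [hτ]
        field_simp
      have h10 : τ ^ 2 * (L ^ 2 * ‖p - q‖ ^ 2) = m ^ 2 / L ^ 2 * ‖p - q‖ ^ 2 := by
        rw [← h8]; ring
      have h11 : 2 * τ * (m * ‖p - q‖ ^ 2) = 2 * (m ^ 2 / L ^ 2) * ‖p - q‖ ^ 2 := by
        rw [← h9]; ring
      rw [h10] at h6
      rw [h11] at h7
      nlinarith
    exact le_of_sq_le_sq h5 (by positivity)
  have hN : Subsingleton E2 ∨ Real.toNNReal c <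
      ‖((ContinuousLinearEquiv.refl ℝ E2 : E2 ≃L[ℝ] E2).symm : E2 →L[ℝ] E2)‖₊⁻¹ := by
    right
    have : ‖((ContinuousLinearEquiv.refl ℝ E2 : E2 ≃L[ℝ] E2).symm : E2 →L[ℝ] E2)‖₊ = 1 := by
      have e : ((ContinuousLinearEquiv.refl ℝ E2 : E2 ≃L[ℝ] E2).symm : E2 →L[ℝ] E2) =
          ContinuousLinearMap.id ℝ E2 := rfl
      rw [e]
      exact ContinuousLinearMap.nnnorm_id
    rw [this, inv_one, ← NNReal.coe_lt_coe, Real.coe_toNNReal _ hc0]
    exact_mod_cast hc1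
  exact ⟨τ, happ.toOpenPartialHomeomorph _ _ hN isOpen_ball, hτ0, rfl, fun q => rfl⟩

/-- The linear map `(u, s) ↦ B u + s n` -/
noncomputable def Tn (B : E2 →L[ℝ] E3) (n : E3) : E2 × ℝ →ₗ[ℝ] E3 :=
  (B : E2 →ₗ[ℝ] E3).comp (LinearMap.fst ℝ E2 ℝ) +
    (LinearMap.toSpanSingleton ℝ E3 n).comp (LinearMap.snd ℝ E2 ℝ)

lemma Tn_apply (B : E2 →L[ℝ] E3) (n : E3) (z : E2 × ℝ) : Tn B n z = B z.1 + z.2 • n := rfl

lemma QB_inj {Q : E3 →L[ℝ] E2} {B : E2 →L[ℝ] E3}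
    (hQB : ∀ u : E2, u ≠ 0 → 0 < inner ℝ u (Q (B u))) {u : E2} (h : Q (B u) = 0) : u = 0 := by
  by_contra hu
  have := hQB u hu
  rw [h, inner_zero_right] at this
  exact lt_irrefl _ this

lemma Tn_surj {Q : E3 →L[ℝ] E2} {B : E2 →L[ℝ] E3} {n : E3}
    (hQB : ∀ u : E2, u ≠ 0 → 0 < inner ℝ u (Q (B u))) (hQn : Q n = 0) (hn : n ≠ 0) :
    Function.Surjective (Tn B n) := by
  have hinj : Function.Injective (Tn B n) := by
    rw [injective_iff_map_eq_zero]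
    rintro ⟨u, s⟩ h
    rw [Tn_apply] at h
    have h1 : Q (B u) = 0 := by
      have := congrArg Q h
      rwa [map_add, map_smul, hQn, smul_zero, add_zero, map_zero] at this
    have h2 := QB_inj hQB h1
    subst h2
    rw [map_zero, zero_add] at h
    rcases smul_eq_zero.mp h with h3 | h3
    · have h4 : s = 0 := h3
      rw [h4]
      rfl
    · exact absurd h3 hn
  have hfin : Module.finrank ℝ (E2 × ℝ) = Module.finrank ℝ E3 := by
    rw [Module.finrank_prod, finrank_euclideanSpace, finrank_euclideanSpace, Module.finrank_self]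
    simp
  exact (LinearMap.injective_iff_surjective_of_finrank_eq_finrank hfin).mp hinj

/-- Coordinates `y ↦ (τ Q y, ⟨n, y⟩)` -/
lemma coords {Q : E3 →L[ℝ] E2} {B : E2 →L[ℝ] E3} {n : E3} {τ : ℝ} (hτ : 0 < τ)
    (hQB : ∀ u : E2, u ≠ 0 → 0 < inner ℝ u (Q (B u))) (hQn : Q n = 0) (hn : n ≠ 0) :
    ∃ T : E3 ≃L[ℝ] (E2 × ℝ), ∀ y, T y = (τ • Q y, inner ℝ n y / ‖n‖ ^ 2) := by
  have hn2 : 0 < ‖n‖ ^ 2 := by positivity
  let T0 : E3 →ₗ[ℝ] E2 × ℝ :=
    { toFun := fun y => (τ • Q y, inner ℝ n y / ‖n‖ ^ 2)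
      map_add' := by
        intro y z
        ext1
        · show τ • Q (y + z) = τ • Q y + τ • Q z
          rw [map_add, smul_add]
        · show inner ℝ n (y + z) / ‖n‖ ^ 2 = inner ℝ n y / ‖n‖ ^ 2 + inner ℝ n z / ‖n‖ ^ 2
          rw [inner_add_right, add_div]
      map_smul' := by
        intro c y
        ext1
        · show τ • Q (c • y) = c • (τ • Q y)
          rw [map_smul, smul_comm]
        · show inner ℝ n (c • y) / ‖n‖ ^ 2 = c * (inner ℝ n y / ‖n‖ ^ 2)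
          rw [inner_smul_right, mul_div_assoc] }
  have hT0 : ∀ y, T0 y = (τ • Q y, inner ℝ n y / ‖n‖ ^ 2) := fun y => rfl
  have hinj : Function.Injective T0 := by
    rw [injective_iff_map_eq_zero]
    intro y hy
    rw [hT0] at hy
    have h1 : Q y = 0 := by
      have := congrArg Prod.fst hy
      exact (smul_eq_zero.mp this).resolve_left hτ.ne'
    have h2 : inner ℝ n y = 0 := by
      have := congrArg Prod.snd hy
      have h3 : inner ℝ n y / ‖n‖ ^ 2 = 0 := this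
      exact (div_eq_zero_iff.mp h3).resolve_right hn2.ne'
    obtain ⟨⟨u, s⟩, hus⟩ := Tn_surj hQB hQn hn y
    rw [Tn_apply] at hus
    have h3 : Q (B u) = 0 := by
      have := congrArg Q hus
      rwa [map_add, map_smul, hQn, smul_zero, add_zero, h1] at this
    have h4 := QB_inj hQB h3
    simp only [h4, map_zero, zero_add] at hus
    rw [← hus, inner_smul_right, real_inner_self_eq_norm_sq] at h2
    have h5 : s = 0 := (mul_eq_zero.mp h2).resolve_right hn2.ne'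
    rw [← hus, h5, zero_smul]
  have hfin : Module.finrank ℝ E3 = Module.finrank ℝ (E2 × ℝ) := by
    rw [Module.finrank_prod, finrank_euclideanSpace, finrank_euclideanSpace, Module.finrank_self]
    simp
  have hsurj := (LinearMap.injective_iff_surjective_of_finrank_eq_finrank hfin).mp hinj
  exact ⟨(LinearEquiv.ofBijective T0 ⟨hinj, hsurj⟩).toContinuousLinearEquiv, fun y => rfl⟩

/-- The shear `(q, t) ↦ (q, t + g q)` -/
noncomputable def shear (g : E2 → ℝ) (hg : Continuous g) : (E2 × ℝ) ≃ₜ (E2 × ℝ) where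
  toFun z := (z.1, z.2 + g z.1)
  invFun z := (z.1, z.2 - g z.1)
  left_inv z := by simp
  right_inv z := by simp
  continuous_toFun := by fun_prop
  continuous_invFun := by fun_prop

/-- The tubular chart. -/
lemma tube {f0 : E2 → E3} {x : E2} {Q : E3 →L[ℝ] E2} {B : E2 →L[ℝ] E3} {n : E3} {m r : ℝ}
    {K : ℝ≥0} (hK : LipschitzWith K f0) (hm : 0 < m) (hmono : MonoAt f0 x Q m r)
    (hQB : ∀ u : E2, u ≠ 0 → 0 < inner ℝ u (Q (B u))) (hQn : Q n = 0) (hn : n ≠ 0) :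
    ∃ H : OpenPartialHomeomorph (E2 × ℝ) E3, H.source = ball x r ×ˢ univ ∧
      ∀ z, H z = f0 z.1 + z.2 • n := by
  obtain ⟨τ, e, hτ, hes, he⟩ := monoHomeo (φ := fun q => Q (f0 q)) (x := x) (m := m) (r := r)
    (L := max m (‖Q‖ * K)) hm (le_max_left _ _)
    (fun p hp q hq => by
      have := hmono p hp q hq
      rwa [map_sub] at this)
    (fun p _ q _ => by
      rw [← map_sub]
      refine (Q.le_opNorm _).trans ?_
      have h1 := hK.dist_le_mul p q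
      rw [dist_eq_norm, dist_eq_norm] at h1
      calc ‖Q‖ * ‖f0 p - f0 q‖ ≤ ‖Q‖ * (K * ‖p - q‖) := by gcongr
        _ = (‖Q‖ * K) * ‖p - q‖ := by ring
        _ ≤ _ := mul_le_mul_of_nonneg_right (le_max_right _ _) (norm_nonneg _))
  obtain ⟨T, hT⟩ := coords hτ hQB hQn hn
  have hn2 : ‖n‖ ^ 2 ≠ 0 := by positivity
  let g : E2 → ℝ := fun q => inner ℝ n (f0 q) / ‖n‖ ^ 2
  have hg : Continuous g := by
    have := hK.continuous
    fun_prop
  refine ⟨(shear g hg).toOpenPartialHomeomorph.trans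
    ((e.prod (OpenPartialHomeomorph.refl ℝ)).trans
      T.symm.toHomeomorph.toOpenPartialHomeomorph), ?_, ?_⟩
  · ext ⟨q, t⟩
    simp [hes, shear]
  · rintro ⟨q, t⟩
    show T.symm (e q, t + g q) = f0 q + t • n
    rw [ContinuousLinearEquiv.symm_apply_eq, hT, he]
    ext1
    · show τ • Q (f0 q) = τ • Q (f0 q + t • n)
      rw [map_add, map_smul, hQn, smul_zero, add_zero]
    · show t + g q = inner ℝ n (f0 q + t • n) / ‖n‖ ^ 2
      rw [inner_add_right, inner_smul_right, real_inner_self_eq_norm_sq, add_div,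
        mul_div_assoc, div_self hn2, mul_one, add_comm]

lemma det3_comb (a b y : E3) (s t v : ℝ) :
    det3 a b (s • a + t • b + v • y) = v * det3 a b y := by
  simp only [det3, PiLp.add_apply, PiLp.smul_apply, smul_eq_mul]
  ring

lemma det3_zero (a b : E3) : det3 a b 0 = 0 := by
  simp [det3]

lemma B_eq (B : E2 →L[ℝ] E3) (u : E2) : B u = u 0 • B !₂[1, 0] + u 1 • B !₂[0, 1] := by
  rw [← map_smul, ← map_smul, ← map_add]
  congr 1
  ext i
  fin_cases i <;> simp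

/-- The normal direction of another tube in the frame of a piece. -/
lemma frame {Q : E3 →L[ℝ] E2} {B : E2 →L[ℝ] E3} {n n' : E3}
    (hQB : ∀ u : E2, u ≠ 0 → 0 < inner ℝ u (Q (B u))) (hQn : Q n = 0)
    (hn : 0 < det3 (B !₂[1, 0]) (B !₂[0, 1]) n) (hn' : 0 < det3 (B !₂[1, 0]) (B !₂[0, 1]) n') :
    ∃ (u : E2) (s : ℝ), 0 < s ∧ n' = B u + s • n := by
  have hn0 : n ≠ 0 := by
    rintro rfl
    rw [det3_zero] at hn
    exact lt_irrefl _ hn
  obtain ⟨⟨u, s⟩, hus⟩ := Tn_surj hQB hQn hn0 n'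
  rw [Tn_apply] at hus
  simp only at hus
  refine ⟨u, s, ?_, hus.symm⟩
  rw [← hus, B_eq B u, det3_comb] at hn'
  exact (mul_pos_iff_of_pos_right hn).mp hn'

/-- The sign of the height function of a tube on the two halves of another tube. -/
lemma sign_const {θ : E2 × ℝ → ℝ} {q : E2} {δ : ℝ} (hθ : ContinuousOn θ (ball (q, 0) δ))
    (h0 : ∀ v ∈ ball ((q, 0) : E2 × ℝ) δ, v.2 ≠ 0 → θ v ≠ 0)
    {v1 v2 : E2 × ℝ} (hv1 : v1 ∈ ball ((q, 0) : E2 × ℝ) δ) (hv1' : v1.2 < 0) (hθ1 : θ v1 < 0)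
    (hv2 : v2 ∈ ball ((q, 0) : E2 × ℝ) δ) (hv2' : 0 < v2.2) (hθ2 : 0 < θ v2)
    (v : E2 × ℝ) (hv : v ∈ ball ((q, 0) : E2 × ℝ) δ) (hvne : v.2 ≠ 0) :
    (θ v < 0 ↔ v.2 < 0) := by
  have hc1 : Convex ℝ (ball ((q, 0) : E2 × ℝ) δ ∩ {v | v.2 < 0}) :=
    (convex_ball _ _).inter (convex_halfSpace_lt (f := fun v : E2 × ℝ => v.2)
      ⟨fun _ _ => rfl, fun _ _ => rfl⟩ 0)
  have hc2 : Convex ℝ (ball ((q, 0) : E2 × ℝ) δ ∩ {v | 0 < v.2}) :=
    (convex_ball _ _).inter (convex_halfSpace_gt (f := fun v : E2 × ℝ => v.2)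
      ⟨fun _ _ => rfl, fun _ _ => rfl⟩ 0)
  rcases lt_or_gt_of_ne hvne with hneg | hpos
  · refine ⟨fun _ => hneg, fun _ => ?_⟩
    by_contra hcon
    have h3 := hc1.isPreconnected.intermediate_value ⟨hv1, hv1'⟩ ⟨hv, hneg⟩
      (hθ.mono inter_subset_left)
    obtain ⟨w, hw, hw0⟩ := h3 ⟨hθ1.le, not_lt.mp hcon⟩
    exact h0 w hw.1 (ne_of_lt hw.2) hw0
  · refine ⟨fun hcon => ?_, fun hcon => absurd hcon (not_lt.mpr (le_of_lt hpos))⟩
    exfalso
    have h3 := hc2.isPreconnected.intermediate_value ⟨hv, hpos⟩ ⟨hv2, hv2'⟩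
      (hθ.mono inter_subset_left)
    obtain ⟨w, hw, hw0⟩ := h3 ⟨le_of_lt hcon, hθ2.le⟩
    exact h0 w hw.1 (ne_of_gt hw.2) hw0

end ItemP2

open ItemP2 in
theorem sidesPL (h1 : PALip) (h2 : PAMono) : SidesPL := by
  intro ι _ C f0 A Q n hPA hint hQA hQn hdet
  obtain ⟨K, hK⟩ := h1 ι E3 C f0 A hPA
  have hcont : Continuous f0 := hK.continuous
  choose m r hm hr hmono using fun x => h2 ι C f0 A x (Q x) hPA (hQA x)
  choose idx hidx using hPA.cover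
  have hn : ∀ x, n x ≠ 0 := by
    intro x hx
    have := hdet x (idx x) (hidx x)
    rw [hx, det3_zero] at this
    exact lt_irrefl _ this
  choose H hHs hH using fun x => tube hK (hm x) (hmono x) (hQA x (idx x) (hidx x)) (hQn x) (hn x)
  have hsrc : ∀ x (z : E2 × ℝ), z ∈ (H x).source ↔ z.1 ∈ ball x (r x) := by
    intro x z
    rw [hHs]
    simp
  have hH0 : ∀ x q, H x (q, 0) = f0 q := by
    intro x q
    rw [hH]
    simp
  have hcen : ∀ x, ((x, 0) : E2 × ℝ) ∈ (H x).source := fun x =>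
    (hsrc x _).mpr (mem_ball_self (hr x))
  have hmap : ∀ x, ∀ z ∈ (H x).source, map (H x) (𝓝 z) = 𝓝 (H x z) := fun x z hz =>
    (H x).map_nhds_eq hz
  have hsymm : ∀ x, ∀ q ∈ ball x (r x), f0 q ∈ (H x).target ∧ (H x).symm (f0 q) = (q, 0) := by
    intro x q hq
    have hq' : ((q, 0) : E2 × ℝ) ∈ (H x).source := (hsrc x _).mpr hq
    rw [← hH0 x q]
    exact ⟨(H x).map_source hq', (H x).left_inv hq'⟩
  -- the side functions
  obtain ⟨b0, hb0⟩ : ∃ b0 : E2 → E3 → Prop, ∀ x y,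
      (b0 x y ↔ y ∈ (H x).target ∧ ((H x).symm y).2 < 0) := ⟨_, fun _ _ => Iff.rfl⟩
  have hb0H : ∀ x, ∀ z ∈ (H x).source, (b0 x (H x z) ↔ z.2 < 0) := by
    intro x z hz
    rw [hb0, (H x).left_inv hz]
    exact ⟨fun h => h.2, fun h => ⟨(H x).map_source hz, h⟩⟩
  refine ⟨b0, ⟨?_, ?_, ?_, ?_, ?_, ?_⟩, ?_, ?_⟩
  · -- self
    intro p h
    rw [← hH0 p p, hb0H p _ (hcen p)] at h
    exact lt_irrefl _ h
  · -- inj
    intro p
    refine ⟨ball p (r p), ball_mem_nhds p (hr p), fun a ha b hb hab => ?_⟩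
    have e1 := (hsymm p a ha).2
    have e2 := (hsymm p b hb).2
    rw [hab, e2] at e1
    exact (congrArg Prod.fst e1).symm
  · -- const
    intro p O hO
    have hp : f0 p ∈ (H p).target := (hsymm p p (mem_ball_self (hr p))).1
    have hps := (hsymm p p (mem_ball_self (hr p))).2
    have hcs : ContinuousAt (H p).symm (f0 p) := (H p).continuousAt_symm hp
    have ht : ∀ᶠ y in 𝓝 (f0 p), ((H p).symm y).1 ∈ O := by
      have : Tendsto (fun y => ((H p).symm y).1) (𝓝 (f0 p)) (𝓝 p) := by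
        have h3 := (continuous_fst.continuousAt).comp hcs
        have h4 : ((H p).symm (f0 p)).1 = p := by rw [hps]
        have h5 : Tendsto (fun y => ((H p).symm y).1) (𝓝 (f0 p)) (𝓝 ((H p).symm (f0 p)).1) := h3
        rwa [h4] at h5
      exact this hO
    filter_upwards [ht, (H p).open_target.mem_nhds hp] with y hy hyt hyO
    have hne : ((H p).symm y).2 ≠ 0 := by
      intro h0
      apply hyO
      refine ⟨((H p).symm y).1, hy, ?_⟩
      have h3 : ((H p).symm y) = (((H p).symm y).1, 0) := Prod.ext rfl h0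
      rw [← hH0 p, ← h3, (H p).right_inv hyt]
    have hcy : ContinuousAt (fun z => ((H p).symm z).2) y :=
      (continuous_snd.continuousAt).comp ((H p).continuousAt_symm hyt)
    rcases lt_or_gt_of_ne hne with hneg | hpos
    · filter_upwards [hcy.eventually_lt_const hneg, (H p).open_target.mem_nhds hyt] with z hz hzt
      rw [hb0, hb0]
      exact ⟨fun _ => ⟨hyt, hneg⟩, fun _ => ⟨hzt, hz⟩⟩
    · filter_upwards [hcy.eventually_const_lt hpos, (H p).open_target.mem_nhds hyt] with z hz hzt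
      rw [hb0, hb0]
      exact ⟨fun h => absurd h.2 (not_lt.mpr (le_of_lt hz)),
        fun h => absurd h.2 (not_lt.mpr (le_of_lt hpos))⟩
  · -- same
    intro p
    have hpieces : ∀ᶠ q in 𝓝 p, ∀ i, q ∈ C i → p ∈ C i := by
      rw [eventually_all]
      intro i
      by_cases hpi : p ∈ C i
      · exact Eventually.of_forall fun q _ => hpi
      · filter_upwards [(hPA.closed i).isOpen_compl.mem_nhds hpi] with q hq hqi
        exact absurd hqi hq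
    filter_upwards [hpieces, ball_mem_nhds p (hr p)] with q hqC hqp
    rw [← hH0 q q, ← hmap q _ (hcen q), eventually_map]
    -- a small ball
    have hfq := hsymm p q hqp
    have hcq : ContinuousAt (fun v => (H p).symm (H q v)) ((q, 0) : E2 × ℝ) := by
      have h3 : ContinuousAt (H q) ((q, 0) : E2 × ℝ) := (H q).continuousAt (hcen q)
      have h4 : ContinuousAt (H p).symm (H q (q, 0)) := by
        rw [hH0]
        exact (H p).continuousAt_symm hfq.1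
      exact ContinuousAt.comp (f := H q) (g := (H p).symm) (x := ((q, 0) : E2 × ℝ)) h4 h3
    have hW : ∀ᶠ v in 𝓝 ((q, 0) : E2 × ℝ), v ∈ (H q).source ∧ H q v ∈ (H p).target ∧
        ((H p).symm (H q v)).1 ∈ ball q (r q) ∧ v.1 ∈ ball p (r p) := by
      have w0 : ∀ᶠ v in 𝓝 ((q, 0) : E2 × ℝ), v ∈ (H q).source :=
        (H q).open_source.mem_nhds (hcen q)
      refine w0.and (Eventually.and ?_ (Eventually.and ?_ ?_))
      · have h3 : ContinuousAt (H q) ((q, 0) : E2 × ℝ) := (H q).continuousAt (hcen q)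
        apply h3
        rw [hH0]
        exact (H p).open_target.mem_nhds hfq.1
      · have h3 : ContinuousAt (fun v => ((H p).symm (H q v)).1) ((q, 0) : E2 × ℝ) :=
          (continuous_fst.continuousAt).comp hcq
        have h4 : ball q (r q) ∈ 𝓝 ((H p).symm (H q (q, 0))).1 := by
          rw [hH0, hfq.2]
          exact ball_mem_nhds q (hr q)
        exact h3 h4
      · have h3 : ContinuousAt (fun v : E2 × ℝ => v.1) ((q, 0) : E2 × ℝ) :=
          continuous_fst.continuousAt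
        exact h3 (isOpen_ball.mem_nhds hqp)
    obtain ⟨δ, hδ, hball⟩ := Metric.eventually_nhds_iff_ball.mp hW
    obtain ⟨θ, hθ⟩ : ∃ θ : E2 × ℝ → ℝ, ∀ v, θ v = ((H p).symm (H q v)).2 := ⟨_, fun _ => rfl⟩
    have hθc : ContinuousOn θ (ball (q, 0) δ) := by
      intro v hv
      obtain ⟨w1, w2, -, -⟩ := hball v hv
      have h3 : ContinuousAt (fun v => (H p).symm (H q v)) v :=
        ContinuousAt.comp (f := H q) (g := (H p).symm) (x := v) ((H p).continuousAt_symm w2)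
          ((H q).continuousAt w1)
      have h4 : ContinuousAt (fun v => ((H p).symm (H q v)).2) v :=
        (continuous_snd.continuousAt).comp h3
      have h5 : θ = fun v => ((H p).symm (H q v)).2 := funext hθ
      rw [h5]
      exact h4.continuousWithinAt
    have hθ0 : ∀ v ∈ ball ((q, 0) : E2 × ℝ) δ, v.2 ≠ 0 → θ v ≠ 0 := by
      intro v hv hv2 h0
      obtain ⟨w1, w2, w3, -⟩ := hball v hv
      apply hv2
      rw [hθ] at h0
      have h3 : (H p).symm (H q v) = (((H p).symm (H q v)).1, 0) := Prod.ext rfl h0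
      have h4 : H q v = f0 ((H p).symm (H q v)).1 := by
        rw [← hH0 p, ← h3, (H p).right_inv w2]
      have h5 : H q v = H q (((H p).symm (H q v)).1, 0) := by rw [hH0, ← h4]
      have h6 := (H q).injOn w1 ((hsrc q (((H p).symm (H q v)).1, 0)).mpr w3) h5
      rw [h6]
    -- a flat point
    obtain ⟨q', hq'i, hq'd⟩ := Metric.mem_closure_iff.mp (hint _ (hidx q)) δ hδ
    rw [dist_comm] at hq'd
    have hpi : p ∈ C (idx q) := hqC _ (hidx q)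
    obtain ⟨u, s, hs, hus⟩ := frame (hQA p (idx q) hpi) (hQn p) (hdet p (idx q) hpi)
      (hdet q (idx q) (hidx q))
    have hq'ball : ((q', 0) : E2 × ℝ) ∈ ball ((q, 0) : E2 × ℝ) δ := by
      rw [mem_ball, Prod.dist_eq, dist_self]
      exact max_lt hq'd hδ
    have hflat : ∀ᶠ t : ℝ in 𝓝 0, ((q', t) : E2 × ℝ) ∈ ball ((q, 0) : E2 × ℝ) δ ∧
        q' + t • u ∈ C (idx q) ∧ q' + t • u ∈ ball p (r p) := by
      refine Eventually.and ?_ (Eventually.and ?_ ?_)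
      · have h3 : ContinuousAt (fun t : ℝ => ((q', t) : E2 × ℝ)) 0 := by fun_prop
        exact h3 (isOpen_ball.mem_nhds hq'ball)
      · have h3 : ContinuousAt (fun t : ℝ => q' + t • u) 0 := by fun_prop
        have h4 : C (idx q) ∈ 𝓝 (q' + (0 : ℝ) • u) := by
          rw [zero_smul, add_zero]
          exact mem_interior_iff_mem_nhds.mp hq'i
        exact h3 h4
      · have h3 : ContinuousAt (fun t : ℝ => q' + t • u) 0 := by fun_prop
        have h4 : ball p (r p) ∈ 𝓝 (q' + (0 : ℝ) • u) := by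
          rw [zero_smul, add_zero]
          exact isOpen_ball.mem_nhds (hball _ hq'ball).2.2.2
        exact h3 h4
    obtain ⟨η, hη, hηb⟩ := Metric.eventually_nhds_iff_ball.mp hflat
    have hval : ∀ t ∈ ball (0 : ℝ) η, ((q', t) : E2 × ℝ) ∈ ball ((q, 0) : E2 × ℝ) δ ∧
        θ (q', t) = t * s := by
      intro t ht
      obtain ⟨g1, g2, g3⟩ := hηb t ht
      refine ⟨g1, ?_⟩
      have h3 : H q (q', t) = H p (q' + t • u, t * s) := by
        rw [hH, hH]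
        have h4 : f0 (q' + t • u) = f0 q' + t • A (idx q) u := by
          have := hPA.aff (idx q) _ g2 q' (interior_subset hq'i)
          rw [add_sub_cancel_left, map_smul] at this
          rw [← this]
          abel
        show f0 q' + t • n q = f0 (q' + t • u) + (t * s) • n p
        rw [h4, hus, smul_add, smul_smul]
        abel
      rw [hθ, h3, (H p).left_inv ((hsrc p (q' + t • u, t * s)).mpr g3)]
    have hη1 : (-(η / 2)) ∈ ball (0 : ℝ) η := by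
      rw [mem_ball_zero_iff, Real.norm_eq_abs, abs_neg, abs_of_pos (by positivity)]
      linarith
    have hη2 : (η / 2) ∈ ball (0 : ℝ) η := by
      rw [mem_ball_zero_iff, Real.norm_eq_abs, abs_of_pos (by positivity)]
      linarith
    obtain ⟨k1, k2⟩ := hval _ hη1
    obtain ⟨k3, k4⟩ := hval _ hη2
    have hsign := sign_const hθc hθ0 k1 (by show -(η / 2) < 0; linarith)
      (by rw [k2]; nlinarith) k3 (by show 0 < η / 2; linarith) (by rw [k4]; positivity)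
    filter_upwards [isOpen_ball.mem_nhds (mem_ball_self hδ : ((q, 0) : E2 × ℝ) ∈ _)] with v hv
    obtain ⟨w1, w2, w3, w4⟩ := hball v hv
    rw [hb0H q v w1, hb0, ← hθ]
    by_cases hv2 : v.2 = 0
    · have h3 : v = (v.1, 0) := Prod.ext rfl hv2
      have h4 : θ v = 0 := by
        rw [hθ, h3, hH0, (hsymm p _ w4).2]
      rw [h4, hv2]
      simp
    · rw [← hsign v hv hv2]
      exact ⟨fun h => h.2, fun h => ⟨w2, h⟩⟩
  · -- neg
    intro p
    refine ⟨ball p (r p), ball_mem_nhds p (hr p), ?_⟩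
    rw [← hH0 p p, ← hmap p _ (hcen p), frequently_map]
    have h3 : ∃ᶠ t : ℝ in 𝓝 0, t < 0 := by
      have : (𝓝[<] (0 : ℝ)).NeBot := inferInstance
      exact (frequently_lt_nhds (0 : ℝ))
    have h4 : Tendsto (fun t : ℝ => ((p, t) : E2 × ℝ)) (𝓝 0) (𝓝 (p, 0)) := by
      have : ContinuousAt (fun t : ℝ => ((p, t) : E2 × ℝ)) 0 := by fun_prop
      exact this
    refine h4.frequently (h3.mono fun t ht => ?_)
    have hs : ((p, t) : E2 × ℝ) ∈ (H p).source := (hsrc p _).mpr (mem_ball_self (hr p))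
    refine ⟨?_, (hb0H p _ hs).mpr ht⟩
    rintro ⟨q, hq, hqe⟩
    rw [← hH0 p] at hqe
    have := (H p).injOn ((hsrc p (q, 0)).mpr hq) hs hqe
    have h5 : (0 : ℝ) = t := congrArg Prod.snd this
    linarith
  · -- pos
    intro p
    refine ⟨ball p (r p), ball_mem_nhds p (hr p), ?_⟩
    rw [← hH0 p p, ← hmap p _ (hcen p), frequently_map]
    have h3 : ∃ᶠ t : ℝ in 𝓝 0, 0 < t := frequently_gt_nhds (0 : ℝ)
    have h4 : Tendsto (fun t : ℝ => ((p, t) : E2 × ℝ)) (𝓝 0) (𝓝 (p, 0)) := by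
      have : ContinuousAt (fun t : ℝ => ((p, t) : E2 × ℝ)) 0 := by fun_prop
      exact this
    refine h4.frequently (h3.mono fun t ht => ?_)
    have hs : ((p, t) : E2 × ℝ) ∈ (H p).source := (hsrc p _).mpr (mem_ball_self (hr p))
    refine ⟨?_, fun h => absurd ((hb0H p _ hs).mp h) (not_lt.mpr (le_of_lt ht))⟩
    rintro ⟨q, hq, hqe⟩
    rw [← hH0 p] at hqe
    have := (H p).injOn ((hsrc p (q, 0)).mpr hq) hs hqe
    have h5 : (0 : ℝ) = t := congrArg Prod.snd this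
    linarith
  · -- the side near `f0 x`
    intro x
    filter_upwards [(H x).open_source.mem_nhds (hcen x)] with z hz
    rw [← hH, hb0H x z hz]
  · intro x
    have : (fun z : E2 × ℝ => f0 z.1 + z.2 • n x) = H x := by
      funext z
      exact (hH x z).symm
    rw [this, hmap x _ (hcen x), hH0]

end Pool.Agent.Work.MP_48319b_gt

end

section

/-!
# MP_48319b_gt, item M7: the sign theorem
-/

open Metric Set Topology
open scoped Manifold ContDiff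

namespace Pool.Agent.Work.MP_48319b_gt

namespace ItemM7

/-- a compact set on which `g z.2 < g z.1` has a uniform gap -/
theorem gap (g : E2 → ℝ) (hg : Continuous g) (C : Set (E2 × E2)) (hC : IsCompact C)
    (h : ∀ z ∈ C, g z.2 < g z.1) : ∃ δ : ℝ, 0 < δ ∧ ∀ z ∈ C, g z.2 + δ < g z.1 := by
  rcases C.eq_empty_or_nonempty with he | hne
  · refine ⟨1, one_pos, fun z hz => ?_⟩
    rw [he] at hz
    exact absurd hz (notMem_empty z)
  · have hcont : ContinuousOn (fun z : E2 × E2 => g z.1 - g z.2) C :=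
      ((hg.comp continuous_fst).sub (hg.comp continuous_snd)).continuousOn
    obtain ⟨z0, hz0, hmin⟩ := hC.exists_isMinOn hne hcont
    have h0 : 0 < g z0.1 - g z0.2 := sub_pos.2 (h z0 hz0)
    refine ⟨(g z0.1 - g z0.2) / 2, half_pos h0, fun z hz => ?_⟩
    have h1 : g z0.1 - g z0.2 ≤ g z.1 - g z.2 := hmin hz
    linarith

/-- a flat point is fixed by the smoothing -/
theorem flat_eq {f : E2 → E3} {F : ℝ → E2 → E3} (hF : Approx f F) {p : E2} {A : E2 →L[ℝ] E3}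
    {ρ ε : ℝ} (h : AffAt f p A ρ) (hρ : 0 < ρ) (hε : 0 < ε) (hε' : ε < ρ / 2) :
    F ε p = f p :=
  hF.aff p A ρ h ε hε hε' p (mem_ball_self (half_pos hρ))

end ItemM7

open ItemM7 in
/-- [48319b M7] the sign theorem: all lifts have the same order pattern up to mirror image -/
theorem signThm (h3 : DDNear) (_h4 : LocalThm) (h5 : PropagThm) : SignThm := by
  intro f F g H C1 C2 hf hF hg hH hS
  obtain ⟨U1, hU1, hC1, ε1, hε1, hP1⟩ := h5 f F hf hF C1 hS.cpt1 hS.conn1 hS.sub1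
  obtain ⟨U2, hU2, hC2, ε2, hε2, hP2⟩ := h5 f F hf hF C2 hS.cpt2 hS.conn2 hS.sub2
  obtain ⟨δ, hδ, hgap⟩ := gap g hg (C1 ∪ C2) (hS.cpt1.union hS.cpt2)
    (fun z hz => hS.above z.1 z.2 hz)
  set W : Set (E2 × E2) := {z | g z.2 + δ < g z.1} with hW
  have hWo : IsOpen W :=
    isOpen_lt ((hg.comp continuous_snd).add continuous_const) (hg.comp continuous_fst)
  set V : Set (E2 × E2) := (U1 ∩ W) ∪ (U2 ∩ W) with hV
  have hVo : IsOpen V := (hU1.inter hWo).union (hU2.inter hWo)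
  have hCV : C1 ∪ C2 ⊆ V := by
    rintro z (hz | hz)
    · exact Or.inl ⟨hC1 hz, hgap z (Or.inl hz)⟩
    · exact Or.inr ⟨hC2 hz, hgap z (Or.inr hz)⟩
  have hcov : DD f ⊆ V ∪ Prod.swap ⁻¹' V := by
    rintro ⟨p, q⟩ hz
    rcases hS.cover p q hz with h | h
    · exact Or.inl (hCV h)
    · exact Or.inr (hCV h)
  obtain ⟨ε3, hε3, hD⟩ := h3 f F hf hF (V ∪ Prod.swap ⁻¹' V)
    (hVo.union (hVo.preimage continuous_swap)) hcov
  obtain ⟨K, hK⟩ := hH.close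
  obtain ⟨p, q, r, hpq, hqr, hpr⟩ := hS.tie
  have dpq := hS.sub1 hpq
  have dqr := hS.sub1 hqr
  have dpr := hS.sub2 hpr
  obtain ⟨A, B, D, ρ, hρ, aA, aB, aD, -⟩ := hf.triple p q r dpq.1 dqr.1 dpr.1 dpq.2 dqr.2
  have hK1 : (0 : ℝ) < |K| + 1 := by positivity
  refine ⟨min (min ε1 ε2) (min ε3 (min (ρ / 2) (δ / 2 / (|K| + 1)))), ?_, ?_⟩
  · refine lt_min (lt_min hε1 hε2) (lt_min hε3 (lt_min (half_pos hρ) ?_))
    exact div_pos (half_pos hδ) hK1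
  intro ε hε hlt
  have l1 : ε < ε1 := lt_of_lt_of_le hlt ((min_le_left _ _).trans (min_le_left _ _))
  have l2 : ε < ε2 := lt_of_lt_of_le hlt ((min_le_left _ _).trans (min_le_right _ _))
  have l3 : ε < ε3 := lt_of_lt_of_le hlt ((min_le_right _ _).trans (min_le_left _ _))
  have l4 : ε < ρ / 2 := lt_of_lt_of_le hlt
    ((min_le_right _ _).trans ((min_le_right _ _).trans (min_le_left _ _)))
  have l5 : ε < δ / 2 / (|K| + 1) := lt_of_lt_of_le hlt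
    ((min_le_right _ _).trans ((min_le_right _ _).trans (min_le_right _ _)))
  have hclose : ∀ x, |H ε x - g x| < δ / 2 := by
    intro x
    have h1 := hK ε hε x
    rw [Real.norm_eq_abs] at h1
    have h2 : K * ε ≤ (|K| + 1) * ε :=
      mul_le_mul_of_nonneg_right (by linarith [le_abs_self K]) hε.le
    have h3 : (|K| + 1) * ε < δ / 2 := by
      rw [lt_div_iff₀ hK1] at l5
      linarith
    linarith
  have hHV : ∀ z ∈ V, H ε z.2 < H ε z.1 := by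
    intro z hz
    have hz' : g z.2 + δ < g z.1 := by
      rcases hz with h | h
      · exact h.2
      · exact h.2
    have h1 := abs_lt.1 (hclose z.1)
    have h2 := abs_lt.1 (hclose z.2)
    linarith [h1.1, h2.2]
  have hDD := hD ε hε l3
  have hsymm : ∀ a b, (a, b) ∈ DD (F ε) → (b, a) ∈ DD (F ε) := fun a b h => ⟨h.1.symm, h.2.symm⟩
  have eA := flat_eq hF aA hρ hε l4
  have eB := flat_eq hF aB hρ hε l4
  have eD := flat_eq hF aD hρ hε l4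
  have tpq : (p, q) ∈ DD (F ε) := ⟨dpq.1, by
    show F ε p = F ε q
    rw [eA, eB]
    exact dpq.2⟩
  have tqr : (q, r) ∈ DD (F ε) := ⟨dqr.1, by
    show F ε q = F ε r
    rw [eB, eD]
    exact dqr.2⟩
  have tpr : (p, r) ∈ DD (F ε) := ⟨dpr.1, by
    show F ε p = F ε r
    rw [eA, eD]
    exact dpr.2⟩
  refine ⟨?_, ?_⟩
  · intro a b hab
    rcases hDD hab with h | h
    · exact (hHV _ h).ne'
    · exact (hHV _ h).ne
  · intro h hh hne
    have key : (∀ z ∈ DD (F ε) ∩ V, h z.1 < h z.2) ∨ (∀ z ∈ DD (F ε) ∩ V, h z.2 < h z.1) := by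
      rcases hP1 ε hε l1 h hh (fun z hz => hne z.1 z.2 hz) with a1 | a1
      · rcases hP2 ε hε l2 h hh (fun z hz => hne z.1 z.2 hz) with a2 | a2
        · left
          rintro z ⟨hz, hz' | hz'⟩
          · exact a1 z ⟨hz, hz'.1⟩
          · exact a2 z ⟨hz, hz'.1⟩
        · exfalso
          have b1 : h p < h q := a1 (p, q) ⟨tpq, hC1 hpq⟩
          have b2 : h q < h r := a1 (q, r) ⟨tqr, hC1 hqr⟩
          have b3 : h r < h p := a2 (p, r) ⟨tpr, hC2 hpr⟩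
          exact lt_irrefl _ (b1.trans (b2.trans b3))
      · rcases hP2 ε hε l2 h hh (fun z hz => hne z.1 z.2 hz) with a2 | a2
        · exfalso
          have b1 : h q < h p := a1 (p, q) ⟨tpq, hC1 hpq⟩
          have b2 : h r < h q := a1 (q, r) ⟨tqr, hC1 hqr⟩
          have b3 : h p < h r := a2 (p, r) ⟨tpr, hC2 hpr⟩
          exact lt_irrefl _ (b1.trans (b3.trans b2))
        · right
          rintro z ⟨hz, hz' | hz'⟩
          · exact a1 z ⟨hz, hz'.1⟩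
          · exact a2 z ⟨hz, hz'.1⟩
    rcases key with k | k
    · right
      intro a b hab
      rcases hDD hab with hv | hv
      · have h1 : h a < h b := k (a, b) ⟨hab, hv⟩
        have h2 : H ε b < H ε a := hHV (a, b) hv
        exact ⟨fun _ => h2, fun _ => h1⟩
      · have h1 : h b < h a := k (b, a) ⟨hsymm a b hab, hv⟩
        have h2 : H ε a < H ε b := hHV (b, a) hv
        exact ⟨fun h' => absurd h' h1.asymm, fun h' => absurd h' h2.asymm⟩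
    · left
      intro a b hab
      rcases hDD hab with hv | hv
      · have h1 : h b < h a := k (a, b) ⟨hab, hv⟩
        have h2 : H ε b < H ε a := hHV (a, b) hv
        exact ⟨fun h' => absurd h' h1.asymm, fun h' => absurd h' h2.asymm⟩
      · have h1 : h a < h b := k (b, a) ⟨hsymm a b hab, hv⟩
        have h2 : H ε a < H ε b := hHV (b, a) hv
        exact ⟨fun _ => h2, fun _ => h1⟩

end Pool.Agent.Work.MP_48319b_gt

end

section

/-!
# MP_48319b_gt, items S1 and S2: from long planes to spheres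
-/

open Metric Set Topology
open scoped Manifold ContDiff

namespace Pool.Agent.Work.MP_48319b_gt

namespace ItemS

lemma e3_ext {x y : E3} (h0 : x 0 = y 0) (h1 : x 1 = y 1) (h2 : x 2 = y 2) : x = y := by
  ext i
  fin_cases i
  · exact h0
  · exact h1
  · exact h2

lemma e2_ext {x y : E2} (h0 : x 0 = y 0) (h1 : x 1 = y 1) : x = y := by
  ext i
  fin_cases i
  · exact h0
  · exact h1

lemma norm_sq3 (x : E3) : ‖x‖ ^ 2 = x 0 ^ 2 + x 1 ^ 2 + x 2 ^ 2 := by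
  rw [EuclideanSpace.norm_sq_eq, Fin.sum_univ_three]
  simp only [Real.norm_eq_abs, sq_abs]

lemma norm_sq2 (x : E2) : ‖x‖ ^ 2 = x 0 ^ 2 + x 1 ^ 2 := by
  rw [EuclideanSpace.norm_sq_eq, Fin.sum_univ_two]
  simp only [Real.norm_eq_abs, sq_abs]

@[simp] lemma north_0 : north 0 = 0 := rfl
@[simp] lemma north_1 : north 1 = 0 := rfl
@[simp] lemma north_2 : north 2 = 1 := rfl
@[simp] lemma emb_0 (x : E2) : emb x 0 = x 0 := rfl
@[simp] lemma emb_1 (x : E2) : emb x 1 = x 1 := rfl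
@[simp] lemma emb_2 (x : E2) : emb x 2 = 0 := rfl

lemma inv_apply (y : E3) (i : Fin 3) :
    inv y i = north i + (2 / ‖y - north‖ ^ 2) * (y i - north i) := rfl

lemma inv_sub (y : E3) : inv y - north = (2 / ‖y - north‖ ^ 2) • (y - north) := by
  rw [inv, add_sub_cancel_left]

lemma nsq_pos {y : E3} (hy : y ≠ north) : 0 < ‖y - north‖ ^ 2 := by
  have : 0 < ‖y - north‖ := norm_pos_iff.mpr (sub_ne_zero.mpr hy)
  positivity

lemma inv_ne_north {y : E3} (hy : y ≠ north) : inv y ≠ north := by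
  rw [← sub_ne_zero, inv_sub]
  exact smul_ne_zero (div_ne_zero two_ne_zero (nsq_pos hy).ne') (sub_ne_zero.mpr hy)

lemma nsq_inv {y : E3} (hy : y ≠ north) : ‖inv y - north‖ ^ 2 = 4 / ‖y - north‖ ^ 2 := by
  have h := nsq_pos hy
  rw [inv_sub, norm_smul, mul_pow, Real.norm_of_nonneg (by positivity)]
  have key : ∀ t : ℝ, 0 < t → (2 / t) ^ 2 * t = 4 / t := by
    intro t ht
    field_simp
    norm_num
  exact key _ h

lemma inv_inv {y : E3} (hy : y ≠ north) : inv (inv y) = y := by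
  have h := nsq_pos hy
  rw [inv, nsq_inv hy, inv_sub, smul_smul]
  have h2 : 2 / (4 / ‖y - north‖ ^ 2) * (2 / ‖y - north‖ ^ 2) = 1 := by
    have key : ∀ t : ℝ, 0 < t → 2 / (4 / t) * (2 / t) = 1 := by
      intro t ht
      field_simp
      norm_num
    exact key _ h
  rw [h2, one_smul, add_sub_cancel]

lemma inv_inj {y z : E3} (hy : y ≠ north) (hz : z ≠ north) (h : inv y = inv z) : y = z := by
  rw [← inv_inv hy, h, inv_inv hz]

lemma contDiffAt_inv {y : E3} (hy : y ≠ north) : ContDiffAt ℝ ∞ inv y := by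
  unfold inv
  have h1 : ContDiffAt ℝ ∞ (fun y : E3 => y - north) y := contDiffAt_id.sub contDiffAt_const
  exact contDiffAt_const.add ((contDiffAt_const.div (h1.norm_sq ℝ) (nsq_pos hy).ne').smul h1)

/-- the stereographic projection, as a map on `ℝ³` -/
noncomputable def st' (y : E3) : E2 := !₂[y 0 / (1 - y 2), y 1 / (1 - y 2)]

@[simp] lemma st'_0 (y : E3) : st' y 0 = y 0 / (1 - y 2) := rfl
@[simp] lemma st'_1 (y : E3) : st' y 1 = y 1 / (1 - y 2) := rfl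

lemma st_eq (p : S2) : st p = st' p.1 := rfl

lemma contDiff_coord (i : Fin 3) : ContDiff ℝ ∞ (fun y : E3 => y i) :=
  contDiff_piLp_apply 2

lemma contDiffAt_st' {y : E3} (hy : y 2 ≠ 1) : ContDiffAt ℝ ∞ st' y := by
  have h2 : ContDiffAt ℝ ∞ (fun y : E3 => 1 - y 2) y :=
    contDiffAt_const.sub (contDiff_coord 2).contDiffAt
  have h3 : 1 - y 2 ≠ 0 := sub_ne_zero.mpr (Ne.symm hy)
  rw [contDiffAt_euclidean]
  intro i
  fin_cases i
  · exact (contDiff_coord 0).contDiffAt.div h2 h3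
  · exact (contDiff_coord 1).contDiffAt.div h2 h3

lemma sphere_eq (p : S2) : p.1 0 ^ 2 + p.1 1 ^ 2 + p.1 2 ^ 2 = 1 := by
  have h := p.2
  rw [mem_sphere_zero_iff_norm] at h
  rw [← norm_sq3, h, one_pow]

lemma coord_ne {p : S2} (hp : p.1 ≠ north) : p.1 2 ≠ 1 := by
  intro h
  apply hp
  have h1 := sphere_eq p
  rw [h] at h1
  have h2 : p.1 0 ^ 2 = 0 := by nlinarith [sq_nonneg (p.1 0), sq_nonneg (p.1 1)]
  have h3 : p.1 1 ^ 2 = 0 := by nlinarith [sq_nonneg (p.1 0), sq_nonneg (p.1 1)]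
  apply e3_ext
  · simpa using h2
  · simpa using h3
  · simpa using h

/-- inverse stereographic projection -/
noncomputable def sig (x : E2) : E3 := inv (emb x)

lemma emb_ne_north (x : E2) : emb x ≠ north := by
  intro h
  have := congrArg (fun y : E3 => y 2) h
  simp at this

lemma nsq_emb (x : E2) : ‖emb x - north‖ ^ 2 = x 0 ^ 2 + x 1 ^ 2 + 1 := by
  rw [norm_sq3]
  simp only [PiLp.sub_apply, emb_0, emb_1, emb_2, north_0, north_1, north_2]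
  ring

lemma sig_0 (x : E2) : sig x 0 = 2 * x 0 / (x 0 ^ 2 + x 1 ^ 2 + 1) := by
  rw [sig, inv_apply, nsq_emb, emb_0, north_0]
  ring

lemma sig_1 (x : E2) : sig x 1 = 2 * x 1 / (x 0 ^ 2 + x 1 ^ 2 + 1) := by
  rw [sig, inv_apply, nsq_emb, emb_1, north_1]
  ring

lemma sig_2 (x : E2) : sig x 2 = 1 - 2 / (x 0 ^ 2 + x 1 ^ 2 + 1) := by
  rw [sig, inv_apply, nsq_emb, emb_2, north_2]
  ring

lemma sig_norm (x : E2) : ‖sig x‖ ^ 2 = 1 := by
  have h : 0 < x 0 ^ 2 + x 1 ^ 2 + 1 := by positivity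
  rw [norm_sq3, sig_0, sig_1, sig_2]
  field_simp
  ring

lemma st'_sig (x : E2) : st' (sig x) = x := by
  have h : 0 < x 0 ^ 2 + x 1 ^ 2 + 1 := by positivity
  apply e2_ext
  · rw [st'_0, sig_0, sig_2]
    field_simp
    ring
  · rw [st'_1, sig_1, sig_2]
    field_simp
    ring

lemma st_nsq {p : S2} (hp : p.1 ≠ north) :
    st p 0 ^ 2 + st p 1 ^ 2 + 1 = 2 / (1 - p.1 2) := by
  have h1 : 1 - p.1 2 ≠ 0 := sub_ne_zero.mpr (Ne.symm (coord_ne hp))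
  have h2 := sphere_eq p
  rw [st_eq, st'_0, st'_1]
  field_simp
  nlinarith

lemma sig_st {p : S2} (hp : p.1 ≠ north) : sig (st p) = p.1 := by
  have h1 : 1 - p.1 2 ≠ 0 := sub_ne_zero.mpr (Ne.symm (coord_ne hp))
  have h0 : st p 0 = p.1 0 / (1 - p.1 2) := rfl
  have h0' : st p 1 = p.1 1 / (1 - p.1 2) := rfl
  apply e3_ext
  · rw [sig_0, st_nsq hp, h0]
    field_simp
  · rw [sig_1, st_nsq hp, h0']
    field_simp
  · rw [sig_2, st_nsq hp]
    field_simp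
    ring

lemma st_inj {p q : S2} (hp : p.1 ≠ north) (hq : q.1 ≠ north) (h : st p = st q) : p = q := by
  apply Subtype.ext
  rw [← sig_st hp, ← sig_st hq, h]

lemma contDiff_emb : ContDiff ℝ ∞ emb := by
  rw [contDiff_euclidean]
  intro i
  fin_cases i
  · exact contDiff_piLp_apply 2
  · exact contDiff_piLp_apply 2
  · exact contDiff_const

lemma contDiff_sig : ContDiff ℝ ∞ sig := by
  rw [contDiff_iff_contDiffAt]
  intro x
  exact (contDiffAt_inv (emb_ne_north x)).comp x contDiff_emb.contDiffAt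

lemma sig_ne (x : E2) : sig x 2 ≠ 1 := by
  have h : 0 < x 0 ^ 2 + x 1 ^ 2 + 1 := by positivity
  rw [sig_2]
  intro h1
  have h2 : 2 / (x 0 ^ 2 + x 1 ^ 2 + 1) = 0 := by linarith
  have h3 : 0 < 2 / (x 0 ^ 2 + x 1 ^ 2 + 1) := by positivity
  linarith

lemma inf_ne : (∞ : WithTop ℕ∞) ≠ 0 := by simp

lemma deriv_comp_id (x : E2) (v : E2) :
    fderiv ℝ st' (sig x) (fderiv ℝ sig x v) = v := by
  have h1 : HasFDerivAt sig (fderiv ℝ sig x) x :=
    ((contDiff_sig.contDiffAt).differentiableAt inf_ne).hasFDerivAt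
  have h2 : HasFDerivAt st' (fderiv ℝ st' (sig x)) (sig x) :=
    ((contDiffAt_st' (sig_ne x)).differentiableAt inf_ne).hasFDerivAt
  have h3 := h2.comp x h1
  have h4 : st' ∘ sig = id := by
    ext1 y
    exact st'_sig y
  rw [h4] at h3
  have h5 := h3.unique (hasFDerivAt_id x)
  have h6 := congrArg (fun T : E2 →L[ℝ] E2 => T v) h5
  exact h6

lemma deriv_orth (x : E2) (v : E2) : inner ℝ (sig x) (fderiv ℝ sig x v) = (0 : ℝ) := by
  have h1 : HasFDerivAt sig (fderiv ℝ sig x) x :=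
    ((contDiff_sig.contDiffAt).differentiableAt inf_ne).hasFDerivAt
  have h2 := h1.norm_sq
  have h3 : (fun x => ‖sig x‖ ^ 2) = fun _ => (1 : ℝ) := by
    ext1 y
    exact sig_norm y
  rw [h3] at h2
  have h4 := h2.unique (hasFDerivAt_const (1 : ℝ) x)
  have h5 := congrArg (fun T : E2 →L[ℝ] ℝ => T v) h4
  simp only [smul_apply, ContinuousLinearMap.comp_apply, innerSL_apply_apply,
    zero_apply] at h5
  simpa using h5

/-- the dimension of the ambient space -/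
theorem factE3 : Fact (Module.finrank ℝ E3 = 2 + 1) := ⟨finrank_euclideanSpace_fin⟩

attribute [local instance] factE3

/-- the derivative of the inclusion of the sphere -/
noncomputable def dinc (p : S2) : E2 →L[ℝ] E3 :=
  mfderiv (𝓡 2) 𝓘(ℝ, E3) (Subtype.val : S2 → E3) p

set_option linter.deprecated false in
lemma dinc_inj (p : S2) : Function.Injective (dinc p) := mfderiv_coe_sphere_injective p

set_option linter.deprecated false in
lemma mem_range_dinc (p : S2) (w : E3) (hw : inner ℝ p.1 w = (0 : ℝ)) : ∃ u, dinc p u = w := by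
  have h := range_mfderiv_coe_sphere (n := 2) p
  have h2 : w ∈ (Submodule.span ℝ {p.1})ᗮ := Submodule.mem_orthogonal_singleton_iff_inner_right.mpr hw
  rw [← h] at h2
  exact h2

lemma surj (p : S2) (hp : p.1 ≠ north) (v : E2) : ∃ u, fderiv ℝ st' p.1 (dinc p u) = v := by
  have h1 : sig (st p) = p.1 := sig_st hp
  obtain ⟨u, hu⟩ := mem_range_dinc p (fderiv ℝ sig (st p) v) (by
    have := deriv_orth (st p) v
    rwa [h1] at this)
  refine ⟨u, ?_⟩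
  have h2 := deriv_comp_id (st p) v
  rw [h1] at h2
  rw [hu, h2]

/-- the derivative of the stereographic projection -/
noncomputable def dst (p : S2) : E2 →L[ℝ] E2 := (fderiv ℝ st' p.1).comp (dinc p)

lemma dst_surj (p : S2) (hp : p.1 ≠ north) : Function.Surjective (dst p) := fun v => surj p hp v

lemma dst_inj (p : S2) (hp : p.1 ≠ north) : Function.Injective (dst p) := by
  have := (LinearMap.injective_iff_surjective (f := (dst p : E2 →ₗ[ℝ] E2))).mpr (dst_surj p hp)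
  exact this

lemma isOpen_ne_north : IsOpen {p : S2 | p.1 ≠ north} :=
  isOpen_compl_singleton.preimage continuous_subtype_val

/-- the derivative of a map which near `p` is a smooth map of the ambient space -/
lemma mfderiv_of_eventuallyEq {V : Type} [NormedAddCommGroup V] [NormedSpace ℝ V]
    {f : S2 → V} {G : E3 → V} {p : S2}
    (h : f =ᶠ[𝓝 p] fun q => G q.1) (hG : ContDiffAt ℝ ∞ G p.1) :
    mfderiv (𝓡 2) 𝓘(ℝ, V) f p = (fderiv ℝ G p.1).comp (dinc p) := by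
  rw [h.mfderiv_eq]
  have h1 : (fun q : S2 => G q.1) = G ∘ (Subtype.val : S2 → E3) := rfl
  rw [h1, mfderiv_comp p (hG.differentiableAt inf_ne).mdifferentiableAt
    ((contMDiff_coe_sphere (m := ∞) p).mdifferentiableAt inf_ne), mfderiv_eq_fderiv]
  rfl

lemma contMDiffAt_of_eventuallyEq {V : Type} [NormedAddCommGroup V] [NormedSpace ℝ V]
    {f : S2 → V} {G : E3 → V} {p : S2}
    (h : f =ᶠ[𝓝 p] fun q => G q.1) (hG : ContDiffAt ℝ ∞ G p.1) :
    ContMDiffAt (𝓡 2) 𝓘(ℝ, V) ∞ f p := by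
  have h1 : ContMDiffAt (𝓡 2) 𝓘(ℝ, V) ∞ (fun q : S2 => G q.1) p :=
    hG.contMDiffAt.comp p (contMDiff_coe_sphere (m := ∞) p)
  exact h1.congr_of_eventuallyEq h

variable {F : E2 → E3}

lemma F_ne_north (hF : LongGP F) (x : E2) : F x ≠ north := by
  rcases le_total (1 / 2) ‖x‖ with h | h
  · rw [hF.far x h]
    exact emb_ne_north x
  · intro h1
    have h2 := hF.near x h
    rw [h1] at h2
    have h3 : ‖north‖ ^ 2 = 1 := by
      rw [norm_sq3]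
      simp
    nlinarith [norm_nonneg north]

lemma sph_north {p : S2} (hp : p.1 = north) : sph F p = north := if_pos hp

lemma sph_of_ne {p : S2} (hp : p.1 ≠ north) : sph F p = inv (F (st p)) := if_neg hp

lemma sph_ne_north (hF : LongGP F) {p : S2} (hp : p.1 ≠ north) : sph F p ≠ north := by
  rw [sph_of_ne hp]
  exact inv_ne_north (F_ne_north hF _)

/-- the local formula away from the north pole -/
noncomputable def GF (F : E2 → E3) (y : E3) : E3 := inv (F (st' y))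

lemma sph_eventuallyEq {p : S2} (hp : p.1 ≠ north) : sph F =ᶠ[𝓝 p] fun q => GF F q.1 := by
  filter_upwards [isOpen_ne_north.mem_nhds hp] with q hq
  exact sph_of_ne hq

lemma contDiffAt_GF (hF : LongGP F) {p : S2} (hp : p.1 ≠ north) :
    ContDiffAt ℝ ∞ (GF F) p.1 := by
  have h1 : ContDiffAt ℝ ∞ (fun y => F (st' y)) p.1 :=
    hF.smooth.contDiffAt.comp p.1 (contDiffAt_st' (coord_ne hp))
  exact (contDiffAt_inv (F_ne_north hF _)).comp p.1 h1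

lemma fderiv_GF (hF : LongGP F) {p : S2} (hp : p.1 ≠ north) :
    (fderiv ℝ (GF F) p.1).comp (dinc p) =
      (fderiv ℝ inv (F (st p))).comp ((fderiv ℝ F (st p)).comp (dst p)) := by
  have h1 : HasFDerivAt st' (fderiv ℝ st' p.1) p.1 :=
    ((contDiffAt_st' (coord_ne hp)).differentiableAt inf_ne).hasFDerivAt
  have h2 : HasFDerivAt F (fderiv ℝ F (st' p.1)) (st' p.1) :=
    (hF.smooth.contDiffAt.differentiableAt inf_ne).hasFDerivAt
  have h3 : HasFDerivAt inv (fderiv ℝ inv (F (st' p.1))) (F (st' p.1)) :=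
    ((contDiffAt_inv (F_ne_north hF _)).differentiableAt inf_ne).hasFDerivAt
  have h4 := h3.comp p.1 (h2.comp p.1 h1)
  have h5 : fderiv ℝ (GF F) p.1 = _ := h4.fderiv
  rw [h5]
  rfl

/-- near the north pole `sph F` is the inclusion -/
lemma sph_upper (hF : LongGP F) {p : S2} (hp : 0 < p.1 2) : sph F p = p.1 := by
  by_cases h : p.1 = north
  · rw [sph_north h, h]
  · rw [sph_of_ne h]
    have h1 := st_nsq h
    have h2 := coord_ne h
    have h3 : p.1 2 < 1 := by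
      have h4 := sphere_eq p
      rcases lt_or_gt_of_ne h2 with h5 | h5
      · exact h5
      · nlinarith [sq_nonneg (p.1 0), sq_nonneg (p.1 1)]
    have h4 : 2 ≤ 2 / (1 - p.1 2) := by
      rw [le_div_iff₀ (by linarith)]
      nlinarith
    have h5 : 1 / 2 ≤ ‖st p‖ := by
      have h6 := norm_sq2 (st p)
      nlinarith [norm_nonneg (st p)]
    rw [hF.far _ h5]
    exact sig_st h

lemma isOpen_upper : IsOpen {p : S2 | 0 < p.1 2} := by
  have h : Continuous fun p : S2 => p.1 2 :=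
    (contDiff_coord 2).continuous.comp continuous_subtype_val
  exact isOpen_lt continuous_const h

lemma sph_eventuallyEq_north (hF : LongGP F) {p : S2} (hp : p.1 = north) :
    sph F =ᶠ[𝓝 p] fun q => id q.1 := by
  have h1 : p ∈ {p : S2 | 0 < p.1 2} := by
    show 0 < p.1 2
    rw [hp]
    simp
  filter_upwards [isOpen_upper.mem_nhds h1] with q hq
  exact sph_upper hF hq

lemma sph_smooth (hF : LongGP F) : ContMDiff (𝓡 2) 𝓘(ℝ, E3) ∞ (sph F) := by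
  intro p
  by_cases hp : p.1 = north
  · exact contMDiffAt_of_eventuallyEq (sph_eventuallyEq_north hF hp) contDiffAt_id
  · exact contMDiffAt_of_eventuallyEq (sph_eventuallyEq hp) (contDiffAt_GF hF hp)

/-- the derivative of the inversion is injective -/
lemma dinv_inj {y : E3} (hy : y ≠ north) : Function.Injective (fderiv ℝ inv y) := by
  have h1 : HasFDerivAt inv (fderiv ℝ inv y) y :=
    ((contDiffAt_inv hy).differentiableAt inf_ne).hasFDerivAt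
  have h2 : HasFDerivAt inv (fderiv ℝ inv (inv y)) (inv y) :=
    ((contDiffAt_inv (inv_ne_north hy)).differentiableAt inf_ne).hasFDerivAt
  have h3 := h2.comp y h1
  have h4 : inv ∘ inv =ᶠ[𝓝 y] id := by
    filter_upwards [isOpen_compl_singleton.mem_nhds hy] with z hz
    exact inv_inv hz
  have h5 := (h3.congr_of_eventuallyEq h4.symm).unique (hasFDerivAt_id y)
  intro v w hvw
  have h6 : ∀ u, fderiv ℝ inv (inv y) (fderiv ℝ inv y u) = u := fun u =>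
    congrArg (fun T : E3 →L[ℝ] E3 => T u) h5
  rw [← h6 v, hvw, h6 w]

/-- the tangent plane of `sph F` -/
lemma tangentPlane_eq (hF : LongGP F) {p : S2} (hp : p.1 ≠ north) :
    tangentPlane (sph F) p = Submodule.map (fderiv ℝ inv (F (st p)) : E3 →ₗ[ℝ] E3)
      (LinearMap.range (fderiv ℝ F (st p) : E2 →ₗ[ℝ] E3)) := by
  have h1 := mfderiv_of_eventuallyEq (sph_eventuallyEq (F := F) hp) (contDiffAt_GF hF hp)
  rw [fderiv_GF hF hp] at h1
  apply le_antisymm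
  · rintro _ ⟨v, rfl⟩
    refine ⟨fderiv ℝ F (st p) (dst p v), ⟨dst p v, rfl⟩, ?_⟩
    exact (congrArg (fun T : E2 →L[ℝ] E3 => T v) h1).symm
  · rintro _ ⟨_, ⟨v, rfl⟩, rfl⟩
    obtain ⟨u, hu⟩ := dst_surj p hp v
    refine ⟨u, ?_⟩
    rw [← hu]
    exact congrArg (fun T : E2 →L[ℝ] E3 => T u) h1

lemma sph_immersion (hF : LongGP F) (p : S2) :
    Function.Injective (mfderiv (𝓡 2) 𝓘(ℝ, E3) (sph F) p) := by
  by_cases hp : p.1 = north
  · rw [mfderiv_of_eventuallyEq (sph_eventuallyEq_north hF hp) contDiffAt_id, fderiv_id]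
    exact dinc_inj p
  · rw [mfderiv_of_eventuallyEq (sph_eventuallyEq (F := F) hp) (contDiffAt_GF hF hp),
      fderiv_GF hF hp]
    exact (dinv_inj (F_ne_north hF _)).comp ((hF.immersion _).comp (dst_inj p hp))

/-- double points of `sph F` come from double points of `F` -/
lemma double_pt (hF : LongGP F) {p q : S2} (hpq : p ≠ q) (h : sph F p = sph F q) :
    p.1 ≠ north ∧ q.1 ≠ north ∧ st p ≠ st q ∧ F (st p) = F (st q) := by
  have hp : p.1 ≠ north := by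
    intro hp
    rw [sph_north hp] at h
    have hq : q.1 = north := by
      by_contra hq
      exact sph_ne_north hF hq h.symm
    exact hpq (Subtype.ext (hp.trans hq.symm))
  have hq : q.1 ≠ north := by
    intro hq
    rw [sph_north hq] at h
    exact sph_ne_north hF hp h
  rw [sph_of_ne hp, sph_of_ne hq] at h
  exact ⟨hp, hq, fun h1 => hpq (st_inj hp hq h1),
    inv_inj (F_ne_north hF _) (F_ne_north hF _) h⟩

end ItemS

open ItemS in
theorem sphThm : SphThm := by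
  intro F hF
  refine ⟨sph_smooth hF, sph_immersion hF, ?_, ?_, ?_⟩
  · intro p q hpq h
    obtain ⟨hp, hq, h1, h2⟩ := double_pt hF hpq h
    rw [tangentPlane_eq hF hp, tangentPlane_eq hF hq, h2, ← Submodule.map_sup,
      hF.double _ _ h1 h2, Submodule.map_top]
    have h3 := (LinearMap.injective_iff_surjective
      (f := (fderiv ℝ inv (F (st q)) : E3 →ₗ[ℝ] E3))).mp (dinv_inj (F_ne_north hF _))
    exact LinearMap.range_eq_top.mpr h3
  · intro p q r hpq hqr hpr h h'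
    obtain ⟨hp, hq, h1, h2⟩ := double_pt hF hpq h
    obtain ⟨-, hr, h3, h4⟩ := double_pt hF hqr h'
    obtain ⟨-, -, h5, -⟩ := double_pt hF hpr (h.trans h')
    have hinj : Function.Injective (fderiv ℝ inv (F (st r)) : E3 →ₗ[ℝ] E3) :=
      dinv_inj (F_ne_north hF _)
    rw [tangentPlane_eq hF hp, tangentPlane_eq hF hq, tangentPlane_eq hF hr, h2, h4,
      ← Submodule.map_inf _ hinj, ← Submodule.map_inf _ hinj,
      hF.triple _ _ _ h1 h3 h5 h2 h4, Submodule.map_bot]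
  · intro p q r s hpq hpr hps hqr hqs hrs h h' h''
    obtain ⟨hp, hq, h1, h2⟩ := double_pt hF hpq h
    obtain ⟨-, hr, h3, h4⟩ := double_pt hF hqr h'
    obtain ⟨-, hs, h5, h6⟩ := double_pt hF hrs h''
    obtain ⟨-, -, h7, -⟩ := double_pt hF hpr (h.trans h')
    obtain ⟨-, -, h8, -⟩ := double_pt hF hps ((h.trans h').trans h'')
    obtain ⟨-, -, h9, -⟩ := double_pt hF hqs (h'.trans h'')
    exact hF.quadruple _ _ _ _ h1 h7 h8 h3 h9 h5 h2 h4 h6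

open ItemS in
theorem sphKnot : SphKnot := by
  intro F H hF hH hH0 hdd
  -- the height function
  have hup : ∀ p : S2, 0 < p.1 2 → hsph H p = 0 := by
    intro p hp
    by_cases h : p.1 = north
    · exact if_pos h
    · have h1 := st_nsq h
      have h2 := coord_ne h
      have h3 : p.1 2 < 1 := by
        have h4 := sphere_eq p
        rcases lt_or_gt_of_ne h2 with h5 | h5
        · exact h5
        · nlinarith [sq_nonneg (p.1 0), sq_nonneg (p.1 1)]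
      have h4 : 2 ≤ 2 / (1 - p.1 2) := by
        rw [le_div_iff₀ (by linarith)]
        nlinarith
      have h5 : 1 / 2 ≤ ‖st p‖ := by
        have h6 := norm_sq2 (st p)
        nlinarith [norm_nonneg (st p)]
      have h6 : hsph H p = H (st p) := if_neg h
      rw [h6, hH0 _ h5]
  have hsm : ContMDiff (𝓡 2) 𝓘(ℝ, ℝ) ∞ (hsph H) := by
    intro p
    by_cases hp : p.1 = north
    · refine contMDiffAt_of_eventuallyEq (G := fun _ => (0 : ℝ)) ?_ contDiffAt_const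
      have h1 : p ∈ {p : S2 | 0 < p.1 2} := by
        show 0 < p.1 2
        rw [hp]
        simp
      filter_upwards [isOpen_upper.mem_nhds h1] with q hq
      exact hup q hq
    · refine contMDiffAt_of_eventuallyEq (G := fun y => H (st' y)) ?_ ?_
      · filter_upwards [isOpen_ne_north.mem_nhds hp] with q hq
        exact if_neg hq
      · exact hH.contDiffAt.comp p.1 (contDiffAt_st' (coord_ne hp))
  have hsm1 := sph_smooth hF
  -- smoothness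
  let pk : E3 × ℝ → E4 := fun z => !₂[z.1 0, z.1 1, z.1 2, z.2]
  have hpk : ContDiff ℝ ∞ pk := by
    rw [contDiff_euclidean]
    intro i
    fin_cases i
    · exact (contDiff_coord 0).comp contDiff_fst
    · exact (contDiff_coord 1).comp contDiff_fst
    · exact (contDiff_coord 2).comp contDiff_fst
    · exact contDiff_snd
  have hprod : ContMDiff (𝓡 2) 𝓘(ℝ, E3 × ℝ) ∞ (fun p => (sph F p, hsph H p)) :=
    hsm1.prodMk_space hsm
  have hk : ContMDiff (𝓡 2) 𝓘(ℝ, E4) ∞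
      (fun p : S2 => (!₂[sph F p 0, sph F p 1, sph F p 2, hsph H p] : E4)) :=
    hpk.contMDiff.comp hprod
  refine ⟨hk, ?_, ?_⟩
  · -- injectivity
    intro p q hpq
    by_contra hne
    have h0 := congrArg (fun y : E4 => y 0) hpq
    have h1 := congrArg (fun y : E4 => y 1) hpq
    have h2 := congrArg (fun y : E4 => y 2) hpq
    have h3 : hsph H p = hsph H q := congrArg (fun y : E4 => y 3) hpq
    have h4 : sph F p = sph F q := e3_ext h0 h1 h2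
    obtain ⟨hp, hq, h5, h6⟩ := double_pt hF hne h4
    apply hdd (st p) (st q) ⟨h5, h6⟩
    have h7 : hsph H p = H (st p) := if_neg hp
    have h8 : hsph H q = H (st q) := if_neg hq
    rw [← h7, ← h8, h3]
  · -- immersion
    intro p
    have hpr : ContDiff ℝ ∞ proj := by
      rw [contDiff_euclidean]
      intro i
      fin_cases i
      · exact contDiff_piLp_apply 2
      · exact contDiff_piLp_apply 2
      · exact contDiff_piLp_apply 2
    have h1 : proj ∘ (fun p : S2 => (!₂[sph F p 0, sph F p 1, sph F p 2, hsph H p] : E4)) =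
        sph F := by
      ext1 q
      exact e3_ext rfl rfl rfl
    have h2 := mfderiv_comp (I := 𝓡 2) (I' := 𝓘(ℝ, E4)) (I'' := 𝓘(ℝ, E3)) p
      (hpr.contDiffAt.differentiableAt inf_ne).mdifferentiableAt
      ((hk p).mdifferentiableAt inf_ne)
    rw [h1] at h2
    have h3 := sph_immersion hF p
    rw [h2] at h3
    exact Function.Injective.of_comp h3

end Pool.Agent.Work.MP_48319b_gt

end

section

/-!
# MP_48319b_gt : transport of sides and colours from the plane to the sphere (item S3)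
-/

open Metric Set Topology Filter
open scoped Manifold ContDiff

namespace Pool.Agent.Work.MP_48319b_gt

namespace ItemS3

open Pool.Agent.Work.MP_48319b_gt.Inv

lemma ev_inv {y : E3} (hy : y ≠ north) {p : E3 → Prop} (h : ∀ᶠ z in 𝓝 (inv y), p z) :
    ∀ᶠ z in 𝓝 y, p (inv z) := (continuousAt_inv hy).eventually h

lemma freq_inv {y : E3} (hy : y ≠ north) {p : E3 → Prop} (h : ∃ᶠ z in 𝓝 y, p z) :
    ∃ᶠ z in 𝓝 (inv y), p (inv z) := by
  intro h1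
  apply h
  have h2 := ev_inv hy h1
  filter_upwards [h2] with z hz
  rwa [inv_inv] at hz

lemma inv_two_neg {z : E3} (hz : z ≠ north) : (inv z) 2 < 0 ↔ ‖z‖ < 1 := by
  have h0 : 0 < ‖z - north‖ ^ 2 := by
    have := norm_pos_iff.2 (sub_ne_zero.2 hz)
    positivity
  have h1 : (inv z) 2 = 1 + 2 / ‖z - north‖ ^ 2 * (z 2 - 1) := by
    simp [inv]
  have h2 : ‖z - north‖ ^ 2 = ‖z‖ ^ 2 - 2 * z 2 + 1 := by
    rw [norm_sq3, norm_sq3]
    simp
    ring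
  have h3 : ‖z‖ < 1 ↔ ‖z‖ ^ 2 < 1 := by
    constructor
    · intro h
      nlinarith [norm_nonneg z]
    · intro h
      nlinarith [norm_nonneg z]
  have h4 : (inv z) 2 = (‖z‖ ^ 2 - 1) / ‖z - north‖ ^ 2 := by
    rw [h1, eq_div_iff h0.ne', add_mul]
    have : 2 / ‖z - north‖ ^ 2 * (z 2 - 1) * ‖z - north‖ ^ 2 = 2 * (z 2 - 1) := by
      rw [mul_right_comm, div_mul_cancel₀ _ h0.ne']
    rw [this, h2]
    ring
  rw [h4, h3, div_neg_iff]
  constructor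
  · rintro (h | h)
    · exact absurd h.2 (not_lt.2 h0.le)
    · linarith [h.1]
  · intro h
    exact Or.inr ⟨by linarith, h0⟩

section

variable {f0 : E2 → E3} (hfar : ∀ x, 2 / 5 ≤ ‖x‖ → f0 x = emb x)
  (hnear : ∀ x, ‖x‖ ≤ 2 / 5 → ‖f0 x‖ ≤ 2 / 5)

include hfar hnear in
lemma f0_ne_north (x : E2) : f0 x ≠ north := by
  rcases le_total (2 / 5) ‖x‖ with h | h
  · rw [hfar x h]
    exact emb_ne_north x
  · intro he
    have := hnear x h
    rw [he, norm_north] at this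
    norm_num at this

lemma sph_eq {p : S2} (hp : p.1 ≠ north) : sph f0 p = inv (f0 (st p)) := if_neg hp

lemma sph_north {p : S2} (hp : p.1 = north) : sph f0 p = north := if_pos hp

include hfar hnear in
lemma sph_ne_north {p : S2} (hp : p.1 ≠ north) : sph f0 p ≠ north := by
  rw [sph_eq hp]
  exact fun h => f0_ne_north hfar hnear _ (inv_eq_north_iff.1 h)

lemma inv_sph {p : S2} (hp : p.1 ≠ north) : inv (sph f0 p) = f0 (st p) := by
  rw [sph_eq hp, inv_inv]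

include hfar in
lemma sph_near {p : S2} (h : p.1 ≠ north → 1 / 2 ≤ ‖st p‖) : sph f0 p = p.1 := by
  by_cases hp : p.1 = north
  · rw [sph_north hp, hp]
  · rw [sph_eq hp, hfar _ (by linarith [h hp]), inv_emb_st hp]

lemma sph_ist (x : E2) : sph f0 (ist x) = inv (f0 x) := by
  rw [sph_eq (ist_ne_north x), st_ist]

lemma nhds_ne {p : S2} (hp : p.1 ≠ north) : ∀ᶠ q in 𝓝 p, q.1 ≠ north :=
  continuous_subtype_val.continuousAt.eventually_ne hp

lemma nhds_north {p : S2} (hp : p.1 = north) : ∀ᶠ q in 𝓝 p, q.1 ≠ north → 1 / 2 ≤ ‖st q‖ := by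
  rw [eq_northS_iff.1 hp]
  exact eventually_le_norm_st _

/-- the side functions on the sphere -/
def bb (b0 : E2 → E3 → Prop) (p : S2) (y : E3) : Prop :=
  (p.1 = north ∧ ‖y‖ < 1) ∨ (p.1 ≠ north ∧ b0 (st p) (inv y))

lemma bb_ne {b0 : E2 → E3 → Prop} {p : S2} (hp : p.1 ≠ north) (y : E3) :
    bb b0 p y ↔ b0 (st p) (inv y) := by
  unfold bb
  tauto

lemma bb_north {b0 : E2 → E3 → Prop} {p : S2} (hp : p.1 = north) (y : E3) :
    bb b0 p y ↔ ‖y‖ < 1 := by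
  unfold bb
  tauto

lemma tendsto_north (σ : ℝ) : Tendsto (fun t : ℝ => (1 + σ * t) • north) (𝓝[>] 0) (𝓝 north) := by
  have h : ContinuousAt (fun t : ℝ => (1 + σ * t) • north) 0 := by fun_prop
  have h2 : Tendsto (fun t : ℝ => (1 + σ * t) • north) (𝓝 0) (𝓝 ((1 + σ * 0) • north)) := h
  rw [mul_zero, add_zero, one_smul] at h2
  exact h2.mono_left nhdsWithin_le_nhds

include hfar hnear in
/-- the sides -/
theorem sides {b0 : E2 → E3 → Prop} {cinf : Prop} (hb : Sides f0 b0)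
    (hc : ∀ x, 1 / 2 ≤ ‖x‖ → cinf ∧ ∀ᶠ y in 𝓝 (emb x), (b0 x y ↔ y 2 < 0)) :
    Sides (sph f0) (bb b0) := by
  constructor
  · intro p h
    by_cases hp : p.1 = north
    · rw [bb_north hp, sph_north hp, norm_north] at h
      exact lt_irrefl _ h
    · rw [bb_ne hp, inv_sph hp] at h
      exact hb.self _ h
  · intro p
    by_cases hp : p.1 = north
    · refine ⟨_, nhds_north hp, ?_⟩
      intro q hq q' hq' he
      rw [sph_near hfar hq, sph_near hfar hq'] at he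
      exact Subtype.ext he
    · obtain ⟨O, hO, hinj⟩ := hb.inj (st p)
      refine ⟨_, (nhds_ne hp).and ((continuousAt_st hp).eventually hO), ?_⟩
      rintro q ⟨hq, hqO⟩ q' ⟨hq', hqO'⟩ he
      rw [sph_eq hq, sph_eq hq'] at he
      have h1 := hinj hqO hqO' (inv_injective he)
      rw [← ist_st hq, ← ist_st hq', h1]
  · intro p O hO
    by_cases hp : p.1 = north
    · rw [sph_north hp]
      -- points of norm one near the north pole are in the image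
      have h1 : ∀ᶠ q in 𝓝 p, q ∈ O ∧ (q.1 ≠ north → 1 / 2 ≤ ‖st q‖) :=
        (show ∀ᶠ q in 𝓝 p, q ∈ O from hO).and (nhds_north hp)
      rw [nhds_subtype_eq_comap, eventually_comap, hp] at h1
      filter_upwards [h1] with y hy hyO
      have hy1 : ‖y‖ ≠ 1 := by
        intro h
        have h2 := hy ⟨y, mem_sphere_zero_iff_norm.2 h⟩ rfl
        exact hyO ⟨_, h2.1, sph_near hfar h2.2⟩
      rcases lt_or_gt_of_ne hy1 with h | h
      · filter_upwards [continuous_norm.continuousAt.eventually_lt_const h] with z hz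
        rw [bb_north hp, bb_north hp]
        exact iff_of_true hz h
      · filter_upwards [continuous_norm.continuousAt.eventually_const_lt h] with z hz
        rw [bb_north hp, bb_north hp]
        exact iff_of_false (not_lt.2 hz.le) (not_lt.2 h.le)
    · have hO' : ist ⁻¹' O ∈ 𝓝 (st p) := by
        apply continuous_ist.continuousAt
        rw [ist_st hp]
        exact hO
      have h1 := hb.const (st p) _ hO'
      rw [← inv_sph (f0 := f0) hp] at h1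
      have hne := sph_ne_north hfar hnear hp
      filter_upwards [ev_inv hne h1, isOpen_ne.mem_nhds hne] with y hy hyn hyO
      have h2 : inv y ∉ f0 '' (ist ⁻¹' O) := by
        rintro ⟨x, hx, he⟩
        refine hyO ⟨ist x, hx, ?_⟩
        rw [sph_ist, he, Inv.inv_inv]
      filter_upwards [ev_inv hyn (hy h2)] with z hz
      rw [bb_ne hp, bb_ne hp]
      exact hz
  · intro p
    by_cases hp : p.1 = north
    · filter_upwards [nhds_north hp] with q hq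
      by_cases hqn : q.1 = north
      · refine Eventually.of_forall fun z => ?_
        rw [bb_north hp, bb_north hqn]
      · have h1 := (hc _ (hq hqn)).2
        have h2 : sph f0 q = inv (emb (st q)) := by
          rw [sph_eq hqn, hfar _ (by linarith [hq hqn])]
        have h3 : inv (sph f0 q) = emb (st q) := by rw [h2, Inv.inv_inv]
        rw [← h3] at h1
        have hne := sph_ne_north hfar hnear hqn
        filter_upwards [ev_inv hne h1, isOpen_ne.mem_nhds hne] with z hz hzn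
        rw [bb_north hp, bb_ne hqn, hz, inv_two_neg hzn]
    · filter_upwards [nhds_ne hp, (continuousAt_st hp).eventually (hb.same (st p))] with q hq h1
      rw [← inv_sph (f0 := f0) hq] at h1
      filter_upwards [ev_inv (sph_ne_north hfar hnear hq) h1] with z hz
      rw [bb_ne hp, bb_ne hq]
      exact hz
  · intro p
    by_cases hp : p.1 = north
    · refine ⟨_, nhds_north hp, ?_⟩
      rw [sph_north hp]
      refine (tendsto_north (-1)).frequently (Eventually.frequently ?_)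
      have h1 : ∀ᶠ t : ℝ in 𝓝[>] 0, t < 1 :=
        nhdsWithin_le_nhds (Iio_mem_nhds one_pos)
      filter_upwards [h1, self_mem_nhdsWithin] with t ht ht'
      have ht0 : (0 : ℝ) < t := ht'
      have h2 : ‖(1 + -1 * t) • north‖ = 1 - t := by
        rw [norm_smul, norm_north, Real.norm_of_nonneg (by linarith)]
        ring
      refine ⟨?_, ?_⟩
      · rintro ⟨q, hq, he⟩
        rw [sph_near hfar hq] at he
        rw [← he, mem_sphere_zero_iff_norm.1 q.2] at h2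
        linarith
      · rw [bb_north hp, h2]
        linarith
    · obtain ⟨O, hO, hf⟩ := hb.neg (st p)
      refine ⟨_, (nhds_ne hp).and ((continuousAt_st hp).eventually hO), ?_⟩
      rw [sph_eq hp]
      refine (freq_inv (f0_ne_north hfar hnear _) hf).mono ?_
      rintro z ⟨hz1, hz2⟩
      refine ⟨?_, (bb_ne hp _).2 hz2⟩
      rintro ⟨q, ⟨hq, hqO⟩, he⟩
      apply hz1
      rw [← he, inv_sph hq]
      exact ⟨_, hqO, rfl⟩
  · intro p
    by_cases hp : p.1 = north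
    · refine ⟨_, nhds_north hp, ?_⟩
      rw [sph_north hp]
      refine (tendsto_north 1).frequently (Eventually.frequently ?_)
      filter_upwards [self_mem_nhdsWithin] with t ht'
      have ht0 : (0 : ℝ) < t := ht'
      have h2 : ‖(1 + 1 * t) • north‖ = 1 + t := by
        rw [norm_smul, norm_north, Real.norm_of_nonneg (by linarith)]
        ring
      refine ⟨?_, ?_⟩
      · rintro ⟨q, hq, he⟩
        rw [sph_near hfar hq] at he
        rw [← he, mem_sphere_zero_iff_norm.1 q.2] at h2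
        linarith
      · rw [bb_north hp, h2]
        linarith
    · obtain ⟨O, hO, hf⟩ := hb.pos (st p)
      refine ⟨_, (nhds_ne hp).and ((continuousAt_st hp).eventually hO), ?_⟩
      rw [sph_eq hp]
      refine (freq_inv (f0_ne_north hfar hnear _) hf).mono ?_
      rintro z ⟨hz1, hz2⟩
      refine ⟨?_, fun h => hz2 ((bb_ne hp _).1 h)⟩
      rintro ⟨q, ⟨hq, hqO⟩, he⟩
      apply hz1
      rw [← he, inv_sph hq]
      exact ⟨_, hqO, rfl⟩

open Classical in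
/-- the colours on the sphere -/
noncomputable def cc {G : Type} (c0 : E2 → G) (cinf : G) (p : S2) : G :=
  if p.1 = north then cinf else c0 (st p)

lemma cc_ne {G : Type} {c0 : E2 → G} {cinf : G} {p : S2} (hp : p.1 ≠ north) :
    cc c0 cinf p = c0 (st p) := if_neg hp

lemma cc_north {G : Type} {c0 : E2 → G} {cinf : G} {p : S2} (hp : p.1 = north) :
    cc c0 cinf p = cinf := if_pos hp

lemma hsph_ne {g : E2 → ℝ} {p : S2} (hp : p.1 ≠ north) : hsph g p = g (st p) := if_neg hp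

include hfar hnear in
/-- the colour rule -/
theorem colour {G : Type} [Group G] {g : E2 → ℝ} {b0 : E2 → E3 → Prop} {c0 : E2 → G} {cinf : G}
    (hr : ColourRule f0 g b0 c0) (hc : ∀ x, 1 / 2 ≤ ‖x‖ → c0 x = cinf) :
    ColourRule (sph f0) (hsph g) (bb b0) (cc c0 cinf) := by
  rintro q l ⟨hl1, hl2⟩
  by_cases hq : q.1 = north
  · have hl : l = [] := by
      rw [List.eq_nil_iff_forall_not_mem]
      intro p hp
      obtain ⟨h1, h2⟩ := (hl2 p).1 hp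
      rw [sph_north hq] at h1
      have hpn : p.1 = north := by
        by_contra hpn
        exact sph_ne_north hfar hnear hpn h1
      have : p = q := Subtype.ext (hpn.trans hq.symm)
      rw [this] at h2
      exact lt_irrefl _ h2
    subst hl
    filter_upwards [nhds_north hq] with q' hq'
    have e : cc c0 cinf q' = cinf := by
      by_cases hn : q'.1 = north
      · exact cc_north hn
      · rw [cc_ne hn]
        exact hc _ (hq' hn)
    rw [e, cc_north hq]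
    simp [wprod]
  · have hlne : ∀ p ∈ l, p.1 ≠ north := by
      intro p hp hpn
      have h1 := ((hl2 p).1 hp).1
      rw [sph_north hpn] at h1
      exact sph_ne_north hfar hnear hq h1.symm
    have hst : IsStack f0 g (f0 (st q)) (g (st q)) (l.map st) := by
      constructor
      · rw [List.pairwise_map]
        refine hl1.imp_of_mem ?_
        intro a b ha hb hab
        rw [hsph_ne (hlne a ha), hsph_ne (hlne b hb)] at hab
        exact hab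
      · intro x
        rw [List.mem_map]
        constructor
        · rintro ⟨p, hp, rfl⟩
          obtain ⟨h1, h2⟩ := (hl2 p).1 hp
          rw [sph_eq (hlne p hp), sph_eq hq] at h1
          rw [hsph_ne (hlne p hp), hsph_ne hq] at h2
          exact ⟨inv_injective h1, h2⟩
        · rintro ⟨h1, h2⟩
          refine ⟨ist x, (hl2 _).2 ⟨?_, ?_⟩, st_ist x⟩
          · rw [sph_ist, sph_eq hq, h1]
          · rw [hsph_ne (ist_ne_north x), hsph_ne hq, st_ist]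
            exact h2
    filter_upwards [nhds_ne hq, (continuousAt_st hq).eventually (hr _ _ hst)] with q' hq' h1
    classical
    have hw : wprod (bb b0) (cc c0 cinf) l (sph f0 q') = wprod b0 c0 (l.map st) (f0 (st q')) := by
      unfold wprod
      rw [List.map_map]
      congr 1
      refine List.map_congr_left fun p hp => ?_
      have h2 : bb b0 p (sph f0 q') ↔ b0 (st p) (f0 (st q')) := by
        rw [bb_ne (hlne p hp), inv_sph hq']
      show (if bb b0 p (sph f0 q') then cc c0 cinf p else 1) =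
        if b0 (st p) (f0 (st q')) then c0 (st p) else 1
      rw [cc_ne (hlne p hp)]
      by_cases h3 : b0 (st p) (f0 (st q'))
      · rw [if_pos h3, if_pos (h2.2 h3)]
      · rw [if_neg h3, if_neg (fun h => h3 (h2.1 h))]
    rw [hw, cc_ne hq, cc_ne hq']
    exact h1

end

end ItemS3

open ItemS3 in
/-- [48319b S3] transport of the colouring from the plane to the sphere -/
theorem transportCov : TransportCov := by
  intro G _ f0 g b0 c0 cinf _ _ hfar hnear _ hb hr hc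
  exact ⟨bb b0, cc c0 cinf,
    sides hfar hnear (cinf := True) hb (fun x hx => ⟨trivial, (hc x hx).2⟩),
    colour hfar hnear hr fun x hx => (hc x hx).1, fun p hp => cc_ne hp⟩

end Pool.Agent.Work.MP_48319b_gt

end

section

/-!
# MP_48319b_gt, item P4 : the colour rule from the sectors
-/

open Metric Set Topology

namespace Pool.Agent.Work.MP_48319b_gt

namespace ItemP4

theorem norm_emb (x : E2) : ‖emb x‖ = ‖x‖ := by
  rw [EuclideanSpace.norm_eq, EuclideanSpace.norm_eq]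
  simp [emb, Fin.sum_univ_succ]

theorem proper {f0 : E2 → E3} (hfar : ∀ x, 2 / 5 ≤ ‖x‖ → f0 x = emb x) (y0 : E3) :
    ∀ᶠ y in 𝓝 y0, ∀ p, f0 p = y → p ∈ closedBall (0 : E2) (‖y0‖ + 1) := by
  filter_upwards [ball_mem_nhds y0 (one_pos)] with y hy p hp
  rw [mem_closedBall_zero_iff]
  have h1 : ‖y‖ ≤ ‖y0‖ + 1 := by
    have := norm_sub_norm_le y y0
    rw [mem_ball_iff_norm] at hy
    linarith
  by_cases h : 2 / 5 ≤ ‖p‖
  · rw [← norm_emb p, ← hfar p h, hp]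
    exact h1
  · have := norm_nonneg y0
    linarith [not_le.1 h]

theorem stack_length {S : Type*} [TopologicalSpace S] {P : S → E3} {h : S → ℝ} {y : E3} {s : ℝ}
    {l : List S} (hl : IsStack P h y s l) {p : S} (hp : p ∈ l) {l' : List S}
    (hl' : IsStack P h (P p) (h p) l') : l'.length < l.length := by
  classical
  have hp1 := (hl.2 p).1 hp
  have hnd : (p :: l').Nodup := by
    refine List.nodup_cons.2 ⟨fun h1 => lt_irrefl _ ((hl'.2 p).1 h1).2, ?_⟩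
    refine hl'.1.imp ?_
    rintro a b hab rfl
    exact lt_irrefl _ hab
  have hsub : (p :: l') ⊆ l := by
    intro q hq
    rcases List.mem_cons.1 hq with h1 | h1
    · rw [h1]
      exact hp
    · have h2 := (hl'.2 q).1 h1
      exact (hl.2 q).2 ⟨h2.1.trans hp1.1, hp1.2.trans h2.2⟩
  have := (List.subperm_of_subset hnd hsub).length_le
  simpa using this

open Classical in
theorem wside_eq {G ι : Type} [Group G] {f0 : E2 → E3} (b0 : E2 → E3 → Prop)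
    (side : E2 → ι → E2 → Prop) (c : E2 → G) (x : E2) (i : ι) (l : List E2) (q : E2)
    (h : ∀ u ∈ l, (b0 u (f0 q) ↔ side x i u)) : wside side c x i l = wprod b0 c l (f0 q) := by
  unfold wside wprod
  congr 1
  refine List.map_congr_left fun u hu => ?_
  simp only [h u hu]

end ItemP4

open ItemP4 in
theorem colourPL : ColourPL := by
  intro G ι _ _ C f0 g b0 c0 col side hcl hcov hint hf hg hfar hinj hS hside hcol
  classical
  have hK : ∀ y0 : E3, IsCompact (closedBall (0 : E2) (‖y0‖ + 1)) := fun y0 =>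
    isCompact_closedBall _ _
  suffices H : ∀ n : ℕ, ∀ q l, l.length = n → IsStack f0 g (f0 q) (g q) l →
      ∀ᶠ q' in 𝓝 q, c0 q' = wprod b0 c0 l (f0 q') * c0 q * (wprod b0 c0 l (f0 q'))⁻¹ by
    intro q l hl
    exact H _ q l rfl hl
  intro n
  induction n using Nat.strong_induction_on with
  | _ n ih =>
    intro x l hn hl
    obtain ⟨U, hU, hE1⟩ := MainLem.main hg hS hl (c := c0) (by
      intro p hp l' hl'
      exact ih l'.length (by rw [← hn]; exact stack_length hl hp hl') p l' rfl hl')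
    obtain ⟨O, hO, hOinj⟩ := hS.inj x
    have hE2 := MainLem.near_fibre (P := f0) (h := g) hf hg (y0 := f0 x) (s0 := g x) (hK (f0 x))
      (proper hfar (f0 x)) (V := interior U ∪ interior O) (isOpen_interior.union isOpen_interior)
      (by
        intro p hp hgp
        rcases hgp.lt_or_eq with h1 | h1
        · exact Or.inl (mem_interior_iff_mem_nhds.2 (hU p ((hl.2 p).2 ⟨hp, h1⟩)))
        · have : p = x := hinj (Prod.ext hp h1.symm)
          rw [this]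
          exact Or.inr (mem_interior_iff_mem_nhds.2 hO))
    have hz : Filter.Tendsto (fun x' => (f0 x', g x')) (𝓝 x) (𝓝 (f0 x, g x)) :=
      (hf.prodMk hg).continuousAt
    have hF1 := hz.eventually hE1
    have hF2 := hz.eventually hE2
    have hF3 : ∀ᶠ x' in 𝓝 x, ∀ i, x' ∈ C i → x ∈ C i := by
      rw [Filter.eventually_all]
      intro i
      by_cases hx : x ∈ C i
      · exact Filter.Eventually.of_forall fun _ _ => hx
      · filter_upwards [(hcl i).isOpen_compl.mem_nhds hx] with x' hx' h1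
        exact absurd h1 hx'
    have hF4 : ∀ᶠ x' in 𝓝 x, ∀ i, x ∈ C i → ∀ᶠ q in 𝓝[interior (C i)] x',
        ∀ u ∈ l, (b0 u (f0 q) ↔ side x i u) := by
      rw [Filter.eventually_all]
      intro i
      by_cases hx : x ∈ C i
      · have h1 : ∀ᶠ q in 𝓝[interior (C i)] x, ∀ u ∈ l.toFinset, (b0 u (f0 q) ↔ side x i u) := by
          refine (Filter.eventually_all_finset _).2 fun u hu => ?_
          have hu' := (hl.2 u).1 (by simpa using hu)
          exact hside x i u hx hu'.1 hu'.2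
        have h2 := eventually_eventually_nhds.2 (eventually_nhdsWithin_iff.1 h1)
        filter_upwards [h2] with x' hx' _
        rw [eventually_nhdsWithin_iff]
        filter_upwards [hx'] with q hq hqi u hu
        exact hq hqi u (by simpa using hu)
      · exact Filter.Eventually.of_forall fun _ h => absurd h hx
    filter_upwards [hF1, hF2, hF3, hF4, hO] with x' h1 h2 h3 h4 h5
    obtain ⟨i, hi⟩ := hcov x'
    have hix := h3 i hi
    obtain ⟨l1, hl1⟩ := MainLem.exists_stack g hf hS.inj hinj (f0 x') (g x') (hK (f0 x'))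
      (fun p hp => (proper hfar (f0 x')).self_of_nhds p hp)
    have h6 := h1 l1 hl1 (by
      intro r hr
      have hr1 := (hl1.2 r).1 hr
      rcases h2 r hr1.1 hr1.2.le with h7 | h7
      · exact interior_subset h7
      · have : r = x' := hOinj (interior_subset h7) h5 hr1.1
        rw [this] at hr1
        exact absurd hr1.2 (lt_irrefl _))
    have h7 : ∀ᶠ q in 𝓝[interior (C i)] x', wprod b0 c0 l (f0 q) =
        wprod b0 c0 l1 (f0 q) * wprod b0 c0 l (f0 x') :=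
      (hf.continuousAt.eventually h6).filter_mono nhdsWithin_le_nhds
    have h8 : ∀ᶠ q in 𝓝[interior (C i)] x', ∀ u ∈ l1.toFinset, (b0 u (f0 q) ↔ side x' i u) := by
      refine (Filter.eventually_all_finset _).2 fun u hu => ?_
      have hu' := (hl1.2 u).1 (by simpa using hu)
      exact hside x' i u hi hu'.1 hu'.2
    have hne : (𝓝[interior (C i)] x').NeBot := mem_closure_iff_nhdsWithin_neBot.1 (hint i hi)
    obtain ⟨q, hq1, hq2, hq3⟩ := ((h4 i hix).and (h7.and h8)).exists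
    have hw := wside_eq b0 side c0 x i l q hq1
    have hw' := wside_eq b0 side c0 x' i l1 q (fun u hu => hq3 u (by simpa using hu))
    have e1 := hcol x i l hix hl
    have e2 := hcol x' i l1 hi hl1
    rw [hw] at e1
    rw [hw'] at e2
    rw [e1, hq2] at e2
    set W := wprod b0 c0 l (f0 x')
    set w' := wprod b0 c0 l1 (f0 q)
    have : c0 x' = w'⁻¹ * (w' * c0 x' * w'⁻¹) * w' := by group
    rw [this, ← e2]
    group

end Pool.Agent.Work.MP_48319b_gt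

end

section

/-!
# MP_48319b_gt, item Z1: common monotone charts
-/

open Metric Set Topology

namespace Pool.Agent.Work.MP_48319b_gt

namespace ItemZ1

theorem basis {a b : E2} (h : 0 < det2 a b) (u : E2) :
    u = (det2 u b / det2 a b) • a + (det2 a u / det2 a b) • b := by
  have h0 : det2 a b ≠ 0 := h.ne'
  ext i
  fin_cases i
  · show u 0 = det2 u b / det2 a b * a 0 + det2 a u / det2 a b * b 0
    have : u 0 * det2 a b = det2 u b * a 0 + det2 a u * b 0 := by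
      unfold det2
      ring
    field_simp
    linarith
  · show u 1 = det2 u b / det2 a b * a 1 + det2 a u / det2 a b * b 1
    have : u 1 * det2 a b = det2 u b * a 1 + det2 a u * b 1 := by
      unfold det2
      ring
    field_simp
    linarith

theorem posTri {pos : ℕ → E2} {Y : ℕ → E3} {t : Tri} {Q : E3 →L[ℝ] E2} (hQ : PosT pos Y t Q)
    (ho : 0 < det2 (pos t.b - pos t.a) (pos t.c - pos t.a)) {A : E2 →L[ℝ] E3}
    (h1 : A (pos t.b - pos t.a) = Y t.b - Y t.a) (h2 : A (pos t.c - pos t.a) = Y t.c - Y t.a)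
    (u : E2) (hu : u ≠ 0) : 0 < inner ℝ u (Q (A u)) := by
  have hb := basis ho u
  set s := det2 u (pos t.c - pos t.a) / det2 (pos t.b - pos t.a) (pos t.c - pos t.a) with hs
  set r := det2 (pos t.b - pos t.a) u / det2 (pos t.b - pos t.a) (pos t.c - pos t.a) with hr
  have hne : s ≠ 0 ∨ r ≠ 0 := by
    by_contra hc
    push Not at hc
    apply hu
    rw [hb, hc.1, hc.2, zero_smul, zero_smul, add_zero]
  have hA : A u = s • (Y t.b - Y t.a) + r • (Y t.c - Y t.a) := by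
    conv_lhs => rw [hb]
    rw [map_add, map_smul, map_smul, h1, h2]
  have := hQ s r hne
  rw [← hb, ← hA] at this
  exact this

theorem pr2_emb (u : E2) : pr2L (emb u) = u := by
  ext i
  fin_cases i <;> simp [pr2L, pr2, emb]

theorem monoAt_mono {G : E2 → E3} {x : E2} {Q : E3 →L[ℝ] E2} {m r m' r' : ℝ}
    (h : MonoAt G x Q m r) (hm : m' ≤ m) (hr : r' ≤ r) : MonoAt G x Q m' r' := by
  intro p hp q hq
  refine le_trans ?_ (h p (ball_subset_ball hr hp) q (ball_subset_ball hr hq))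
  exact mul_le_mul_of_nonneg_right hm (sq_nonneg _)

/-- A vertex with positive weight. -/
theorem exists_pos {pos : ℕ → E2} {t : Tri} {x : E2} {w : ℕ → ℝ} (h : IsWt pos t x w) :
    ∃ v, v ∈ t.vs ∧ 0 < w v := by
  by_contra hc
  push Not at hc
  have ha := hc t.a (by simp [Tri.vs])
  have hb := hc t.b (by simp [Tri.vs])
  have hcc := hc t.c (by simp [Tri.vs])
  have := h.1.sum
  linarith

/-- Positivity of one vertex map on all the pieces at `x`, for the vertex `v`. -/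
theorem chart (h3 : ExtThm) (h4 : PieceThm) {F : List Tri} {bd : List (ℕ × ℕ)} {pos : ℕ → E2}
    {Y : ℕ → E3} {Q : ℕ → E3 →L[ℝ] E2} (hcx : PlaneCx F bd pos) (hY : BdStd bd pos Y emb)
    (hm : MonoCert F bd pos Y Q) {t : Tri} (ht : t ∈ F) {x : E2} {w : ℕ → ℝ}
    (hw : IsWt pos t x w) {v : ℕ} (hv : 0 < w v) :
    ∃ m r, 0 < m ∧ 0 < r ∧ MonoAt (fE F pos Y) x (Q v) m r := by
  obtain ⟨-, -, A, hA, hPA⟩ := h3 F bd pos hcx E3 Y embL hY
  refine pAMono (Idx F) (Piece F bd pos) (fE F pos Y) A x (Q v) hPA ?_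
  intro i hi u hu
  have hvi := (h4 F bd pos hcx).carrier t ht x w v hw hv i hi
  match i, hvi with
  | none, hvi =>
    obtain ⟨e, he, hve⟩ := hvi
    rw [hA.out]
    refine hm.out e he v ?_ u hu
    rcases hve with h | h <;> simp [h]
  | some t', hvi =>
    exact posTri (hm.tri t'.1 t'.2 v hvi) (hcx.orient t'.1 t'.2) (hA.tri t').1 (hA.tri t').2 u hu

theorem chartOut (h3 : ExtThm) {F : List Tri} {bd : List (ℕ × ℕ)} {pos : ℕ → E2}
    {Y : ℕ → E3} (hcx : PlaneCx F bd pos) (hY : BdStd bd pos Y emb) {x : E2}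
    (hx : ¬ ∃ t ∈ F, ∃ w, IsWt pos t x w) :
    ∃ m r, 0 < m ∧ 0 < r ∧ MonoAt (fE F pos Y) x pr2L m r := by
  obtain ⟨-, -, A, hA, hPA⟩ := h3 F bd pos hcx E3 Y embL hY
  refine pAMono (Idx F) (Piece F bd pos) (fE F pos Y) A x pr2L hPA ?_
  intro i hi u hu
  match i, hi with
  | none, _ =>
    rw [hA.out]
    have e : embL u = emb u := rfl
    rw [e, pr2_emb, real_inner_self_eq_norm_sq]
    have := norm_pos_iff.2 hu
    positivity
  | some t', hi =>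
    obtain ⟨w, hw⟩ := hi
    exact absurd ⟨t'.1, t'.2, w, hw⟩ hx

end ItemZ1

open ItemZ1 in
/-- [48319b Z1] -/
theorem biMonoThm (h3 : ExtThm) (h4 : PieceThm) : BiMonoThm := by
  intro F bd pos Y Y0 Q hcx hY hY0 hm hm0 x
  by_cases hx : ∃ t ∈ F, ∃ w, IsWt pos t x w
  · obtain ⟨t, ht, w, hw⟩ := hx
    obtain ⟨v, -, hv⟩ := exists_pos hw
    obtain ⟨m1, r1, hm1, hr1, k1⟩ := chart h3 h4 hcx hY hm ht hw hv
    obtain ⟨m2, r2, hm2, hr2, k2⟩ := chart h3 h4 hcx hY0 hm0 ht hw hv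
    exact ⟨Q v, min m1 m2, min r1 r2, lt_min hm1 hm2, lt_min hr1 hr2,
      monoAt_mono k1 (min_le_left _ _) (min_le_left _ _),
      monoAt_mono k2 (min_le_right _ _) (min_le_right _ _)⟩
  · obtain ⟨m1, r1, hm1, hr1, k1⟩ := chartOut h3 hcx hY hx
    obtain ⟨m2, r2, hm2, hr2, k2⟩ := chartOut h3 hcx hY0 hx
    exact ⟨pr2L, min m1 m2, min r1 r2, lt_min hm1 hm2, lt_min hr1 hr2,
      monoAt_mono k1 (min_le_left _ _) (min_le_left _ _),
      monoAt_mono k2 (min_le_right _ _) (min_le_right _ _)⟩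

end Pool.Agent.Work.MP_48319b_gt

end

section

/-!
# MP_48319b_gt : certificates for the crossing pairs

Generated by a Python script of helper96.
-/

namespace Pool.Agent.Work.MP_48319b_gt.Dat

set_option maxRecDepth 100000

/-- for the elements `(t, t')` of `X` in the same order: `(t, t', al, k)` with `k > 0` and
`al · y + k * g` (map `Y`) on `t` greater than on `t'` -/
def aboveL : List (Tri × Tri × P3 × ℤ) := [
(⟨3, 5, 4⟩, ⟨18, 23, 26⟩, ⟨-2, -4, 0⟩, 2),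
(⟨3, 9, 5⟩, ⟨18, 23, 26⟩, ⟨1, -2, 0⟩, 4),
(⟨3, 4, 7⟩, ⟨18, 23, 26⟩, ⟨-4, -4, 1⟩, 3),
(⟨3, 9, 5⟩, ⟨18, 21, 23⟩, ⟨-1, 0, 0⟩, 4),
(⟨3, 4, 7⟩, ⟨18, 26, 24⟩, ⟨-4, -4, 1⟩, 3),
(⟨3, 15, 9⟩, ⟨18, 21, 23⟩, ⟨-1, -1, 1⟩, 4),
(⟨3, 7, 11⟩, ⟨18, 26, 24⟩, ⟨-4, -2, 4⟩, 4),
(⟨3, 14, 15⟩, ⟨18, 21, 23⟩, ⟨3, -3, 2⟩, 4),
(⟨3, 7, 11⟩, ⟨24, 26, 71⟩, ⟨-4, -2, 4⟩, 2),
(⟨3, 14, 15⟩, ⟨18, 19, 21⟩, ⟨3, -3, 2⟩, 4),
(⟨7, 39, 11⟩, ⟨24, 26, 71⟩, ⟨-4, 0, 1⟩, 4),
(⟨3, 15, 9⟩, ⟨18, 19, 21⟩, ⟨-1, -1, 1⟩, 4),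
(⟨7, 39, 11⟩, ⟨24, 71, 70⟩, ⟨-2, -4, -3⟩, 2),
(⟨15, 31, 9⟩, ⟨18, 19, 21⟩, ⟨1, -3, 2⟩, 4),
(⟨17, 11, 39⟩, ⟨24, 71, 70⟩, ⟨3, 4, -3⟩, 3),
(⟨15, 31, 9⟩, ⟨18, 20, 19⟩, ⟨2, -3, 1⟩, 4),
(⟨17, 11, 39⟩, ⟨71, 76, 70⟩, ⟨3, 4, -2⟩, 3),
(⟨15, 31, 9⟩, ⟨19, 20, 61⟩, ⟨2, -1, -1⟩, 8),
(⟨17, 11, 39⟩, ⟨71, 133, 76⟩, ⟨4, 1, -3⟩, 2),
(⟨5, 9, 31⟩, ⟨19, 20, 61⟩, ⟨-1, -1, -1⟩, 4),
(⟨7, 39, 11⟩, ⟨71, 133, 76⟩, ⟨3, -4, -3⟩, 3),
(⟨5, 31, 34⟩, ⟨19, 20, 61⟩, ⟨-2, -1, -1⟩, 4),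
(⟨7, 39, 11⟩, ⟨71, 74, 133⟩, ⟨3, -4, -3⟩, 3),
(⟨5, 31, 34⟩, ⟨20, 65, 61⟩, ⟨-2, -2, -1⟩, 4),
(⟨7, 39, 11⟩, ⟨25, 74, 71⟩, ⟨3, -2, -1⟩, 4),
(⟨5, 31, 34⟩, ⟨103, 61, 65⟩, ⟨-2, -2, -1⟩, 4),
(⟨7, 42, 39⟩, ⟨25, 74, 71⟩, ⟨0, -4, -1⟩, 2),
(⟨5, 31, 34⟩, ⟨102, 61, 103⟩, ⟨-1, 0, -1⟩, 8),
(⟨7, 42, 39⟩, ⟨25, 71, 75⟩, ⟨1, -4, 0⟩, 2),
(⟨5, 31, 34⟩, ⟨102, 177, 61⟩, ⟨0, 0, -1⟩, 8),
(⟨39, 42, 132⟩, ⟨25, 71, 75⟩, ⟨1, -4, 0⟩, 2),
(⟨5, 31, 34⟩, ⟨177, 69, 61⟩, ⟨-1, 0, -1⟩, 8),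
(⟨39, 132, 134⟩, ⟨25, 71, 75⟩, ⟨1, -4, -1⟩, 3),
(⟨5, 31, 34⟩, ⟨21, 61, 69⟩, ⟨-1, 0, 0⟩, 4),
(⟨39, 132, 134⟩, ⟨25, 74, 71⟩, ⟨1, -4, -1⟩, 3),
(⟨5, 9, 31⟩, ⟨21, 61, 69⟩, ⟨-1, 0, 0⟩, 4),
(⟨39, 134, 126⟩, ⟨25, 74, 71⟩, ⟨2, 2, -3⟩, 4),
(⟨5, 9, 31⟩, ⟨19, 61, 21⟩, ⟨-1, 0, 0⟩, 4),
(⟨39, 134, 126⟩, ⟨25, 76, 74⟩, ⟨1, 1, -4⟩, 4),
(⟨15, 31, 9⟩, ⟨19, 61, 21⟩, ⟨-5, 6, 1⟩, 8),
(⟨124, 126, 134⟩, ⟨25, 76, 74⟩, ⟨3, 4, -3⟩, 4),
(⟨15, 31, 9⟩, ⟨21, 61, 69⟩, ⟨-4, 1, -1⟩, 4),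
(⟨124, 134, 127⟩, ⟨25, 76, 74⟩, ⟨3, 3, -2⟩, 4),
(⟨15, 46, 31⟩, ⟨21, 61, 69⟩, ⟨-7, 7, 1⟩, 8),
(⟨122, 124, 127⟩, ⟨25, 76, 74⟩, ⟨3, 3, -3⟩, 4),
(⟨16, 31, 46⟩, ⟨21, 61, 69⟩, ⟨-1, 1, 0⟩, 8),
(⟨122, 124, 127⟩, ⟨74, 76, 133⟩, ⟨0, 3, 0⟩, 4),
(⟨16, 31, 46⟩, ⟨177, 69, 61⟩, ⟨-1, 1, -1⟩, 8),
(⟨122, 124, 127⟩, ⟨71, 133, 76⟩, ⟨0, 3, 0⟩, 4),
(⟨16, 49, 31⟩, ⟨177, 69, 61⟩, ⟨-1, 1, -1⟩, 8),
(⟨122, 124, 127⟩, ⟨71, 74, 133⟩, ⟨0, 3, 0⟩, 4),
(⟨16, 49, 31⟩, ⟨102, 177, 61⟩, ⟨0, 0, -1⟩, 4),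
(⟨122, 124, 127⟩, ⟨25, 74, 71⟩, ⟨2, 3, -2⟩, 4),
(⟨16, 49, 31⟩, ⟨102, 61, 103⟩, ⟨3, 0, 1⟩, 8),
(⟨122, 124, 127⟩, ⟨25, 71, 75⟩, ⟨2, 3, -2⟩, 4),
(⟨16, 49, 31⟩, ⟨62, 102, 103⟩, ⟨4, -2, 0⟩, 3),
(⟨122, 127, 130⟩, ⟨25, 71, 75⟩, ⟨1, -4, 0⟩, 3),
(⟨16, 29, 49⟩, ⟨62, 102, 103⟩, ⟨1, 0, 0⟩, 4),
(⟨122, 130, 129⟩, ⟨25, 71, 75⟩, ⟨1, -4, 0⟩, 3),
(⟨16, 29, 49⟩, ⟨62, 104, 102⟩, ⟨1, 0, -1⟩, 4),
(⟨122, 129, 131⟩, ⟨25, 71, 75⟩, ⟨1, -3, -3⟩, 4),
(⟨82, 49, 29⟩, ⟨62, 104, 102⟩, ⟨-1, 0, 0⟩, 4),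
(⟨122, 131, 128⟩, ⟨25, 71, 75⟩, ⟨1, -3, -3⟩, 4),
(⟨82, 49, 29⟩, ⟨62, 102, 103⟩, ⟨-1, 0, 0⟩, 4),
(⟨122, 128, 125⟩, ⟨25, 71, 75⟩, ⟨1, -1, -2⟩, 4),
(⟨82, 49, 29⟩, ⟨62, 103, 63⟩, ⟨-2, 0, 1⟩, 4),
(⟨122, 128, 125⟩, ⟨26, 75, 71⟩, ⟨-1, 1, -1⟩, 4),
(⟨82, 49, 29⟩, ⟨20, 62, 63⟩, ⟨-2, 0, 1⟩, 4),
(⟨122, 128, 125⟩, ⟨26, 77, 75⟩, ⟨1, 3, -1⟩, 4),
(⟨82, 49, 29⟩, ⟨20, 22, 62⟩, ⟨-1, 0, 0⟩, 4),
(⟨122, 131, 128⟩, ⟨26, 77, 75⟩, ⟨1, 4, 0⟩, 3),
(⟨30, 82, 29⟩, ⟨20, 22, 62⟩, ⟨-1, 1, 0⟩, 4),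
(⟨122, 131, 128⟩, ⟨25, 75, 77⟩, ⟨4, 2, -2⟩, 3),
(⟨30, 82, 29⟩, ⟨25, 62, 22⟩, ⟨-1, -1, 0⟩, 4),
(⟨131, 94, 128⟩, ⟨25, 75, 77⟩, ⟨4, 2, -2⟩, 3),
(⟨2, 30, 29⟩, ⟨25, 62, 22⟩, ⟨0, -4, -4⟩, 4),
(⟨129, 94, 131⟩, ⟨25, 75, 77⟩, ⟨4, 2, -2⟩, 3),
(⟨2, 29, 8⟩, ⟨25, 62, 22⟩, ⟨0, -4, -4⟩, 4),
(⟨129, 94, 131⟩, ⟨25, 77, 78⟩, ⟨4, 2, -2⟩, 2),
(⟨2, 29, 8⟩, ⟨20, 22, 62⟩, ⟨-1, 2, 0⟩, 4),
(⟨129, 130, 94⟩, ⟨25, 77, 78⟩, ⟨4, -4, 1⟩, 1),
(⟨13, 8, 29⟩, ⟨20, 22, 62⟩, ⟨2, 3, -2⟩, 4),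
(⟨129, 130, 94⟩, ⟨77, 147, 78⟩, ⟨4, -3, 1⟩, 1),
(⟨0, 8, 13⟩, ⟨20, 22, 62⟩, ⟨4, 4, -3⟩, 4),
(⟨130, 95, 94⟩, ⟨77, 147, 78⟩, ⟨4, -2, 1⟩, 1),
(⟨0, 2, 8⟩, ⟨20, 22, 62⟩, ⟨-2, 4, -1⟩, 4),
(⟨82, 94, 95⟩, ⟨77, 147, 78⟩, ⟨3, -4, 0⟩, 3),
(⟨0, 2, 8⟩, ⟨18, 22, 20⟩, ⟨-2, 2, 0⟩, 4),
(⟨82, 94, 95⟩, ⟨77, 99, 147⟩, ⟨1, -2, 0⟩, 4),
(⟨0, 8, 13⟩, ⟨18, 22, 20⟩, ⟨2, 0, 1⟩, 4),
(⟨130, 95, 94⟩, ⟨77, 99, 147⟩, ⟨2, 2, 3⟩, 4),
(⟨0, 8, 13⟩, ⟨18, 25, 22⟩, ⟨2, 0, 1⟩, 4),
(⟨130, 95, 94⟩, ⟨83, 99, 77⟩, ⟨-4, 3, 2⟩, 2),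
(⟨0, 13, 12⟩, ⟨18, 25, 22⟩, ⟨2, 0, 1⟩, 4),
(⟨82, 94, 95⟩, ⟨83, 99, 77⟩, ⟨-1, -1, 0⟩, 4),
(⟨0, 13, 12⟩, ⟨18, 24, 25⟩, ⟨0, -1, 4⟩, 4),
(⟨82, 95, 97⟩, ⟨83, 99, 77⟩, ⟨-4, 0, 1⟩, 2),
(⟨0, 13, 12⟩, ⟨18, 26, 24⟩, ⟨0, -1, 4⟩, 4),
(⟨82, 95, 97⟩, ⟨83, 57, 99⟩, ⟨-4, 1, 1⟩, 4),
(⟨0, 13, 12⟩, ⟨18, 23, 26⟩, ⟨0, -1, 4⟩, 4),
(⟨130, 97, 95⟩, ⟨83, 57, 99⟩, ⟨-3, 2, 0⟩, 4),
(⟨0, 12, 16⟩, ⟨18, 23, 26⟩, ⟨2, -1, 0⟩, 4),
(⟨130, 97, 95⟩, ⟨99, 57, 147⟩, ⟨3, 2, 0⟩, 4),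
(⟨0, 16, 10⟩, ⟨18, 23, 26⟩, ⟨2, -1, 0⟩, 4),
(⟨130, 142, 97⟩, ⟨99, 57, 147⟩, ⟨0, 4, 0⟩, 2),
(⟨0, 16, 10⟩, ⟨18, 21, 23⟩, ⟨2, 1, 0⟩, 4),
(⟨142, 148, 97⟩, ⟨99, 57, 147⟩, ⟨0, 4, 0⟩, 2),
(⟨0, 16, 10⟩, ⟨21, 66, 23⟩, ⟨2, 0, 0⟩, 4),
(⟨148, 153, 97⟩, ⟨99, 57, 147⟩, ⟨0, 4, 1⟩, 4),
(⟨16, 27, 10⟩, ⟨21, 66, 23⟩, ⟨1, 0, 0⟩, 4),
(⟨97, 153, 164⟩, ⟨99, 57, 147⟩, ⟨0, 1, 2⟩, 4),
(⟨16, 27, 10⟩, ⟨26, 23, 66⟩, ⟨1, 0, 0⟩, 4),
(⟨97, 164, 98⟩, ⟨99, 57, 147⟩, ⟨-2, 1, 3⟩, 4),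
(⟨16, 47, 27⟩, ⟨26, 23, 66⟩, ⟨1, 0, 0⟩, 4),
(⟨82, 97, 98⟩, ⟨99, 57, 147⟩, ⟨-2, -3, 4⟩, 3),
(⟨27, 47, 82⟩, ⟨26, 23, 66⟩, ⟨-1, 0, 0⟩, 4),
(⟨82, 97, 98⟩, ⟨147, 57, 150⟩, ⟨-2, -4, 4⟩, 2),
(⟨27, 47, 82⟩, ⟨26, 66, 79⟩, ⟨0, -4, 0⟩, 3),
(⟨82, 97, 98⟩, ⟨57, 166, 150⟩, ⟨-2, -4, 4⟩, 2),
(⟨27, 47, 82⟩, ⟨66, 83, 79⟩, ⟨0, -4, 0⟩, 3),
(⟨97, 164, 98⟩, ⟨57, 166, 150⟩, ⟨-2, 2, 4⟩, 4),
(⟨27, 82, 30⟩, ⟨66, 83, 79⟩, ⟨0, -4, 0⟩, 3),
(⟨97, 164, 98⟩, ⟨57, 165, 166⟩, ⟨-3, -1, 4⟩, 4),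
(⟨27, 82, 30⟩, ⟨66, 80, 83⟩, ⟨-1, -1, 0⟩, 4),
(⟨97, 153, 164⟩, ⟨57, 165, 166⟩, ⟨-1, -1, 3⟩, 4),
(⟨27, 82, 30⟩, ⟨66, 81, 80⟩, ⟨-1, 0, 1⟩, 4),
(⟨97, 153, 164⟩, ⟨57, 60, 165⟩, ⟨-1, -1, 3⟩, 4),
(⟨27, 82, 30⟩, ⟨80, 81, 43⟩, ⟨-2, 2, 1⟩, 4),
(⟨148, 153, 97⟩, ⟨57, 60, 165⟩, ⟨1, -4, -1⟩, 4),
(⟨30, 82, 29⟩, ⟨80, 81, 43⟩, ⟨-2, 1, 2⟩, 4),
(⟨148, 153, 97⟩, ⟨60, 59, 165⟩, ⟨2, -4, -2⟩, 4),
(⟨82, 49, 29⟩, ⟨80, 81, 43⟩, ⟨-3, 0, 3⟩, 4),
(⟨148, 154, 153⟩, ⟨60, 59, 165⟩, ⟨0, 2, -4⟩, 4),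
(⟨82, 49, 29⟩, ⟨81, 44, 43⟩, ⟨-4, 2, 3⟩, 4),
(⟨153, 154, 156⟩, ⟨60, 59, 165⟩, ⟨0, 2, -4⟩, 4),
(⟨82, 49, 29⟩, ⟨15, 43, 44⟩, ⟨-1, 0, 1⟩, 4),
(⟨153, 154, 156⟩, ⟨17, 59, 60⟩, ⟨-2, -2, -2⟩, 4),
(⟨82, 49, 29⟩, ⟨14, 43, 15⟩, ⟨-1, 0, 1⟩, 4),
(⟨153, 154, 156⟩, ⟨17, 58, 59⟩, ⟨-2, -2, -2⟩, 4),
(⟨16, 29, 49⟩, ⟨14, 43, 15⟩, ⟨2, 0, 0⟩, 4),
(⟨153, 154, 156⟩, ⟨58, 136, 59⟩, ⟨-1, -4, 0⟩, 3),
(⟨12, 29, 16⟩, ⟨14, 43, 15⟩, ⟨1, 1, 0⟩, 4),
(⟨153, 154, 156⟩, ⟨59, 136, 139⟩, ⟨-1, -4, 1⟩, 2),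
(⟨12, 13, 29⟩, ⟨14, 43, 15⟩, ⟨-1, 1, 0⟩, 4),
(⟨153, 154, 156⟩, ⟨59, 139, 138⟩, ⟨-1, -4, 2⟩, 4),
(⟨12, 13, 29⟩, ⟨3, 14, 15⟩, ⟨-1, -1, 4⟩, 3),
(⟨156, 154, 158⟩, ⟨59, 139, 138⟩, ⟨-1, -4, 2⟩, 4),
(⟨0, 13, 12⟩, ⟨3, 14, 15⟩, ⟨0, 0, 4⟩, 3),
(⟨156, 158, 168⟩, ⟨59, 139, 138⟩, ⟨-3, -2, 1⟩, 4),
(⟨0, 12, 16⟩, ⟨3, 14, 15⟩, ⟨3, 1, -1⟩, 8),
(⟨156, 168, 157⟩, ⟨59, 139, 138⟩, ⟨-3, -2, 1⟩, 4),
(⟨0, 12, 16⟩, ⟨3, 15, 9⟩, ⟨2, 1, 0⟩, 4),
(⟨156, 168, 157⟩, ⟨59, 138, 152⟩, ⟨0, 3, -2⟩, 4),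
(⟨0, 12, 16⟩, ⟨3, 9, 5⟩, ⟨2, 1, 0⟩, 4),
(⟨158, 157, 168⟩, ⟨59, 138, 152⟩, ⟨0, 2, -1⟩, 4),
(⟨0, 12, 16⟩, ⟨3, 5, 4⟩, ⟨3, 0, -2⟩, 8),
(⟨148, 157, 158⟩, ⟨59, 138, 152⟩, ⟨0, 2, -2⟩, 4),
(⟨0, 16, 10⟩, ⟨3, 5, 4⟩, ⟨3, 0, -2⟩, 8),
(⟨148, 157, 158⟩, ⟨147, 152, 138⟩, ⟨0, 2, -2⟩, 4),
(⟨0, 10, 6⟩, ⟨3, 5, 4⟩, ⟨-2, 4, -1⟩, 3),
(⟨148, 157, 158⟩, ⟨147, 138, 137⟩, ⟨0, 1, -2⟩, 4),
(⟨0, 6, 1⟩, ⟨3, 5, 4⟩, ⟨-2, 4, -1⟩, 3),
(⟨148, 158, 154⟩, ⟨147, 138, 137⟩, ⟨2, 2, -1⟩, 4),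
(⟨0, 6, 1⟩, ⟨3, 4, 7⟩, ⟨0, -3, -4⟩, 4),
(⟨156, 154, 158⟩, ⟨147, 138, 137⟩, ⟨1, 2, 0⟩, 4),
(⟨1, 6, 27⟩, ⟨3, 4, 7⟩, ⟨0, -3, -4⟩, 2),
(⟨156, 154, 158⟩, ⟨147, 137, 135⟩, ⟨3, 1, -4⟩, 3),
(⟨1, 27, 2⟩, ⟨3, 4, 7⟩, ⟨-4, -4, 1⟩, 3),
(⟨156, 154, 158⟩, ⟨124, 135, 137⟩, ⟨-1, -4, -1⟩, 3),
(⟨1, 27, 2⟩, ⟨4, 28, 7⟩, ⟨1, -2, 2⟩, 4),
(⟨153, 154, 156⟩, ⟨124, 135, 137⟩, ⟨-1, -4, -1⟩, 4),
(⟨2, 27, 30⟩, ⟨4, 28, 7⟩, ⟨1, -2, 2⟩, 4),
(⟨153, 154, 156⟩, ⟨123, 135, 124⟩, ⟨-1, -4, 0⟩, 3),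
(⟨27, 82, 30⟩, ⟨4, 28, 7⟩, ⟨-1, -3, 0⟩, 4),
(⟨156, 154, 158⟩, ⟨123, 135, 124⟩, ⟨-1, -4, 0⟩, 3),
(⟨27, 47, 82⟩, ⟨4, 28, 7⟩, ⟨-1, -2, -1⟩, 4),
(⟨156, 154, 158⟩, ⟨123, 125, 135⟩, ⟨-1, -4, 0⟩, 3),
(⟨27, 47, 82⟩, ⟨7, 28, 40⟩, ⟨-1, -3, -1⟩, 4),
(⟨156, 158, 168⟩, ⟨123, 125, 135⟩, ⟨-2, -4, -2⟩, 3),
(⟨27, 47, 82⟩, ⟨28, 86, 40⟩, ⟨-1, -3, 0⟩, 4),
(⟨156, 168, 157⟩, ⟨123, 125, 135⟩, ⟨-2, -4, -2⟩, 3),
(⟨27, 47, 82⟩, ⟨28, 85, 86⟩, ⟨-1, -3, 0⟩, 4),
(⟨148, 156, 157⟩, ⟨123, 125, 135⟩, ⟨-2, -2, -1⟩, 4),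
(⟨27, 47, 82⟩, ⟨28, 84, 85⟩, ⟨-1, 0, 2⟩, 4),
(⟨148, 156, 157⟩, ⟨125, 140, 135⟩, ⟨-1, -1, -1⟩, 4),
(⟨82, 47, 48⟩, ⟨28, 84, 85⟩, ⟨-2, 4, 0⟩, 3),
(⟨148, 155, 156⟩, ⟨125, 140, 135⟩, ⟨-1, 0, -1⟩, 4),
(⟨82, 47, 48⟩, ⟨28, 85, 86⟩, ⟨-1, 0, -4⟩, 3),
(⟨148, 155, 156⟩, ⟨159, 135, 140⟩, ⟨0, 0, -2⟩, 4),
(⟨82, 47, 48⟩, ⟨86, 85, 33⟩, ⟨-1, 0, -4⟩, 3),
(⟨148, 155, 156⟩, ⟨159, 140, 162⟩, ⟨3, 1, -2⟩, 4),
(⟨82, 47, 48⟩, ⟨86, 33, 100⟩, ⟨-1, -1, -4⟩, 3),
(⟨148, 155, 156⟩, ⟨117, 162, 140⟩, ⟨4, 1, -2⟩, 4),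
(⟨82, 48, 92⟩, ⟨86, 33, 100⟩, ⟨-1, -1, -4⟩, 3),
(⟨148, 155, 156⟩, ⟨125, 117, 140⟩, ⟨0, -2, 0⟩, 4),
(⟨48, 144, 92⟩, ⟨86, 33, 100⟩, ⟨0, 0, -2⟩, 4),
(⟨148, 35, 155⟩, ⟨125, 117, 140⟩, ⟨-1, -2, 0⟩, 8),
(⟨48, 144, 92⟩, ⟨33, 146, 100⟩, ⟨0, -2, -1⟩, 4),
(⟨148, 35, 155⟩, ⟨117, 162, 140⟩, ⟨0, 4, -2⟩, 4),
(⟨48, 118, 144⟩, ⟨33, 146, 100⟩, ⟨0, -1, -1⟩, 4),
(⟨148, 38, 35⟩, ⟨117, 162, 140⟩, ⟨0, 4, -2⟩, 4),
(⟨48, 118, 144⟩, ⟨33, 36, 146⟩, ⟨0, -1, -1⟩, 4),
(⟨5, 35, 38⟩, ⟨117, 162, 140⟩, ⟨-2, 0, -2⟩, 4),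
(⟨48, 118, 144⟩, ⟨36, 37, 146⟩, ⟨2, -3, -3⟩, 4),
(⟨5, 35, 38⟩, ⟨117, 163, 162⟩, ⟨-2, 1, -3⟩, 4),
(⟨144, 118, 93⟩, ⟨36, 37, 146⟩, ⟨-1, 0, -1⟩, 4),
(⟨5, 35, 38⟩, ⟨121, 163, 117⟩, ⟨-3, 3, -5⟩, 8),
(⟨144, 118, 93⟩, ⟨5, 37, 36⟩, ⟨0, 0, 1⟩, 4),
(⟨5, 34, 35⟩, ⟨121, 163, 117⟩, ⟨-4, -1, -2⟩, 8),
(⟨144, 118, 93⟩, ⟨5, 38, 37⟩, ⟨1, 0, 0⟩, 8),
(⟨5, 34, 35⟩, ⟨114, 121, 117⟩, ⟨-1, 0, -1⟩, 4),
(⟨144, 118, 93⟩, ⟨148, 37, 38⟩, ⟨1, 0, 0⟩, 4),
(⟨5, 34, 35⟩, ⟨114, 117, 112⟩, ⟨-1, 0, -1⟩, 4),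
(⟨92, 144, 93⟩, ⟨148, 37, 38⟩, ⟨2, -2, -1⟩, 4),
(⟨5, 34, 35⟩, ⟨111, 114, 112⟩, ⟨-4, -1, -2⟩, 4),
(⟨82, 92, 93⟩, ⟨148, 37, 38⟩, ⟨3, -2, 0⟩, 4),
(⟨5, 31, 34⟩, ⟨111, 114, 112⟩, ⟨-2, -2, -1⟩, 4),
(⟨82, 92, 93⟩, ⟨148, 101, 37⟩, ⟨2, -2, -1⟩, 4),
(⟨5, 31, 34⟩, ⟨111, 112, 173⟩, ⟨0, 0, -1⟩, 4),
(⟨82, 93, 96⟩, ⟨148, 101, 37⟩, ⟨2, -1, 0⟩, 4),
(⟨5, 9, 31⟩, ⟨111, 112, 173⟩, ⟨0, 0, -1⟩, 8),
(⟨125, 96, 93⟩, ⟨148, 101, 37⟩, ⟨1, 0, 1⟩, 4),
(⟨5, 9, 31⟩, ⟨111, 173, 172⟩, ⟨0, 0, -1⟩, 8),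
(⟨125, 94, 96⟩, ⟨148, 101, 37⟩, ⟨2, 1, 3⟩, 4),
(⟨15, 31, 9⟩, ⟨111, 173, 172⟩, ⟨0, 0, -1⟩, 8),
(⟨125, 94, 96⟩, ⟨86, 37, 101⟩, ⟨-3, 3, 2⟩, 4),
(⟨15, 46, 31⟩, ⟨111, 173, 172⟩, ⟨0, 0, -1⟩, 8),
(⟨125, 94, 96⟩, ⟨86, 101, 41⟩, ⟨-2, 2, -1⟩, 4),
(⟨16, 31, 46⟩, ⟨111, 173, 172⟩, ⟨0, 1, 0⟩, 8),
(⟨125, 94, 96⟩, ⟨41, 101, 148⟩, ⟨2, 0, 1⟩, 4),
(⟨16, 31, 46⟩, ⟨111, 112, 173⟩, ⟨1, 0, 0⟩, 8),
(⟨125, 128, 94⟩, ⟨41, 101, 148⟩, ⟨2, 0, 1⟩, 4),
(⟨16, 31, 46⟩, ⟨111, 114, 112⟩, ⟨1, 0, 0⟩, 4),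
(⟨131, 94, 128⟩, ⟨41, 101, 148⟩, ⟨3, 1, 1⟩, 4),
(⟨16, 31, 46⟩, ⟨111, 113, 114⟩, ⟨1, 0, 0⟩, 4),
(⟨129, 94, 131⟩, ⟨41, 101, 148⟩, ⟨3, 1, 1⟩, 4),
(⟨16, 31, 46⟩, ⟨111, 115, 113⟩, ⟨3, -1, 1⟩, 4),
(⟨129, 94, 131⟩, ⟨41, 148, 142⟩, ⟨3, 1, 1⟩, 4),
(⟨16, 31, 46⟩, ⟨111, 116, 115⟩, ⟨2, 0, 1⟩, 4),
(⟨129, 130, 94⟩, ⟨41, 148, 142⟩, ⟨1, -1, 1⟩, 4),
(⟨15, 46, 31⟩, ⟨111, 116, 115⟩, ⟨1, -2, -1⟩, 4),
(⟨129, 130, 94⟩, ⟨41, 142, 143⟩, ⟨4, -4, 2⟩, 2),
(⟨15, 46, 31⟩, ⟨115, 116, 120⟩, ⟨1, -2, -1⟩, 4),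
(⟨129, 130, 94⟩, ⟨41, 143, 141⟩, ⟨3, -4, 1⟩, 1),
(⟨15, 45, 46⟩, ⟨115, 116, 120⟩, ⟨1, 0, -2⟩, 4),
(⟨129, 130, 94⟩, ⟨42, 41, 141⟩, ⟨3, -4, 2⟩, 2),
(⟨16, 46, 45⟩, ⟨115, 116, 120⟩, ⟨2, 1, -1⟩, 4),
(⟨129, 130, 94⟩, ⟨42, 141, 132⟩, ⟨3, -4, 2⟩, 2),
(⟨16, 45, 52⟩, ⟨115, 116, 120⟩, ⟨1, 1, -1⟩, 4),
(⟨122, 130, 129⟩, ⟨42, 141, 132⟩, ⟨4, -4, 3⟩, 3),
(⟨16, 45, 52⟩, ⟨113, 115, 120⟩, ⟨1, 1, -1⟩, 4),
(⟨122, 130, 129⟩, ⟨39, 42, 132⟩, ⟨2, -4, 2⟩, 4),
(⟨16, 45, 52⟩, ⟨113, 120, 114⟩, ⟨1, 1, -1⟩, 4),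
(⟨122, 130, 129⟩, ⟨7, 42, 39⟩, ⟨-4, 0, 0⟩, 4),
(⟨45, 159, 52⟩, ⟨113, 120, 114⟩, ⟨1, 1, -1⟩, 4),
(⟨122, 127, 130⟩, ⟨7, 42, 39⟩, ⟨-4, 0, 0⟩, 4),
(⟨45, 89, 159⟩, ⟨113, 120, 114⟩, ⟨1, 1, -1⟩, 8),
(⟨122, 127, 130⟩, ⟨7, 39, 11⟩, ⟨-4, 1, 0⟩, 2),
(⟨81, 89, 45⟩, ⟨113, 120, 114⟩, ⟨1, 0, -1⟩, 8),
(⟨122, 124, 127⟩, ⟨7, 39, 11⟩, ⟨-3, 3, -1⟩, 4),
(⟨81, 89, 45⟩, ⟨114, 120, 121⟩, ⟨0, 0, -1⟩, 4),
(⟨122, 124, 127⟩, ⟨17, 11, 39⟩, ⟨-3, 3, -1⟩, 4),
(⟨81, 89, 45⟩, ⟨120, 161, 121⟩, ⟨-2, -2, -2⟩, 4),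
(⟨122, 124, 127⟩, ⟨17, 39, 58⟩, ⟨-3, 2, 1⟩, 4),
(⟨81, 90, 89⟩, ⟨120, 161, 121⟩, ⟨-4, -1, -2⟩, 3),
(⟨122, 123, 124⟩, ⟨17, 39, 58⟩, ⟨-2, 2, 0⟩, 4),
(⟨81, 90, 89⟩, ⟨121, 161, 163⟩, ⟨-4, -2, -2⟩, 4),
(⟨122, 123, 124⟩, ⟨39, 126, 58⟩, ⟨3, 1, 4⟩, 3),
(⟨81, 90, 89⟩, ⟨121, 163, 117⟩, ⟨-4, -2, -2⟩, 4),
(⟨122, 125, 123⟩, ⟨39, 126, 58⟩, ⟨1, 1, -1⟩, 4),
(⟨81, 90, 89⟩, ⟨114, 121, 117⟩, ⟨1, 1, -2⟩, 4),
(⟨122, 125, 123⟩, ⟨58, 126, 136⟩, ⟨3, -1, -1⟩, 4),
(⟨81, 90, 89⟩, ⟨114, 117, 112⟩, ⟨1, 1, -1⟩, 4),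
(⟨122, 125, 123⟩, ⟨58, 136, 59⟩, ⟨3, -1, -1⟩, 4),
(⟨81, 90, 89⟩, ⟨112, 117, 174⟩, ⟨0, 0, -1⟩, 8),
(⟨122, 123, 124⟩, ⟨58, 136, 59⟩, ⟨4, -1, 3⟩, 2),
(⟨81, 91, 90⟩, ⟨112, 117, 174⟩, ⟨0, 0, -1⟩, 8),
(⟨122, 123, 124⟩, ⟨17, 58, 59⟩, ⟨-1, 1, -2⟩, 4),
(⟨81, 91, 90⟩, ⟨114, 117, 112⟩, ⟨0, 1, -1⟩, 4),
(⟨123, 135, 124⟩, ⟨17, 58, 59⟩, ⟨-1, 1, -1⟩, 4),
(⟨81, 91, 90⟩, ⟨114, 121, 117⟩, ⟨0, 1, -1⟩, 4),
(⟨124, 135, 137⟩, ⟨17, 58, 59⟩, ⟨-2, -2, -4⟩, 4),
(⟨81, 91, 90⟩, ⟨121, 163, 117⟩, ⟨-4, -1, -3⟩, 4),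
(⟨124, 135, 137⟩, ⟨58, 136, 59⟩, ⟨1, -4, 2⟩, 2),
(⟨81, 91, 90⟩, ⟨117, 163, 162⟩, ⟨-3, -1, -3⟩, 4),
(⟨124, 135, 137⟩, ⟨59, 136, 139⟩, ⟨1, -4, 3⟩, 1),
(⟨90, 91, 167⟩, ⟨117, 163, 162⟩, ⟨-1, 1, -1⟩, 4),
(⟨124, 135, 137⟩, ⟨59, 139, 138⟩, ⟨1, -4, 3⟩, 1),
(⟨90, 91, 167⟩, ⟨117, 162, 140⟩, ⟨-1, 1, -1⟩, 4),
(⟨124, 135, 137⟩, ⟨59, 138, 152⟩, ⟨4, 1, 0⟩, 1),
(⟨90, 91, 167⟩, ⟨125, 117, 140⟩, ⟨-1, 0, -1⟩, 4),
(⟨147, 137, 135⟩, ⟨59, 138, 152⟩, ⟨4, 1, 0⟩, 1),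
(⟨90, 91, 167⟩, ⟨125, 119, 117⟩, ⟨-1, -1, -1⟩, 4),
(⟨147, 137, 135⟩, ⟨59, 152, 150⟩, ⟨4, 1, 0⟩, 1),
(⟨90, 167, 110⟩, ⟨125, 119, 117⟩, ⟨-1, -1, -2⟩, 4),
(⟨147, 137, 135⟩, ⟨166, 59, 150⟩, ⟨4, 1, -1⟩, 1),
(⟨167, 88, 110⟩, ⟨125, 119, 117⟩, ⟨-1, 0, -4⟩, 4),
(⟨147, 135, 151⟩, ⟨166, 59, 150⟩, ⟨4, 1, 0⟩, 2),
(⟨167, 88, 110⟩, ⟨125, 93, 119⟩, ⟨-1, 0, 0⟩, 4),
(⟨159, 151, 135⟩, ⟨166, 59, 150⟩, ⟨-2, 1, 0⟩, 4),
(⟨91, 88, 167⟩, ⟨125, 93, 119⟩, ⟨-1, 0, 0⟩, 4),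
(⟨159, 73, 151⟩, ⟨166, 59, 150⟩, ⟨-3, 1, 2⟩, 4),
(⟨91, 88, 167⟩, ⟨125, 96, 93⟩, ⟨-1, 1, -1⟩, 4),
(⟨159, 73, 151⟩, ⟨57, 166, 150⟩, ⟨-3, 2, 2⟩, 4),
(⟨81, 88, 91⟩, ⟨125, 96, 93⟩, ⟨0, 0, -2⟩, 4),
(⟨73, 149, 151⟩, ⟨57, 166, 150⟩, ⟨1, 4, -1⟩, 3),
(⟨81, 88, 91⟩, ⟨82, 93, 96⟩, ⟨0, 0, -2⟩, 4),
(⟨73, 149, 151⟩, ⟨57, 165, 166⟩, ⟨1, -4, -2⟩, 3),
(⟨81, 88, 91⟩, ⟨82, 92, 93⟩, ⟨0, 0, -1⟩, 4),
(⟨78, 149, 73⟩, ⟨57, 165, 166⟩, ⟨1, -4, -2⟩, 3),
(⟨81, 87, 88⟩, ⟨82, 92, 93⟩, ⟨0, 0, -1⟩, 4),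
(⟨25, 78, 73⟩, ⟨57, 165, 166⟩, ⟨4, -2, -2⟩, 3),
(⟨87, 145, 88⟩, ⟨82, 92, 93⟩, ⟨2, -2, -1⟩, 4),
(⟨25, 73, 72⟩, ⟨57, 165, 166⟩, ⟨4, -2, -2⟩, 2),
(⟨68, 145, 87⟩, ⟨82, 92, 93⟩, ⟨2, -2, -1⟩, 4),
(⟨25, 73, 72⟩, ⟨57, 60, 165⟩, ⟨4, -2, -2⟩, 2),
(⟨81, 68, 87⟩, ⟨82, 92, 93⟩, ⟨2, -3, -2⟩, 4),
(⟨25, 73, 72⟩, ⟨17, 60, 57⟩, ⟨-3, -2, -1⟩, 4),
(⟨81, 68, 87⟩, ⟨82, 48, 92⟩, ⟨0, 0, -1⟩, 4),
(⟨25, 73, 72⟩, ⟨17, 57, 56⟩, ⟨-2, -1, -1⟩, 4),
(⟨68, 145, 87⟩, ⟨82, 48, 92⟩, ⟨-1, 1, -1⟩, 4),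
(⟨25, 73, 72⟩, ⟨83, 56, 57⟩, ⟨1, 2, -1⟩, 4),
(⟨68, 108, 145⟩, ⟨82, 48, 92⟩, ⟨-1, 1, -1⟩, 4),
(⟨25, 72, 62⟩, ⟨83, 56, 57⟩, ⟨4, 1, -3⟩, 2),
(⟨179, 108, 68⟩, ⟨82, 48, 92⟩, ⟨0, 0, 1⟩, 4),
(⟨25, 72, 62⟩, ⟨83, 43, 56⟩, ⟨4, 1, -3⟩, 4),
(⟨179, 108, 68⟩, ⟨82, 47, 48⟩, ⟨1, 1, 1⟩, 4),
(⟨62, 72, 104⟩, ⟨83, 43, 56⟩, ⟨1, -1, 1⟩, 4),
(⟨179, 108, 68⟩, ⟨16, 48, 47⟩, ⟨1, 1, 1⟩, 4),
(⟨62, 72, 104⟩, ⟨17, 56, 43⟩, ⟨0, -1, 1⟩, 4),
(⟨179, 108, 68⟩, ⟨16, 50, 48⟩, ⟨0, 1, 1⟩, 4),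
(⟨62, 72, 104⟩, ⟨14, 17, 43⟩, ⟨0, -1, 1⟩, 4),
(⟨179, 68, 178⟩, ⟨16, 50, 48⟩, ⟨0, 1, 1⟩, 4),
(⟨62, 104, 102⟩, ⟨14, 17, 43⟩, ⟨1, -1, 3⟩, 4),
(⟨178, 68, 69⟩, ⟨16, 50, 48⟩, ⟨0, 0, 1⟩, 4),
(⟨62, 104, 102⟩, ⟨17, 56, 43⟩, ⟨1, -1, 2⟩, 4),
(⟨178, 68, 69⟩, ⟨16, 51, 50⟩, ⟨0, 3, 2⟩, 4),
(⟨62, 104, 102⟩, ⟨83, 43, 56⟩, ⟨2, -1, 3⟩, 4),
(⟨178, 68, 69⟩, ⟨111, 50, 51⟩, ⟨0, 2, 1⟩, 4),
(⟨62, 104, 102⟩, ⟨80, 43, 83⟩, ⟨1, -1, 2⟩, 4),
(⟨178, 69, 177⟩, ⟨111, 50, 51⟩, ⟨0, 2, 2⟩, 4),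
(⟨62, 104, 102⟩, ⟨80, 81, 43⟩, ⟨1, -1, 3⟩, 4),
(⟨177, 69, 61⟩, ⟨111, 50, 51⟩, ⟨0, 0, 1⟩, 4),
(⟨62, 104, 102⟩, ⟨81, 44, 43⟩, ⟨1, -1, 3⟩, 4),
(⟨177, 69, 61⟩, ⟨111, 51, 116⟩, ⟨0, 0, 1⟩, 4),
(⟨62, 102, 103⟩, ⟨81, 44, 43⟩, ⟨1, -2, 2⟩, 4),
(⟨21, 61, 69⟩, ⟨111, 51, 116⟩, ⟨0, -2, -1⟩, 8),
(⟨62, 103, 63⟩, ⟨81, 44, 43⟩, ⟨1, -1, 0⟩, 4),
(⟨21, 61, 69⟩, ⟨111, 116, 115⟩, ⟨1, -3, -1⟩, 4),
(⟨103, 105, 63⟩, ⟨81, 44, 43⟩, ⟨1, -1, 1⟩, 4),
(⟨177, 69, 61⟩, ⟨111, 116, 115⟩, ⟨1, 0, 1⟩, 4),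
(⟨63, 105, 64⟩, ⟨81, 44, 43⟩, ⟨1, -1, 1⟩, 4),
(⟨177, 69, 61⟩, ⟨111, 115, 113⟩, ⟨1, 0, 1⟩, 4),
(⟨63, 105, 64⟩, ⟨81, 45, 44⟩, ⟨2, 1, -1⟩, 4),
(⟨177, 69, 61⟩, ⟨111, 113, 114⟩, ⟨1, 0, 0⟩, 4),
(⟨63, 105, 64⟩, ⟨15, 44, 45⟩, ⟨0, 4, 1⟩, 4),
(⟨102, 177, 61⟩, ⟨111, 113, 114⟩, ⟨1, 0, 0⟩, 4),
(⟨20, 63, 64⟩, ⟨15, 44, 45⟩, ⟨-1, 1, 0⟩, 4),
(⟨102, 177, 61⟩, ⟨111, 114, 112⟩, ⟨1, 0, 0⟩, 4),
(⟨20, 64, 65⟩, ⟨15, 44, 45⟩, ⟨-1, 1, 0⟩, 4),
(⟨102, 61, 103⟩, ⟨111, 114, 112⟩, ⟨1, 0, 0⟩, 4),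
(⟨20, 64, 65⟩, ⟨81, 45, 44⟩, ⟨-1, -2, -2⟩, 4),
(⟨102, 61, 103⟩, ⟨111, 113, 114⟩, ⟨1, 0, 0⟩, 4),
(⟨20, 64, 65⟩, ⟨81, 89, 45⟩, ⟨-1, -2, -1⟩, 4),
(⟨103, 61, 65⟩, ⟨111, 113, 114⟩, ⟨1, 0, 0⟩, 4),
(⟨20, 64, 65⟩, ⟨45, 89, 159⟩, ⟨-1, -1, -1⟩, 4),
(⟨103, 61, 65⟩, ⟨111, 115, 113⟩, ⟨2, 3, 7⟩, 8),
(⟨20, 64, 65⟩, ⟨45, 159, 52⟩, ⟨0, 0, -1⟩, 4),
(⟨20, 65, 61⟩, ⟨111, 115, 113⟩, ⟨-3, -1, -1⟩, 4),
(⟨20, 64, 65⟩, ⟨16, 45, 52⟩, ⟨0, 0, -1⟩, 4),
(⟨20, 65, 61⟩, ⟨113, 115, 120⟩, ⟨-4, -1, -1⟩, 2),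
(⟨20, 64, 65⟩, ⟨16, 46, 45⟩, ⟨-2, 1, -2⟩, 4),
(⟨20, 65, 61⟩, ⟨113, 120, 114⟩, ⟨-1, -2, -2⟩, 4),
(⟨103, 65, 64⟩, ⟨16, 46, 45⟩, ⟨-3, 2, -2⟩, 4),
(⟨20, 64, 65⟩, ⟨113, 120, 114⟩, ⟨0, -1, -1⟩, 4),
(⟨103, 65, 64⟩, ⟨16, 45, 52⟩, ⟨-3, 1, 1⟩, 4),
(⟨20, 64, 65⟩, ⟨113, 115, 120⟩, ⟨-1, 2, -1⟩, 4),
(⟨103, 64, 106⟩, ⟨16, 45, 52⟩, ⟨-3, 1, 0⟩, 4),
(⟨20, 64, 65⟩, ⟨115, 116, 120⟩, ⟨-1, 2, -1⟩, 4),
(⟨103, 106, 107⟩, ⟨16, 45, 52⟩, ⟨-4, 2, -2⟩, 3),
(⟨20, 64, 65⟩, ⟨116, 55, 120⟩, ⟨-1, 0, 0⟩, 4),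
(⟨103, 106, 107⟩, ⟨16, 52, 53⟩, ⟨-2, 0, 1⟩, 4),
(⟨103, 65, 64⟩, ⟨116, 55, 120⟩, ⟨-2, 1, 0⟩, 4),
(⟨103, 106, 107⟩, ⟨52, 159, 53⟩, ⟨2, 1, 1⟩, 4),
(⟨103, 64, 106⟩, ⟨116, 55, 120⟩, ⟨-1, 1, -1⟩, 4),
(⟨103, 107, 105⟩, ⟨52, 159, 53⟩, ⟨1, 1, -1⟩, 4),
(⟨103, 64, 106⟩, ⟨120, 55, 54⟩, ⟨-2, 1, 0⟩, 4),
(⟨103, 107, 105⟩, ⟨159, 161, 53⟩, ⟨1, 0, 0⟩, 4),
(⟨103, 64, 106⟩, ⟨120, 54, 53⟩, ⟨-2, 1, 0⟩, 4),
(⟨103, 107, 105⟩, ⟨120, 53, 161⟩, ⟨2, 1, -1⟩, 4),
(⟨64, 160, 106⟩, ⟨120, 54, 53⟩, ⟨-1, 0, -1⟩, 4),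
(⟨64, 105, 107⟩, ⟨120, 53, 161⟩, ⟨0, -1, -2⟩, 4),
(⟨64, 107, 160⟩, ⟨120, 54, 53⟩, ⟨-1, 0, -1⟩, 4),
(⟨64, 105, 107⟩, ⟨120, 54, 53⟩, ⟨-3, 1, -1⟩, 4),
(⟨21, 66, 23⟩, ⟨4, 28, 7⟩, ⟨3, -1, -1⟩, 4),
(⟨26, 23, 66⟩, ⟨4, 28, 7⟩, ⟨4, 0, -1⟩, 4),
(⟨21, 66, 23⟩, ⟨7, 28, 40⟩, ⟨3, -1, 0⟩, 4),
(⟨26, 66, 79⟩, ⟨4, 28, 7⟩, ⟨4, 0, -2⟩, 4),
(⟨21, 66, 23⟩, ⟨28, 86, 40⟩, ⟨3, -2, 1⟩, 4),
(⟨26, 66, 79⟩, ⟨7, 28, 40⟩, ⟨3, -1, 0⟩, 4),
(⟨21, 66, 23⟩, ⟨28, 85, 86⟩, ⟨3, -2, 1⟩, 4),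
(⟨66, 83, 79⟩, ⟨7, 28, 40⟩, ⟨1, -3, 2⟩, 4),
(⟨21, 66, 23⟩, ⟨28, 84, 85⟩, ⟨3, -2, 2⟩, 4),
(⟨66, 83, 79⟩, ⟨7, 40, 41⟩, ⟨1, -4, 2⟩, 4),
(⟨21, 66, 23⟩, ⟨28, 32, 84⟩, ⟨3, -3, 2⟩, 4),
(⟨83, 77, 79⟩, ⟨7, 40, 41⟩, ⟨-4, -2, 1⟩, 3),
(⟨21, 67, 66⟩, ⟨28, 32, 84⟩, ⟨1, -3, 2⟩, 4),
(⟨83, 77, 79⟩, ⟨40, 86, 41⟩, ⟨-2, 2, 1⟩, 4),
(⟨21, 67, 66⟩, ⟨32, 33, 84⟩, ⟨1, -3, 2⟩, 4),
(⟨83, 77, 79⟩, ⟨86, 101, 41⟩, ⟨-3, 2, 1⟩, 4),
(⟨21, 67, 66⟩, ⟨5, 33, 32⟩, ⟨2, -2, 2⟩, 4),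
(⟨83, 77, 79⟩, ⟨41, 101, 148⟩, ⟨1, -1, 1⟩, 4),
(⟨21, 68, 67⟩, ⟨5, 33, 32⟩, ⟨2, -2, 1⟩, 4),
(⟨26, 79, 77⟩, ⟨41, 101, 148⟩, ⟨1, -1, 1⟩, 4),
(⟨21, 68, 67⟩, ⟨32, 33, 84⟩, ⟨1, 0, -2⟩, 4),
(⟨26, 77, 75⟩, ⟨41, 101, 148⟩, ⟨4, 2, 0⟩, 3),
(⟨21, 69, 68⟩, ⟨32, 33, 84⟩, ⟨1, 0, -1⟩, 4),
(⟨25, 75, 77⟩, ⟨41, 101, 148⟩, ⟨4, 3, 1⟩, 4),
(⟨21, 69, 68⟩, ⟨84, 33, 85⟩, ⟨1, 0, -1⟩, 4),
(⟨25, 77, 78⟩, ⟨41, 101, 148⟩, ⟨1, 0, 2⟩, 4),
(⟨21, 69, 68⟩, ⟨86, 85, 33⟩, ⟨0, 0, -1⟩, 4),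
(⟨25, 77, 78⟩, ⟨41, 148, 142⟩, ⟨2, 0, 1⟩, 4),
(⟨21, 69, 68⟩, ⟨86, 33, 100⟩, ⟨0, 0, -1⟩, 4),
(⟨77, 147, 78⟩, ⟨41, 148, 142⟩, ⟨1, -1, 1⟩, 4),
(⟨21, 68, 67⟩, ⟨86, 33, 100⟩, ⟨0, 0, -1⟩, 4),
(⟨77, 147, 78⟩, ⟨142, 148, 97⟩, ⟨1, -4, -1⟩, 3),
(⟨81, 67, 68⟩, ⟨86, 33, 100⟩, ⟨0, 0, -2⟩, 4),
(⟨147, 149, 78⟩, ⟨142, 148, 97⟩, ⟨-2, -4, -1⟩, 2),
(⟨81, 68, 87⟩, ⟨86, 33, 100⟩, ⟨0, 0, -2⟩, 4),
(⟨78, 149, 73⟩, ⟨142, 148, 97⟩, ⟨-2, -4, 0⟩, 2),
(⟨68, 145, 87⟩, ⟨86, 33, 100⟩, ⟨-1, 0, -3⟩, 4),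
(⟨78, 149, 73⟩, ⟨148, 153, 97⟩, ⟨-1, -4, -1⟩, 2),
(⟨68, 108, 145⟩, ⟨86, 33, 100⟩, ⟨-1, 1, -3⟩, 4),
(⟨25, 78, 73⟩, ⟨148, 153, 97⟩, ⟨8, -2, -3⟩, 4),
(⟨68, 108, 145⟩, ⟨33, 146, 100⟩, ⟨0, -3, 0⟩, 4),
(⟨25, 73, 72⟩, ⟨148, 153, 97⟩, ⟨4, -1, -1⟩, 2),
(⟨68, 108, 145⟩, ⟨146, 37, 100⟩, ⟨0, -3, 0⟩, 4),
(⟨25, 73, 72⟩, ⟨97, 153, 164⟩, ⟨4, -4, -3⟩, 3),
(⟨68, 108, 145⟩, ⟨86, 100, 37⟩, ⟨1, -2, -3⟩, 4),
(⟨25, 78, 73⟩, ⟨97, 153, 164⟩, ⟨4, -4, -4⟩, 3),
(⟨145, 108, 88⟩, ⟨86, 100, 37⟩, ⟨1, -2, -4⟩, 4),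
(⟨78, 149, 73⟩, ⟨97, 153, 164⟩, ⟨0, -4, -2⟩, 3),
(⟨145, 108, 88⟩, ⟨86, 37, 101⟩, ⟨1, -2, -3⟩, 4),
(⟨78, 149, 73⟩, ⟨97, 164, 98⟩, ⟨0, -1, -3⟩, 4),
(⟨87, 145, 88⟩, ⟨86, 37, 101⟩, ⟨-1, -1, -3⟩, 4),
(⟨73, 149, 151⟩, ⟨97, 164, 98⟩, ⟨0, -1, -3⟩, 4),
(⟨87, 145, 88⟩, ⟨148, 101, 37⟩, ⟨2, -2, -2⟩, 4),
(⟨159, 73, 151⟩, ⟨97, 164, 98⟩, ⟨0, -1, -1⟩, 4),
(⟨81, 87, 88⟩, ⟨148, 101, 37⟩, ⟨1, -1, -2⟩, 4),
(⟨159, 109, 73⟩, ⟨97, 164, 98⟩, ⟨-1, -1, 0⟩, 4),
(⟨81, 88, 91⟩, ⟨148, 101, 37⟩, ⟨1, -1, -2⟩, 4),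
(⟨159, 185, 109⟩, ⟨97, 164, 98⟩, ⟨-2, -3, 1⟩, 4),
(⟨81, 88, 91⟩, ⟨148, 37, 38⟩, ⟨1, -1, -2⟩, 4),
(⟨159, 185, 109⟩, ⟨98, 164, 186⟩, ⟨-1, -4, -1⟩, 4),
(⟨81, 88, 91⟩, ⟨148, 38, 35⟩, ⟨1, -1, -2⟩, 4),
(⟨185, 187, 109⟩, ⟨98, 164, 186⟩, ⟨-2, -3, 1⟩, 4),
(⟨81, 88, 91⟩, ⟨5, 35, 38⟩, ⟨4, -1, 3⟩, 4),
(⟨181, 109, 187⟩, ⟨98, 164, 186⟩, ⟨1, -1, 3⟩, 4),
(⟨81, 91, 90⟩, ⟨5, 35, 38⟩, ⟨4, -1, 3⟩, 8),
(⟨181, 109, 187⟩, ⟨82, 98, 186⟩, ⟨1, 1, 2⟩, 4),
(⟨81, 91, 90⟩, ⟨5, 34, 35⟩, ⟨3, 1, 1⟩, 4),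
(⟨185, 187, 109⟩, ⟨82, 98, 186⟩, ⟨-1, 1, 0⟩, 4),
(⟨81, 90, 89⟩, ⟨5, 34, 35⟩, ⟨3, 1, 1⟩, 4),
(⟨185, 187, 109⟩, ⟨82, 186, 35⟩, ⟨1, 5, -6⟩, 8),
(⟨185, 89, 90⟩, ⟨5, 34, 35⟩, ⟨2, 1, 1⟩, 4),
(⟨185, 90, 187⟩, ⟨82, 186, 35⟩, ⟨1, 4, -6⟩, 8),
(⟨185, 90, 187⟩, ⟨5, 34, 35⟩, ⟨2, 1, 1⟩, 4),
(⟨185, 90, 187⟩, ⟨82, 35, 34⟩, ⟨1, 5, -6⟩, 8),
(⟨181, 187, 90⟩, ⟨5, 34, 35⟩, ⟨1, 1, 0⟩, 4),
(⟨181, 187, 90⟩, ⟨82, 35, 34⟩, ⟨1, 1, 1⟩, 4),
(⟨182, 181, 90⟩, ⟨5, 34, 35⟩, ⟨1, 1, 0⟩, 4),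
(⟨182, 181, 90⟩, ⟨82, 35, 34⟩, ⟨1, 1, 1⟩, 4),
(⟨182, 90, 110⟩, ⟨5, 34, 35⟩, ⟨1, 1, 0⟩, 4),
(⟨182, 181, 90⟩, ⟨82, 186, 35⟩, ⟨1, 1, 1⟩, 8),
(⟨182, 90, 110⟩, ⟨5, 35, 38⟩, ⟨1, 0, 1⟩, 8),
(⟨182, 181, 90⟩, ⟨186, 164, 35⟩, ⟨1, 0, 3⟩, 4),
(⟨182, 90, 110⟩, ⟨148, 38, 35⟩, ⟨1, 1, 1⟩, 4),
(⟨182, 90, 110⟩, ⟨186, 164, 35⟩, ⟨1, 3, 3⟩, 4),
(⟨182, 90, 110⟩, ⟨148, 35, 155⟩, ⟨2, 4, 4⟩, 2),
(⟨182, 90, 110⟩, ⟨164, 155, 35⟩, ⟨2, 4, 4⟩, 2)]

end Pool.Agent.Work.MP_48319b_gt.Dat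

end
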