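import Pool.Agent.Work.MP_48319b_gt.Bd.B02
import Pool.Agent.Work.MP_48319b_gt.Stmts3
import Pool.Agent.Work.MP_48319b_gt.RunMono

/-! Bundle of small proof modules (one section per former module). -/

section

namespace Pool.Agent.Work.MP_48319b_gt.Dat

theorem runW_0 : loopN (decW cw6) (decW cw7) 23 (recs.drop 0) (codesW.drop 0)
    (cusW.drop 0) = true := by decide +kernel

theorem runW_23 : loopN (decW cw6) (decW cw7) 23 (recs.drop 23) (codesW.drop 23)
    (cusW.drop 23) = true := by decide +kernel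

theorem runW_46 : loopN (decW cw6) (decW cw7) 23 (recs.drop 46) (codesW.drop 46)
    (cusW.drop 46) = true := by decide +kernel

theorem runW_69 : loopN (decW cw6) (decW cw7) 23 (recs.drop 69) (codesW.drop 69)
    (cusW.drop 69) = true := by decide +kernel

theorem runW_92 : loopN (decW cw6) (decW cw7) 23 (recs.drop 92) (codesW.drop 92)
    (cusW.drop 92) = true := by decide +kernel

theorem runW_115 : loopN (decW cw6) (decW cw7) 23 (recs.drop 115) (codesW.drop 115)
    (cusW.drop 115) = true := by decide +kernel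

theorem runW_138 : loopN (decW cw6) (decW cw7) 23 (recs.drop 138) (codesW.drop 138)
    (cusW.drop 138) = true := by decide +kernel

theorem runW_161 : loopN (decW cw6) (decW cw7) 23 (recs.drop 161) (codesW.drop 161)
    (cusW.drop 161) = true := by decide +kernel

theorem runW_184 : loopN (decW cw6) (decW cw7) 23 (recs.drop 184) (codesW.drop 184)
    (cusW.drop 184) = true := by decide +kernel

theorem runW_207 : loopN (decW cw6) (decW cw7) 23 (recs.drop 207) (codesW.drop 207)
    (cusW.drop 207) = true := by decide +kernel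

theorem runW_230 : loopN (decW cw6) (decW cw7) 23 (recs.drop 230) (codesW.drop 230)
    (cusW.drop 230) = true := by decide +kernel

theorem runW_253 : loopN (decW cw6) (decW cw7) 23 (recs.drop 253) (codesW.drop 253)
    (cusW.drop 253) = true := by decide +kernel

theorem runW_276 : loopN (decW cw6) (decW cw7) 23 (recs.drop 276) (codesW.drop 276)
    (cusW.drop 276) = true := by decide +kernel

theorem runW_299 : loopN (decW cw6) (decW cw7) 23 (recs.drop 299) (codesW.drop 299)
    (cusW.drop 299) = true := by decide +kernel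

theorem runW_322 : loopN (decW cw6) (decW cw7) 23 (recs.drop 322) (codesW.drop 322)
    (cusW.drop 322) = true := by decide +kernel

theorem runW_345 : loopN (decW cw6) (decW cw7) 23 (recs.drop 345) (codesW.drop 345)
    (cusW.drop 345) = true := by decide +kernel

theorem runW_end : loop (decW cw6) (decW cw7) (recs.drop 368) (codesW.drop 368)
    (cusW.drop 368) = true := by decide +kernel

theorem runW : loop (decW cw6) (decW cw7) recs codesW cusW = true :=
  loop_step 0 23 23 rfl runW_0 <|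
  loop_step 23 23 46 rfl runW_23 <|
  loop_step 46 23 69 rfl runW_46 <|
  loop_step 69 23 92 rfl runW_69 <|
  loop_step 92 23 115 rfl runW_92 <|
  loop_step 115 23 138 rfl runW_115 <|
  loop_step 138 23 161 rfl runW_138 <|
  loop_step 161 23 184 rfl runW_161 <|
  loop_step 184 23 207 rfl runW_184 <|
  loop_step 207 23 230 rfl runW_207 <|
  loop_step 230 23 253 rfl runW_230 <|
  loop_step 253 23 276 rfl runW_253 <|
  loop_step 276 23 299 rfl runW_276 <|
  loop_step 299 23 322 rfl runW_299 <|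
  loop_step 322 23 345 rfl runW_322 <|
  loop_step 345 23 368 rfl runW_345 <|
  runW_end

end Pool.Agent.Work.MP_48319b_gt.Dat

end

section

/-!
# MP_48319b_gt : item D3 (monotone certificates and normals)
-/

open Metric Set Topology

namespace Pool.Agent.Work.MP_48319b_gt.Dat

namespace ItemMono

/-- a binary quadratic form which passes the check is positive definite -/
theorem qf_pos {s11 s12 s22 : ℤ} (h : qf s11 s12 s22 = true) {s r : ℝ} (hs : s ≠ 0 ∨ r ≠ 0) :
    0 < (s11 : ℝ) * s ^ 2 + s12 * (s * r) + s22 * r ^ 2 := by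
  unfold qf at h
  rw [Bool.and_eq_true] at h
  have h1 : (0 : ℝ) < s11 := by exact_mod_cast posI_pos h.1
  have h2 : (0 : ℝ) < 4 * s11 * s22 - s12 * s12 := by exact_mod_cast posI_pos h.2
  have key : 4 * (s11 : ℝ) * ((s11 : ℝ) * s ^ 2 + s12 * (s * r) + s22 * r ^ 2) =
      (2 * s11 * s + s12 * r) ^ 2 + (4 * s11 * s22 - s12 * s12) * r ^ 2 := by ring
  have hpos : 0 < (2 * s11 * s + s12 * r) ^ 2 + (4 * s11 * s22 - s12 * s12) * r ^ 2 := by
    by_cases hr : r = 0
    · subst hr
      have hs' : s ≠ 0 := hs.resolve_right (fun h => h rfl)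
      have : (2 * (s11 : ℝ) * s + s12 * 0) ^ 2 + (4 * s11 * s22 - s12 * s12) * 0 ^ 2 =
          4 * (s11 : ℝ) ^ 2 * s ^ 2 := by ring
      rw [this]
      positivity
    · have h3 : 0 < r ^ 2 := by positivity
      have h4 := mul_pos h2 h3
      have h5 := sq_nonneg (2 * (s11 : ℝ) * s + s12 * r)
      linarith
  rw [← key] at hpos
  exact (mul_pos_iff_of_pos_left (by linarith)).1 hpos

theorem r2_sub (p q : P2) : r2 p - r2 q = r2 (sub2 p q) := by
  ext i
  fin_cases i <;> simp [r2, sub2] <;> ring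

theorem r3_sub (p q : P3) : r3 p - r3 q = r3 (sub3 p q) := by
  ext i
  fin_cases i <;> simp [r3, sub3] <;> ring

theorem inner_eq (u v : E2) : inner ℝ u v = u 0 * v 0 + u 1 * v 1 := by
  simp [PiLp.inner_apply, Fin.sum_univ_two, mul_comm]

theorem Q_apply (v : ℕ) (y : E3) : Q v y = !₂[(q1I v).x * y 0 + (q1I v).y * y 1 + (q1I v).z * y 2,
    (q2I v).x * y 0 + (q2I v).y * y 1 + (q2I v).z * y 2] := rfl

theorem posb_sound {u1 u2 : P2} {y1 y2 : P3} {v : ℕ}
    (h : posb u1 u2 y1 y2 (q1I v) (q2I v) = true) {s r : ℝ} (hs : s ≠ 0 ∨ r ≠ 0) :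
    0 < inner ℝ (s • r2 u1 + r • r2 u2) (Q v (s • r3 y1 + r • r3 y2)) := by
  have h1 := qf_pos h hs
  rw [inner_eq, Q_apply]
  have h2 : (0 : ℝ) < 1 / 10 ^ 14 := by positivity
  refine lt_of_lt_of_eq (mul_pos h2 h1) ?_
  simp only [r2, r3, app, dot2, dot3]
  simp
  ring

theorem posT_of {u1 u2 : P2} {y1 y2 : P3} {v : ℕ} {φ : ℕ → E3} {t : Tri}
    (h : posb u1 u2 y1 y2 (q1I v) (q2I v) = true)
    (e1 : pos t.b - pos t.a = r2 u1) (e2 : pos t.c - pos t.a = r2 u2)
    (e3 : φ t.b - φ t.a = r3 y1) (e4 : φ t.c - φ t.a = r3 y2) : PosT pos φ t (Q v) := by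
  intro s r hs
  rw [e1, e2, e3, e4]
  exact posb_sound h hs

theorem det3_sound {u v w : P3} (h : posI (det3I u v w) = true) :
    0 < det3 (r3 u) (r3 v) (r3 w) := by
  have h1 : (0 : ℝ) < (det3I u v w : ℤ) := by exact_mod_cast posI_pos h
  have h2 : (0 : ℝ) < 1 / 10 ^ 21 := by positivity
  refine lt_of_lt_of_eq (mul_pos h2 h1) ?_
  simp only [r3, det3, det3I]
  simp
  ring

theorem chkT_of {t : Tri} (ht : t ∈ F) : chkT t = true := by
  have h := runT
  rw [List.all_eq_true] at h
  exact h t ht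

theorem pos_sub (a b : ℕ) : pos a - pos b = r2 (sub2 (dI a) (dI b)) := r2_sub _ _
theorem Y_sub (a b : ℕ) : Y a - Y b = r3 (sub3 (yI a) (yI b)) := r3_sub _ _
theorem Y0_sub (a b : ℕ) : Y0 a - Y0 b = r3 (sub3 (y0I a) (y0I b)) := r3_sub _ _

theorem mem_cases {t : Tri} {v : ℕ} (hv : v ∈ t.vs) : v = t.a ∨ v = t.b ∨ v = t.c := by
  simpa only [Tri.vs, List.mem_cons, List.not_mem_nil, or_false] using hv

theorem chkT_all {t : Tri} (ht : t ∈ F) {v : ℕ} (hv : v ∈ t.vs) :
    PosT pos Y t (Q v) ∧ PosT pos Y0 t (Q v) ∧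
      0 < det3 (Y0 t.b - Y0 t.a) (Y0 t.c - Y0 t.a) (N v) := by
  have h := chkT_of ht
  simp only [chkT, tri3, Bool.and_eq_true] at h
  obtain ⟨⟨⟨⟨⟨⟨⟨⟨h1, h2⟩, h3⟩, h4⟩, h5⟩, h6⟩, h7⟩, h8⟩, h9⟩ := h
  rcases mem_cases hv with rfl | rfl | rfl
  · refine ⟨posT_of h1 (pos_sub _ _) (pos_sub _ _) (Y_sub _ _) (Y_sub _ _),
      posT_of h4 (pos_sub _ _) (pos_sub _ _) (Y0_sub _ _) (Y0_sub _ _), ?_⟩
    rw [Y0_sub, Y0_sub]; exact det3_sound h7
  · refine ⟨posT_of h2 (pos_sub _ _) (pos_sub _ _) (Y_sub _ _) (Y_sub _ _),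
      posT_of h5 (pos_sub _ _) (pos_sub _ _) (Y0_sub _ _) (Y0_sub _ _), ?_⟩
    rw [Y0_sub, Y0_sub]; exact det3_sound h8
  · refine ⟨posT_of h3 (pos_sub _ _) (pos_sub _ _) (Y_sub _ _) (Y_sub _ _),
      posT_of h6 (pos_sub _ _) (pos_sub _ _) (Y0_sub _ _) (Y0_sub _ _), ?_⟩
    rw [Y0_sub, Y0_sub]; exact det3_sound h9

theorem bdV_sound {v : ℕ} (h : bdV v = true) :
    (∀ u : E2, u ≠ 0 → 0 < inner ℝ u (Q v (emb u))) ∧ 0 < (N v) 2 := by
  simp only [bdV, Bool.and_eq_true] at h
  constructor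
  · intro u hu
    have hs : u 0 ≠ 0 ∨ u 1 ≠ 0 := by
      by_contra hc
      push Not at hc
      apply hu
      ext i
      fin_cases i
      · exact hc.1
      · exact hc.2
    have h1 := qf_pos h.1 hs
    rw [inner_eq, Q_apply]
    refine lt_of_lt_of_eq h1 ?_
    simp only [emb]
    simp
    ring
  · have h1 : (0 : ℝ) < (nI v).z := by exact_mod_cast posI_pos h.2
    have h2 : N v 2 = (nI v).z / 10 ^ 7 := by simp [N, r3]
    rw [h2]
    positivity

theorem bdV_of {e : ℕ × ℕ} (he : e ∈ bd) {v : ℕ} (hv : v ∈ [e.1, e.2]) : bdV v = true := by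
  have h := runB
  rw [chkB, List.all_eq_true] at h
  have h1 := h e he
  rw [Bool.and_eq_true] at h1
  simp only [List.mem_cons, List.not_mem_nil, or_false] at hv
  rcases hv with rfl | rfl
  · exact h1.1
  · exact h1.2

theorem lk_default {α : Type} (l : List (List α)) (e : α) (v : ℕ) (h : l.length ≤ v / 16) :
    lk l e v = e := by
  unfold lk
  rw [List.getD_eq_default _ _ h]
  simp

theorem lenQ1 : tabQ1.length = 12 := by decide +kernel
theorem lenQ2 : tabQ2.length = 12 := by decide +kernel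

theorem ker_sound (v : ℕ) : Q v (N v) = 0 := by
  have h : dot3 (q1I v) (nI v) = 0 ∧ dot3 (q2I v) (nI v) = 0 := by
    by_cases hv : v < 192
    · have h := runK
      rw [chkK, List.all_eq_true] at h
      have h1 := h v (List.mem_range.2 hv)
      simpa only [kerV, Bool.and_eq_true, decide_eq_true_eq] using h1
    · have h1 : q1I v = ⟨0, 0, 0⟩ := lk_default _ _ _ (by rw [lenQ1]; omega)
      have h2 : q2I v = ⟨0, 0, 0⟩ := lk_default _ _ _ (by rw [lenQ2]; omega)
      rw [h1, h2]
      simp [dot3]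
  obtain ⟨h1, h2⟩ := h
  have h1' : ((q1I v).x : ℝ) * (nI v).x + (q1I v).y * (nI v).y + (q1I v).z * (nI v).z = 0 := by
    exact_mod_cast h1
  have h2' : ((q2I v).x : ℝ) * (nI v).x + (q2I v).y * (nI v).y + (q2I v).z * (nI v).z = 0 := by
    exact_mod_cast h2
  rw [Q_apply]
  ext i
  fin_cases i
  · simp [N, r3]
    linear_combination (1 / 10 ^ 7) * h1'
  · simp [N, r3]
    linear_combination (1 / 10 ^ 7) * h2'

end ItemMono

open ItemMono

/-- [48319b D3] -/
theorem stMono : StMono where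
  mono :=
    { tri := fun _ ht _ hv => (chkT_all ht hv).1
      out := fun _ he _ hv => (bdV_sound (bdV_of he hv)).1 }
  mono0 :=
    { tri := fun _ ht _ hv => (chkT_all ht hv).2.1
      out := fun _ he _ hv => (bdV_sound (bdV_of he hv)).1 }
  norm0 :=
    { ker := ker_sound
      tri := fun _ ht _ hv => (chkT_all ht hv).2.2
      out := fun _ he _ hv => (bdV_sound (bdV_of he hv)).2 }

end Pool.Agent.Work.MP_48319b_gt.Dat

end
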