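import Pool.Agent.Work.MP_48319b_gt.GenAChk
import Pool.Agent.Work.MP_48319b_gt.Stmts3
import Pool.Agent.Work.MP_48319b_gt.Assembly
import Pool.Agent.Work.MP_48319b_gt.BiLipThm
import Pool.Agent.Work.MP_48319b_gt.Bd.B01
import Pool.Agent.Work.MP_48319b_gt.CovThm
import Pool.Agent.Work.MP_48319b_gt.Bd.B02
import Pool.Agent.Work.MP_48319b_gt.CoverThm
import Pool.Agent.Work.MP_48319b_gt.DDNear
import Pool.Agent.Work.MP_48319b_gt.ExtThm
import Pool.Agent.Work.MP_48319b_gt.FibThm
import Pool.Agent.Work.MP_48319b_gt.GPThm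
import Pool.Agent.Work.MP_48319b_gt.PieceThm
import Pool.Agent.Work.MP_48319b_gt.RoundAbelian
import Pool.Agent.Work.MP_48319b_gt.SideVE
import Pool.Agent.Work.MP_48319b_gt.SignDataThm
import Pool.Agent.Work.MP_48319b_gt.TripleThm
import Pool.Agent.Work.MP_48319b_gt.UnifMonoThm
import Pool.Agent.Work.MP_48319b_gt.ColChk
import Pool.Agent.Work.MP_48319b_gt.RecsOK
import Pool.Agent.Work.MP_48319b_gt.Bd.B05

/-! Bundle of small proof modules (one section per former module). -/

section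

namespace Pool.Agent.Work.MP_48319b_gt.Dat.GenA

/-- the first `m` elements -/
def lpN : ℕ → List (Tri × Tri) → List (Tri × Tri × P3 × ℤ) → Bool
  | 0, _, _ => true
  | _ + 1, [], _ => true
  | _ + 1, _ :: _, [] => false
  | m + 1, p :: ps, q :: qs => one p q && lpN m ps qs

theorem lp_of_lpN (m : ℕ) : ∀ (l : List (Tri × Tri)) (c : List (Tri × Tri × P3 × ℤ)),
    lpN m l c = true → lp (l.drop m) (c.drop m) = true → lp l c = true := by
  induction m with
  | zero => intro l c _ h; simpa using h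
  | succ m ih =>
    intro l c h1 h2
    cases l with
    | nil => rfl
    | cons p ps =>
      cases c with
      | nil => simp [lpN] at h1
      | cons q qs =>
        simp only [lpN, Bool.and_eq_true] at h1
        simp only [lp, Bool.and_eq_true]
        exact ⟨h1.1, ih ps qs h1.2 (by simpa using h2)⟩

theorem lp_step {l : List (Tri × Tri)} {c : List (Tri × Tri × P3 × ℤ)} (a m b : ℕ)
    (hb : a + m = b) (h1 : lpN m (l.drop a) (c.drop a) = true)
    (h2 : lp (l.drop b) (c.drop b) = true) : lp (l.drop a) (c.drop a) = true := by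
  refine lp_of_lpN m _ _ h1 ?_
  rw [List.drop_drop, List.drop_drop, hb]
  exact h2

theorem lm_append (l l' : List (Tri × Tri)) : lm (l ++ l') = (lm l && lm l') := by
  induction l with
  | nil => rfl
  | cons p ps ih => simp only [List.cons_append, lm, ih, Bool.and_assoc]

theorem lm_step {l : List (Tri × Tri)} (a m b : ℕ) (hb : a + m = b)
    (h1 : lm ((l.drop a).take m) = true) (h2 : lm (l.drop b) = true) : lm (l.drop a) = true := by
  rw [← List.take_append_drop m (l.drop a), lm_append, h1, List.drop_drop, hb, h2]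
  rfl

theorem run1_0 : lpN 60 (X.drop 0) (aboveL.drop 0) = true := by decide +kernel

theorem run1_60 : lpN 60 (X.drop 60) (aboveL.drop 60) = true := by decide +kernel

theorem run1_120 : lpN 60 (X.drop 120) (aboveL.drop 120) = true := by decide +kernel

theorem run1_180 : lpN 60 (X.drop 180) (aboveL.drop 180) = true := by decide +kernel

theorem run1_240 : lpN 60 (X.drop 240) (aboveL.drop 240) = true := by decide +kernel

theorem run1_300 : lpN 60 (X.drop 300) (aboveL.drop 300) = true := by decide +kernel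

theorem run1_360 : lpN 60 (X.drop 360) (aboveL.drop 360) = true := by decide +kernel

theorem run1_420 : lpN 60 (X.drop 420) (aboveL.drop 420) = true := by decide +kernel

theorem run1_end : lp (X.drop 480) (aboveL.drop 480) = true := by decide +kernel

theorem run1 : lp X aboveL = true :=
  lp_step 0 60 60 rfl run1_0 <|
  lp_step 60 60 120 rfl run1_60 <|
  lp_step 120 60 180 rfl run1_120 <|
  lp_step 180 60 240 rfl run1_180 <|
  lp_step 240 60 300 rfl run1_240 <|
  lp_step 300 60 360 rfl run1_300 <|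
  lp_step 360 60 420 rfl run1_360 <|
  lp_step 420 60 480 rfl run1_420 <|
  run1_end

theorem run2_0 : lm ((X.drop 0).take 80) = true := by decide +kernel

theorem run2_80 : lm ((X.drop 80).take 80) = true := by decide +kernel

theorem run2_160 : lm ((X.drop 160).take 80) = true := by decide +kernel

theorem run2_240 : lm ((X.drop 240).take 80) = true := by decide +kernel

theorem run2_320 : lm ((X.drop 320).take 80) = true := by decide +kernel

theorem run2_400 : lm ((X.drop 400).take 80) = true := by decide +kernel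

theorem run2_end : lm (X.drop 480) = true := by decide +kernel

theorem run2 : lm X = true :=
  lm_step 0 80 80 rfl run2_0 <|
  lm_step 80 80 160 rfl run2_80 <|
  lm_step 160 80 240 rfl run2_160 <|
  lm_step 240 80 320 rfl run2_240 <|
  lm_step 320 80 400 rfl run2_320 <|
  lm_step 400 80 480 rfl run2_400 <|
  run2_end

end Pool.Agent.Work.MP_48319b_gt.Dat.GenA

end

section

/-!
# MP_48319b_gt, item D7: genericity of the crossing pairs
-/

namespace Pool.Agent.Work.MP_48319b_gt.Dat.GenA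

theorem posb_iff {a : ℤ} (h : posb a = true) : 0 < a := by
  unfold posb at h
  split at h
  · rename_i n
    rw [Nat.ble_eq] at h
    have : (Int.ofNat n : ℤ) = (n : ℤ) := rfl
    omega
  · cases h

theorem nzb_iff {a : ℤ} (h : nzb a = true) : a ≠ 0 := by
  unfold nzb at h
  split at h
  · rename_i n
    rw [Nat.ble_eq] at h
    have : (Int.ofNat n : ℤ) = (n : ℤ) := rfl
    omega
  · rename_i n
    have := Int.negSucc_lt_zero n
    omega

theorem teq_iff {t s : Tri} (h : teq t s = true) : t = s := by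
  unfold teq at h
  rw [Bool.and_eq_true, Bool.and_eq_true] at h
  obtain ⟨h1, h2, h3⟩ := h
  cases t; cases s
  simp only [Tri.mk.injEq]
  exact ⟨Nat.eq_of_beq_eq_true h1, Nat.eq_of_beq_eq_true h2, Nat.eq_of_beq_eq_true h3⟩

theorem memb_iff {t : Tri} {l : List Tri} (h : memb t l = true) : t ∈ l := by
  induction l with
  | nil => cases h
  | cons s l ih =>
    rw [memb, Bool.or_eq_true] at h
    rcases h with h | h
    · rw [teq_iff h]; exact List.mem_cons_self
    · exact List.mem_cons_of_mem _ (ih h)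

theorem lm_sound {l : List (Tri × Tri)} (h : lm l = true) : ∀ p ∈ l, p.1 ∈ F ∧ p.2 ∈ F := by
  induction l with
  | nil => intro p hp; cases hp
  | cons q l ih =>
    rw [lm, Bool.and_eq_true, Bool.and_eq_true] at h
    intro p hp
    rcases List.mem_cons.1 hp with rfl | hp
    · exact ⟨memb_iff h.1.1, memb_iff h.1.2⟩
    · exact ih h.2 p hp

theorem lp_sound {l : List (Tri × Tri)} : ∀ {m : List (Tri × Tri × P3 × ℤ)}, lp l m = true →
    ∀ p ∈ l, ∃ q, one p q = true := by
  induction l with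
  | nil => intro m h p hp; cases hp
  | cons r l ih =>
    intro m h p hp
    cases m with
    | nil => cases h
    | cons q m =>
      rw [lp, Bool.and_eq_true] at h
      rcases List.mem_cons.1 hp with rfl | hp
      · exact ⟨q, h.1⟩
      · exact ih h.2 p hp

/-- the determinant condition for real vectors -/
theorem vp1_sound {a b c w : P3} (h : vp1 a b c w = true) :
    det3 (r3 b - r3 a) (r3 c - r3 a) (r3 w - r3 a) ≠ 0 := by
  have h1 : dt (sb b a) (sb c a) (sb w a) ≠ 0 := nzb_iff h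
  have h2 : det3 (r3 b - r3 a) (r3 c - r3 a) (r3 w - r3 a) =
      ((dt (sb b a) (sb c a) (sb w a) : ℤ) : ℝ) / 10 ^ 21 := by
    simp only [det3, dt, sb, r3, PiLp.sub_apply]
    simp
    ring
  rw [h2]
  exact div_ne_zero (by exact_mod_cast h1) (by positivity)

/-- the height for real vectors -/
theorem ht_sound (al : P3) (k : ℤ) (v : ℕ) :
    inner ℝ (!₂[(al.x : ℝ), (al.y : ℝ), (al.z : ℝ)] : E3) (Y v) + (k : ℝ) * g v =
      ((ht al k v : ℤ) : ℝ) / 10 ^ 7 := by
  have h1 : inner ℝ (!₂[(al.x : ℝ), (al.y : ℝ), (al.z : ℝ)] : E3) (Y v) =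
      ((dp al (yI v) : ℤ) : ℝ) / 10 ^ 7 := by
    simp only [Y, r3, dp, PiLp.inner_apply, Fin.sum_univ_three]
    simp
    ring
  rw [h1, ht, g]
  push_cast
  ring

theorem ht_lt {al : P3} {k : ℤ} {v v' : ℕ} (h : posb (ht al k v - ht al k v') = true) :
    inner ℝ (!₂[(al.x : ℝ), (al.y : ℝ), (al.z : ℝ)] : E3) (Y v') + (k : ℝ) * g v' <
      inner ℝ (!₂[(al.x : ℝ), (al.y : ℝ), (al.z : ℝ)] : E3) (Y v) + (k : ℝ) * g v := by
  rw [ht_sound, ht_sound]
  have h1 : ht al k v' < ht al k v := by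
    have := posb_iff h
    omega
  have h2 : ((ht al k v' : ℤ) : ℝ) < ((ht al k v : ℤ) : ℝ) := by exact_mod_cast h1
  exact div_lt_div_of_pos_right h2 (by positivity)

theorem mem_vs {t : Tri} {v : ℕ} (h : v ∈ t.vs) : v = t.a ∨ v = t.b ∨ v = t.c := by
  simpa [Tri.vs] using h

theorem mem_es {t : Tri} {e : ℕ × ℕ} (h : e ∈ t.es) :
    e = (t.a, t.b) ∨ e = (t.b, t.c) ∨ e = (t.c, t.a) := by
  simpa [Tri.es] using h

theorem one_pair {p : Tri × Tri} (hp : p ∈ X) :
    pairb (yI p.1.a) (yI p.1.b) (yI p.1.c) (yI p.2.a) (yI p.2.b) (yI p.2.c) = true := by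
  obtain ⟨q, hq⟩ := lp_sound run1 p hp
  rw [one, Bool.and_eq_true, Bool.and_eq_true, Bool.and_eq_true] at hq
  exact hq.2.2

theorem one_abv {p : Tri × Tri} (hp : p ∈ X) : ∃ (al : P3) (k : ℤ), abv p.1 p.2 al k = true := by
  obtain ⟨q, hq⟩ := lp_sound run1 p hp
  rw [one, Bool.and_eq_true, Bool.and_eq_true, Bool.and_eq_true] at hq
  exact ⟨_, _, hq.2.1⟩

end GenA

open GenA

/-- [48319b D7] -/
theorem stGenA : StGenA where
  sub := lm_sound run2
  vp := by
    intro p hp
    have h := one_pair hp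
    simp only [pairb, Bool.and_eq_true] at h
    obtain ⟨⟨h1, h2, h3⟩, ⟨h4, h5, h6⟩, -⟩ := h
    constructor
    · intro v hv
      rcases mem_vs hv with rfl | rfl | rfl
      · exact vp1_sound h1
      · exact vp1_sound h2
      · exact vp1_sound h3
    · intro v hv
      rcases mem_vs hv with rfl | rfl | rfl
      · exact vp1_sound h4
      · exact vp1_sound h5
      · exact vp1_sound h6
  ee := by
    intro p hp e he e' he'
    have h := one_pair hp
    simp only [pairb, Bool.and_eq_true] at h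
    obtain ⟨-, -, ⟨a1, a2, a3⟩, ⟨b1, b2, b3⟩, ⟨c1, c2, c3⟩⟩ := h
    rcases mem_es he with rfl | rfl | rfl <;> rcases mem_es he' with rfl | rfl | rfl
    · exact vp1_sound a1
    · exact vp1_sound a2
    · exact vp1_sound a3
    · exact vp1_sound b1
    · exact vp1_sound b2
    · exact vp1_sound b3
    · exact vp1_sound c1
    · exact vp1_sound c2
    · exact vp1_sound c3
  above := by
    intro p hp
    obtain ⟨al, k, h⟩ := one_abv hp
    simp only [abv, Bool.and_eq_true] at h
    obtain ⟨h0, h1, h2, h3, h4, h5, h6, h7, h8, h9⟩ := h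
    refine ⟨!₂[(al.x : ℝ), (al.y : ℝ), (al.z : ℝ)], k, by exact_mod_cast posb_iff h0, ?_⟩
    intro v hv v' hv'
    rcases mem_vs hv with rfl | rfl | rfl <;> rcases mem_vs hv' with rfl | rfl | rfl
    · exact ht_lt h1
    · exact ht_lt h2
    · exact ht_lt h3
    · exact ht_lt h4
    · exact ht_lt h5
    · exact ht_lt h6
    · exact ht_lt h7
    · exact ht_lt h8
    · exact ht_lt h9

end Pool.Agent.Work.MP_48319b_gt.Dat

end

section

/-!
# MP_48319b_gt : everything except the data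
-/

namespace Pool.Agent.Work.MP_48319b_gt

theorem extT : ExtThm := extThm coverThm uniqThm
theorem pieceT : PieceThm := pieceThm coverThm uniqThm
theorem biMonoT : BiMonoThm := biMonoThm extT pieceT
theorem noDoubleT : NoDoubleThm := noDoubleThm extT pieceT biMonoT
theorem pathInjT : PathInjThm := pathInjThm extT pieceT biMonoT
theorem doubleT : DoubleThm := doubleThm extT pieceT biMonoT noDoubleT
theorem tripleT : TripleThm := tripleThm extT pieceT noDoubleT doubleT
theorem signDataT : SignDataThm := signDataThm uniqThm extT pieceT noDoubleT doubleT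
theorem double0T : Double0Thm := double0Thm extT pieceT noDoubleT
theorem sidesT : SidesPL := sidesPL pALip pAMono
theorem sides0T : Sides0Thm := sides0Thm extT pieceT sidesT
theorem sideVET : SideVE := sideVE extT pieceT double0T
theorem coverDataT : CoverDataThm := coverDataThm extT pieceT double0T sides0T sideVET
theorem packageT : PackageThm :=
  packageThm extT pieceT biMonoT pathInjT doubleT tripleT signDataT coverDataT

/-- the main statement from the data -/
theorem main_of_data (h : ∃ F bd pos Y Y0 N g Q X X1 X2 Tl up twin sg,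
    RData F bd pos Y Y0 N g Q X X1 X2 Tl up twin sg) : MainStatement :=
  assembly roundAbelian covThm fibThm lipThm unifMonoThm biLipThm compactHomeo mollThm mollHThm
    (gPThm immThm ddNear localThm) (signThm ddNear localThm (propagThm localThm)) sphThm sphKnot
    transportCov (packageT h)

end Pool.Agent.Work.MP_48319b_gt

end

section

namespace Pool.Agent.Work.MP_48319b_gt.Dat

theorem run3_0 : loopN chk3 chkX 23 (recs.drop 0) (codes3.drop 0)
    (cus3.drop 0) = true := by decide +kernel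

theorem run3_23 : loopN chk3 chkX 23 (recs.drop 23) (codes3.drop 23)
    (cus3.drop 23) = true := by decide +kernel

theorem run3_46 : loopN chk3 chkX 23 (recs.drop 46) (codes3.drop 46)
    (cus3.drop 46) = true := by decide +kernel

theorem run3_69 : loopN chk3 chkX 23 (recs.drop 69) (codes3.drop 69)
    (cus3.drop 69) = true := by decide +kernel

theorem run3_92 : loopN chk3 chkX 23 (recs.drop 92) (codes3.drop 92)
    (cus3.drop 92) = true := by decide +kernel

theorem run3_115 : loopN chk3 chkX 23 (recs.drop 115) (codes3.drop 115)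
    (cus3.drop 115) = true := by decide +kernel

theorem run3_138 : loopN chk3 chkX 23 (recs.drop 138) (codes3.drop 138)
    (cus3.drop 138) = true := by decide +kernel

theorem run3_161 : loopN chk3 chkX 23 (recs.drop 161) (codes3.drop 161)
    (cus3.drop 161) = true := by decide +kernel

theorem run3_184 : loopN chk3 chkX 23 (recs.drop 184) (codes3.drop 184)
    (cus3.drop 184) = true := by decide +kernel

theorem run3_207 : loopN chk3 chkX 23 (recs.drop 207) (codes3.drop 207)
    (cus3.drop 207) = true := by decide +kernel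

theorem run3_230 : loopN chk3 chkX 23 (recs.drop 230) (codes3.drop 230)
    (cus3.drop 230) = true := by decide +kernel

theorem run3_253 : loopN chk3 chkX 23 (recs.drop 253) (codes3.drop 253)
    (cus3.drop 253) = true := by decide +kernel

theorem run3_276 : loopN chk3 chkX 23 (recs.drop 276) (codes3.drop 276)
    (cus3.drop 276) = true := by decide +kernel

theorem run3_299 : loopN chk3 chkX 23 (recs.drop 299) (codes3.drop 299)
    (cus3.drop 299) = true := by decide +kernel

theorem run3_322 : loopN chk3 chkX 23 (recs.drop 322) (codes3.drop 322)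
    (cus3.drop 322) = true := by decide +kernel

theorem run3_345 : loopN chk3 chkX 23 (recs.drop 345) (codes3.drop 345)
    (cus3.drop 345) = true := by decide +kernel

theorem run3_end : loop chk3 chkX (recs.drop 368) (codes3.drop 368)
    (cus3.drop 368) = true := by decide +kernel

theorem run3 : loop chk3 chkX recs codes3 cus3 = true :=
  loop_step 0 23 23 rfl run3_0 <|
  loop_step 23 23 46 rfl run3_23 <|
  loop_step 46 23 69 rfl run3_46 <|
  loop_step 69 23 92 rfl run3_69 <|
  loop_step 92 23 115 rfl run3_92 <|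
  loop_step 115 23 138 rfl run3_115 <|
  loop_step 138 23 161 rfl run3_138 <|
  loop_step 161 23 184 rfl run3_161 <|
  loop_step 184 23 207 rfl run3_184 <|
  loop_step 207 23 230 rfl run3_207 <|
  loop_step 230 23 253 rfl run3_230 <|
  loop_step 253 23 276 rfl run3_253 <|
  loop_step 276 23 299 rfl run3_276 <|
  loop_step 299 23 322 rfl run3_299 <|
  loop_step 322 23 345 rfl run3_322 <|
  loop_step 345 23 368 rfl run3_345 <|
  run3_end

end Pool.Agent.Work.MP_48319b_gt.Dat

end

section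

namespace Pool.Agent.Work.MP_48319b_gt.Dat

theorem run4_0 : loopN chk4 (fun _ _ _ => false) 23 (recs.drop 0) (codes4.drop 0)
    (cus4.drop 0) = true := by decide +kernel

theorem run4_23 : loopN chk4 (fun _ _ _ => false) 23 (recs.drop 23) (codes4.drop 23)
    (cus4.drop 23) = true := by decide +kernel

theorem run4_46 : loopN chk4 (fun _ _ _ => false) 23 (recs.drop 46) (codes4.drop 46)
    (cus4.drop 46) = true := by decide +kernel

theorem run4_69 : loopN chk4 (fun _ _ _ => false) 23 (recs.drop 69) (codes4.drop 69)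
    (cus4.drop 69) = true := by decide +kernel

theorem run4_92 : loopN chk4 (fun _ _ _ => false) 23 (recs.drop 92) (codes4.drop 92)
    (cus4.drop 92) = true := by decide +kernel

theorem run4_115 : loopN chk4 (fun _ _ _ => false) 23 (recs.drop 115) (codes4.drop 115)
    (cus4.drop 115) = true := by decide +kernel

theorem run4_138 : loopN chk4 (fun _ _ _ => false) 23 (recs.drop 138) (codes4.drop 138)
    (cus4.drop 138) = true := by decide +kernel

theorem run4_161 : loopN chk4 (fun _ _ _ => false) 23 (recs.drop 161) (codes4.drop 161)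
    (cus4.drop 161) = true := by decide +kernel

theorem run4_184 : loopN chk4 (fun _ _ _ => false) 23 (recs.drop 184) (codes4.drop 184)
    (cus4.drop 184) = true := by decide +kernel

theorem run4_207 : loopN chk4 (fun _ _ _ => false) 23 (recs.drop 207) (codes4.drop 207)
    (cus4.drop 207) = true := by decide +kernel

theorem run4_230 : loopN chk4 (fun _ _ _ => false) 23 (recs.drop 230) (codes4.drop 230)
    (cus4.drop 230) = true := by decide +kernel

theorem run4_253 : loopN chk4 (fun _ _ _ => false) 23 (recs.drop 253) (codes4.drop 253)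
    (cus4.drop 253) = true := by decide +kernel

theorem run4_276 : loopN chk4 (fun _ _ _ => false) 23 (recs.drop 276) (codes4.drop 276)
    (cus4.drop 276) = true := by decide +kernel

theorem run4_299 : loopN chk4 (fun _ _ _ => false) 23 (recs.drop 299) (codes4.drop 299)
    (cus4.drop 299) = true := by decide +kernel

theorem run4_322 : loopN chk4 (fun _ _ _ => false) 23 (recs.drop 322) (codes4.drop 322)
    (cus4.drop 322) = true := by decide +kernel

theorem run4_345 : loopN chk4 (fun _ _ _ => false) 23 (recs.drop 345) (codes4.drop 345)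
    (cus4.drop 345) = true := by decide +kernel

theorem run4_end : loop chk4 (fun _ _ _ => false) (recs.drop 368) (codes4.drop 368)
    (cus4.drop 368) = true := by decide +kernel

theorem run4 : loop chk4 (fun _ _ _ => false) recs codes4 cus4 = true :=
  loop_step 0 23 23 rfl run4_0 <|
  loop_step 23 23 46 rfl run4_23 <|
  loop_step 46 23 69 rfl run4_46 <|
  loop_step 69 23 92 rfl run4_69 <|
  loop_step 92 23 115 rfl run4_92 <|
  loop_step 115 23 138 rfl run4_115 <|
  loop_step 138 23 161 rfl run4_138 <|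
  loop_step 161 23 184 rfl run4_161 <|
  loop_step 184 23 207 rfl run4_184 <|
  loop_step 207 23 230 rfl run4_207 <|
  loop_step 230 23 253 rfl run4_230 <|
  loop_step 253 23 276 rfl run4_253 <|
  loop_step 276 23 299 rfl run4_276 <|
  loop_step 299 23 322 rfl run4_299 <|
  loop_step 322 23 345 rfl run4_322 <|
  loop_step 345 23 368 rfl run4_345 <|
  run4_end

end Pool.Agent.Work.MP_48319b_gt.Dat

end

section

namespace Pool.Agent.Work.MP_48319b_gt.Dat.CC

theorem runF : colL.map Prod.fst = F := by decide +kernel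

theorem runT_0 : ((colL.drop 0).take 122).all tchk = true := by decide +kernel

theorem runT_122 : ((colL.drop 122).take 122).all tchk = true := by decide +kernel

theorem runT_244 : ((colL.drop 244).take 122).all tchk = true := by decide +kernel

theorem runT_end : (colL.drop 366).all tchk = true := by decide +kernel

theorem runT : colL.all tchk = true :=
  all_step 0 122 122 rfl runT_0 <|
  all_step 122 122 244 rfl runT_122 <|
  all_step 244 122 366 rfl runT_244 <|
  runT_end

theorem runE1_0 : ((twL.drop 0).take 19).all (fun e => colL.all fun q => e1chk e q) = true := by decide +kernel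

theorem runE1_19 : ((twL.drop 19).take 19).all (fun e => colL.all fun q => e1chk e q) = true := by decide +kernel

theorem runE1_38 : ((twL.drop 38).take 19).all (fun e => colL.all fun q => e1chk e q) = true := by decide +kernel

theorem runE1_57 : ((twL.drop 57).take 19).all (fun e => colL.all fun q => e1chk e q) = true := by decide +kernel

theorem runE1_76 : ((twL.drop 76).take 19).all (fun e => colL.all fun q => e1chk e q) = true := by decide +kernel

theorem runE1_95 : ((twL.drop 95).take 19).all (fun e => colL.all fun q => e1chk e q) = true := by decide +kernel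

theorem runE1_114 : ((twL.drop 114).take 19).all (fun e => colL.all fun q => e1chk e q) = true := by decide +kernel

theorem runE1_133 : ((twL.drop 133).take 19).all (fun e => colL.all fun q => e1chk e q) = true := by decide +kernel

theorem runE1_end : (twL.drop 152).all (fun e => colL.all fun q => e1chk e q) = true := by decide +kernel

theorem runE1 : e1all = true :=
  all_step 0 19 19 rfl runE1_0 <|
  all_step 19 19 38 rfl runE1_19 <|
  all_step 38 19 57 rfl runE1_38 <|
  all_step 57 19 76 rfl runE1_57 <|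
  all_step 76 19 95 rfl runE1_76 <|
  all_step 95 19 114 rfl runE1_95 <|
  all_step 114 19 133 rfl runE1_114 <|
  all_step 133 19 152 rfl runE1_133 <|
  runE1_end

theorem runTw : twchk = true := by decide +kernel

theorem runBd : bdchk = true := by decide +kernel

end Pool.Agent.Work.MP_48319b_gt.Dat.CC

end

section

/-!
# MP_48319b_gt : soundness of the pair loops, D4, D5, D6
-/

open Metric Set Topology

namespace Pool.Agent.Work.MP_48319b_gt.Dat

namespace LS

/-! ### the Boolean loop -/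

theorem row_sound {c6 c7 : ℕ → Rec → Rec → Bool} {P : Rec → Rec → Prop} (r : Rec)
    (hx : ∀ s, r.x1 < s.x0 → P r s) (hy : ∀ s, r.y1 < s.y0 → P r s)
    (hy' : ∀ s, s.y1 < r.y0 → P r s) (hz : ∀ s, r.z1 < s.z0 → P r s)
    (hz' : ∀ s, s.z1 < r.z0 → P r s) (h5 : ∀ s, shareb r.t s.t = true → P r s)
    (h6 : ∀ q s, c6 q r s = true → P r s) (h7 : ∀ q s, c7 q r s = true → P r s) :
    ∀ (ss : List Rec) (n : ℕ) (cs : List ℕ), ss.Pairwise (fun a b => a.x0 ≤ b.x0) →
      row c6 c7 r ss n cs = true → ∀ s ∈ ss, P r s := by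
  intro ss
  induction ss with
  | nil =>
    intro n cs _ _ s hs
    cases hs
  | cons a l ih =>
    intro n cs hp h s hs
    have hpl := (List.pairwise_cons.1 hp).2
    unfold row at h
    split at h
    · have h1 : r.x1 < a.x0 := by simpa using h
      rcases List.mem_cons.1 hs with rfl | hs
      · exact hx _ h1
      · exact hx _ (lt_of_lt_of_le h1 ((List.pairwise_cons.1 hp).1 s hs))
    · rw [Bool.and_eq_true] at h
      have h1 : r.y1 < a.y0 := by simpa using h.1
      rcases List.mem_cons.1 hs with rfl | hs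
      · exact hy _ h1
      · exact ih _ _ hpl h.2 s hs
    · rw [Bool.and_eq_true] at h
      have h1 : a.y1 < r.y0 := by simpa using h.1
      rcases List.mem_cons.1 hs with rfl | hs
      · exact hy' _ h1
      · exact ih _ _ hpl h.2 s hs
    · rw [Bool.and_eq_true] at h
      have h1 : r.z1 < a.z0 := by simpa using h.1
      rcases List.mem_cons.1 hs with rfl | hs
      · exact hz _ h1
      · exact ih _ _ hpl h.2 s hs
    · rw [Bool.and_eq_true] at h
      have h1 : a.z1 < r.z0 := by simpa using h.1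
      rcases List.mem_cons.1 hs with rfl | hs
      · exact hz' _ h1
      · exact ih _ _ hpl h.2 s hs
    · rw [Bool.and_eq_true] at h
      rcases List.mem_cons.1 hs with rfl | hs
      · exact h5 _ h.1
      · exact ih _ _ hpl h.2 s hs
    · split at h
      · exact absurd h Bool.false_ne_true
      · rw [Bool.and_eq_true] at h
        rcases List.mem_cons.1 hs with rfl | hs
        · exact h6 _ _ h.1
        · exact ih _ _ hpl h.2 s hs
    · split at h
      · exact absurd h Bool.false_ne_true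
      · rw [Bool.and_eq_true] at h
        rcases List.mem_cons.1 hs with rfl | hs
        · exact h7 _ _ h.1
        · exact ih _ _ hpl h.2 s hs

theorem loop_sound {c6 c7 : ℕ → Rec → Rec → Bool} {P : Rec → Rec → Prop}
    (hx : ∀ r s, r.x1 < s.x0 → P r s) (hy : ∀ r s, r.y1 < s.y0 → P r s)
    (hy' : ∀ r s, s.y1 < r.y0 → P r s) (hz : ∀ r s, r.z1 < s.z0 → P r s)
    (hz' : ∀ r s, s.z1 < r.z0 → P r s) (h5 : ∀ r s, shareb r.t s.t = true → P r s)
    (h6 : ∀ q r s, c6 q r s = true → P r s) (h7 : ∀ q r s, c7 q r s = true → P r s) :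
    ∀ (rs : List Rec) (ns : List ℕ) (qs : List (List ℕ)),
      rs.Pairwise (fun a b => a.x0 ≤ b.x0) → loop c6 c7 rs ns qs = true → rs.Pairwise P := by
  intro rs
  induction rs with
  | nil =>
    intro ns qs _ _
    exact List.Pairwise.nil
  | cons r l ih =>
    intro ns qs hp h
    have hpl := (List.pairwise_cons.1 hp).2
    unfold loop at h
    split at h
    · rename_i h1
      exact absurd h1 (by simp)
    · rename_i r' l' n ns' q qs' h1
      obtain ⟨rfl, rfl⟩ : r = r' ∧ l = l' := by simpa using h1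
      rw [Bool.and_eq_true] at h
      exact List.pairwise_cons.2 ⟨row_sound r (hx r) (hy r) (hy' r) (hz r) (hz' r) (h5 r)
        (fun q s => h6 q r s) (fun q s => h7 q r s) l _ _ hpl h.1, ih _ _ hpl h.2⟩
    · exact absurd h Bool.false_ne_true

/-! ### the list of the records -/

theorem sorted_of : ∀ l : List Rec, sortedB l = true → l.Pairwise (fun a b => a.x0 ≤ b.x0)
  | [], _ => List.Pairwise.nil
  | [_], _ => List.pairwise_singleton _ _
  | r :: s :: l, h => by
    unfold sortedB at h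
    rw [Bool.and_eq_true] at h
    have h1 : r.x0 ≤ s.x0 := by simpa using h.1
    have h2 := sorted_of (s :: l) h.2
    refine List.pairwise_cons.2 ⟨fun a ha => ?_, h2⟩
    rcases List.mem_cons.1 ha with rfl | ha
    · exact h1
    · exact h1.trans ((List.pairwise_cons.1 h2).1 a ha)

theorem triEq_iff (t s : Tri) : triEq t s = true ↔ t = s := by
  unfold triEq
  rw [Bool.and_eq_true, Bool.and_eq_true]
  cases t
  cases s
  simp [and_assoc]

theorem same_of : ∀ (rs : List Rec) (ts : List Tri), sameT rs ts = true →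
    ∀ t ∈ ts, ∃ r ∈ rs, r.t = t := by
  intro rs
  induction rs with
  | nil =>
    intro ts h t ht
    cases ts with
    | nil => cases ht
    | cons a l => exact absurd h (by simp [sameT])
  | cons r l ih =>
    intro ts h t ht
    cases ts with
    | nil => cases ht
    | cons a ts =>
      unfold sameT at h
      rw [Bool.and_eq_true, triEq_iff] at h
      rcases List.mem_cons.1 ht with rfl | ht
      · exact ⟨r, List.mem_cons_self, h.1⟩
      · obtain ⟨r', hr', h'⟩ := ih ts h.2 t ht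
        exact ⟨r', List.mem_cons_of_mem _ hr', h'⟩

theorem p3Eq_iff (p q : P3) : p3Eq p q = true ↔ p = q := by
  unfold p3Eq
  rw [Bool.and_eq_true, Bool.and_eq_true, eqb_iff, eqb_iff, eqb_iff]
  cases p
  cases q
  simp [and_assoc]

/-- The inlined data are the data of the tables. -/
structure Dt (r : Rec) : Prop where
  a : yI r.t.a = r.a
  b : yI r.t.b = r.b
  c : yI r.t.c = r.c
  a' : y0I r.t.a = r.a'
  b' : y0I r.t.b = r.b'
  c' : y0I r.t.c = r.c'
  ga : gI r.t.a = r.ga
  gb : gI r.t.b = r.gb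
  gc : gI r.t.c = r.gc

/-- The box of a record. -/
def InBox (r : Rec) (p : P3) : Prop :=
  ((r.x0 : ℤ) ≤ p.x + 4000000 ∧ p.x + 4000000 ≤ r.x1) ∧
  ((r.y0 : ℤ) ≤ p.y + 4000000 ∧ p.y + 4000000 ≤ r.y1) ∧
  ((r.z0 : ℤ) ≤ p.z + 4000000 ∧ p.z + 4000000 ≤ r.z1)

theorem inBox_of {r : Rec} {p : P3} (h : boxp r p = true) : InBox r p := by
  unfold boxp inb at h
  simp only [Bool.and_eq_true, leb_iff, Int.ofNat_eq_natCast] at h
  exact ⟨h.1.1, h.1.2, h.2⟩

structure Bx (r : Rec) : Prop where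
  a : InBox r r.a
  b : InBox r r.b
  c : InBox r r.c
  a' : InBox r r.a'
  b' : InBox r r.b'
  c' : InBox r r.c'

theorem ok_of {r : Rec} (h : recOK r = true) : Dt r ∧ Bx r := by
  unfold recOK at h
  simp only [Bool.and_eq_true, p3Eq_iff, eqb_iff] at h
  obtain ⟨⟨⟨⟨h1, h2⟩, h3⟩, ⟨h4, h5⟩, h6⟩, ⟨⟨h7, h8⟩, h9⟩, ⟨⟨h10, h11⟩, h12⟩, ⟨h13, h14⟩, h15⟩ := h
  exact ⟨⟨h1.symm, h2.symm, h3.symm, h4.symm, h5.symm, h6.symm, h7.symm, h8.symm, h9.symm⟩,
    inBox_of h10, inBox_of h11, inBox_of h12, inBox_of h13, inBox_of h14, inBox_of h15⟩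

theorem mem_vs {t : Tri} {v : ℕ} : v ∈ t.vs ↔ v = t.a ∨ v = t.b ∨ v = t.c := by
  unfold Tri.vs
  simp

theorem share_of {t s : Tri} (h : shareb t s = true) : Share t s := by
  unfold shareb isV at h
  simp only [Bool.or_eq_true, Nat.beq_eq] at h
  unfold Share
  simp only [mem_vs]
  rcases h with (((h | h) | h) | ((h | h) | h)) | ((h | h) | h)
  · exact ⟨s.a, Or.inl h.symm, Or.inl rfl⟩
  · exact ⟨s.a, Or.inr (Or.inl h.symm), Or.inl rfl⟩
  · exact ⟨s.a, Or.inr (Or.inr h.symm), Or.inl rfl⟩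
  · exact ⟨s.b, Or.inl h.symm, Or.inr (Or.inl rfl)⟩
  · exact ⟨s.b, Or.inr (Or.inl h.symm), Or.inr (Or.inl rfl)⟩
  · exact ⟨s.b, Or.inr (Or.inr h.symm), Or.inr (Or.inl rfl)⟩
  · exact ⟨s.c, Or.inl h.symm, Or.inr (Or.inr rfl)⟩
  · exact ⟨s.c, Or.inr (Or.inl h.symm), Or.inr (Or.inr rfl)⟩
  · exact ⟨s.c, Or.inr (Or.inr h.symm), Or.inr (Or.inr rfl)⟩

theorem share_self (t : Tri) : Share t t :=
  ⟨t.a, mem_vs.2 (Or.inl rfl), mem_vs.2 (Or.inl rfl)⟩

/-- From pairs of records to pairs of triangles. -/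
theorem pairs_of {C : Tri → Tri → Prop} (hs : ∀ t s, C t s → C s t) (hr : ∀ t, C t t)
    (h : recs.Pairwise fun r s => (Dt r ∧ Bx r) → (Dt s ∧ Bx s) → C r.t s.t) :
    ∀ t ∈ F, ∀ t' ∈ F, C t t' := by
  have hok : ∀ r ∈ recs, Dt r ∧ Bx r := fun r hr => ok_of (List.all_eq_true.1 recs_ok r hr)
  have h1 : recs.Pairwise fun r s => C r.t s.t := by
    refine List.Pairwise.imp_of_mem (fun {r s} hr hs h => ?_) h
    exact h (hok r hr) (hok s hs)
  have hsym : Std.Symm (fun r s : Rec => C r.t s.t) := ⟨fun r s h => hs _ _ h⟩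
  have h2 := List.Pairwise.forall_of_forall (R := fun r s : Rec => C r.t s.t)
    (fun r _ => hr _) h1
  intro t ht t' ht'
  obtain ⟨r, hr, rfl⟩ := same_of _ _ recs_F t ht
  obtain ⟨s, hs, rfl⟩ := same_of _ _ recs_F t' ht'
  exact h2 hr hs

/-! ### real conversions -/

/-- the vector of an integer point -/
noncomputable def av (al : P3) : E3 := !₂[(al.x : ℝ), (al.y : ℝ), (al.z : ℝ)]

theorem inner_r3 (al p : P3) : inner ℝ (av al) (r3 p) = (dot3 al p : ℝ) / 10 ^ 7 := by
  unfold av r3 dot3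
  simp only [PiLp.inner_apply, Fin.sum_univ_three, RCLike.inner_apply, conj_trivial]
  simp
  ring

/-- integer separation in dimension 4 -/
def IS4 (t t' : Tri) : Prop := ∃ (al : P3) (k c : ℤ),
  (∀ v ∈ t.vs, dot3 al (yI v) + k * gI v < c ∧ dot3 al (y0I v) + k * gI v < c) ∧
  ∀ v ∈ t'.vs, c ≤ dot3 al (yI v) + k * gI v ∧ c ≤ dot3 al (y0I v) + k * gI v

def IS3 (t t' : Tri) : Prop := ∃ (al : P3) (c : ℤ),
  (∀ v ∈ t.vs, dot3 al (yI v) < c) ∧ ∀ v ∈ t'.vs, c ≤ dot3 al (yI v)

def ISW (t t' : Tri) : Prop := ∃ (al : P3) (c : ℤ),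
  (∀ v ∈ t.vs, dot3 al (y0I v) < c) ∧ ∀ v ∈ t'.vs, c ≤ dot3 al (y0I v)

theorem sep4_of {t t' : Tri} (h : IS4 t t') : Sep4 Y Y0 g t t' := by
  obtain ⟨al, k, c, h1, h2⟩ := h
  refine ⟨av al, (k : ℝ), fun v hv v' hv' => ?_⟩
  unfold Y Y0 g
  rw [inner_r3, inner_r3, inner_r3, inner_r3]
  have e1 := (h1 v hv).1.trans_le (h2 v' hv').1
  have e2 := (h1 v hv).2.trans_le (h2 v' hv').2
  have e1' : (dot3 al (yI v) : ℝ) + k * gI v < dot3 al (yI v') + k * gI v' := by exact_mod_cast e1
  have e2' : (dot3 al (y0I v) : ℝ) + k * gI v < dot3 al (y0I v') + k * gI v' := by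
    exact_mod_cast e2
  constructor
  · have := div_lt_div_of_pos_right e1' (show (0 : ℝ) < 10 ^ 7 by positivity)
    calc (dot3 al (yI v) : ℝ) / 10 ^ 7 + k * (gI v / 10 ^ 7)
        = ((dot3 al (yI v) : ℝ) + k * gI v) / 10 ^ 7 := by ring
      _ < ((dot3 al (yI v') : ℝ) + k * gI v') / 10 ^ 7 := this
      _ = _ := by ring
  · have := div_lt_div_of_pos_right e2' (show (0 : ℝ) < 10 ^ 7 by positivity)
    calc (dot3 al (y0I v) : ℝ) / 10 ^ 7 + k * (gI v / 10 ^ 7)
        = ((dot3 al (y0I v) : ℝ) + k * gI v) / 10 ^ 7 := by ring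
      _ < ((dot3 al (y0I v') : ℝ) + k * gI v') / 10 ^ 7 := this
      _ = _ := by ring

theorem sep4_symm {t t' : Tri} (h : Sep4 Y Y0 g t t') : Sep4 Y Y0 g t' t := by
  obtain ⟨α, κ, h⟩ := h
  refine ⟨-α, -κ, fun v hv v' hv' => ?_⟩
  have h1 := h v' hv' v hv
  simp only [inner_neg_left]
  constructor <;> linarith [h1.1, h1.2]

theorem sep3_of {t t' : Tri} (h : IS3 t t') : Sep3 Y t t' := by
  obtain ⟨al, c, h1, h2⟩ := h
  refine ⟨av al, fun v hv v' hv' => ?_⟩
  unfold Y
  rw [inner_r3, inner_r3]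
  have e1 := (h1 v hv).trans_le (h2 v' hv')
  have e1' : (dot3 al (yI v) : ℝ) < dot3 al (yI v') := by exact_mod_cast e1
  exact div_lt_div_of_pos_right e1' (show (0 : ℝ) < 10 ^ 7 by positivity)

theorem sep3_symm {t t' : Tri} (h : Sep3 Y t t') : Sep3 Y t' t := by
  obtain ⟨α, h⟩ := h
  refine ⟨-α, fun v hv v' hv' => ?_⟩
  have h1 := h v' hv' v hv
  simp only [inner_neg_left]
  linarith [h1]

theorem wsep_of {t t' : Tri} (h : ISW t t') : WSep Y0 t t' := by
  obtain ⟨al, c, h1, h2⟩ := h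
  have k1 : ∀ v ∈ t.vs, inner ℝ (av al) (Y0 v) < ((c : ℝ) - 1 / 2) / 10 ^ 7 := by
    intro v hv
    unfold Y0
    rw [inner_r3]
    refine div_lt_div_of_pos_right ?_ (show (0 : ℝ) < 10 ^ 7 by positivity)
    have e1 : dot3 al (y0I v) ≤ c - 1 := by
      have := h1 v hv
      omega
    have e2 : (dot3 al (y0I v) : ℝ) ≤ c - 1 := by exact_mod_cast e1
    linarith
  have k2 : ∀ v ∈ t'.vs, ((c : ℝ) - 1 / 2) / 10 ^ 7 < inner ℝ (av al) (Y0 v) := by
    intro v hv
    unfold Y0
    rw [inner_r3]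
    refine div_lt_div_of_pos_right ?_ (show (0 : ℝ) < 10 ^ 7 by positivity)
    have e2 : (c : ℝ) ≤ (dot3 al (y0I v) : ℝ) := by exact_mod_cast h2 v hv
    linarith
  refine ⟨av al, ((c : ℝ) - 1 / 2) / 10 ^ 7, fun v hv => ⟨(k1 v hv).le, fun h => ?_⟩,
    fun v hv => ⟨(k2 v hv).le, fun h => ?_⟩, ⟨t.a, mem_vs.2 (Or.inl rfl), k1 _ (mem_vs.2 (Or.inl rfl))⟩,
    ⟨t'.a, mem_vs.2 (Or.inl rfl), k2 _ (mem_vs.2 (Or.inl rfl))⟩⟩
  · exact absurd h (k1 v hv).ne
  · exact absurd h (k2 v hv).ne'

/-! ### boxes -/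

/-- The values at the vertices through the records. -/
theorem forall_vs {r : Rec} (h : Dt r) {p : P3 → P3 → ℤ → Prop} :
    (∀ v ∈ r.t.vs, p (yI v) (y0I v) (gI v)) ↔
      p r.a r.a' r.ga ∧ p r.b r.b' r.gb ∧ p r.c r.c' r.gc := by
  constructor
  · intro h1
    refine ⟨?_, ?_, ?_⟩
    · have := h1 r.t.a (mem_vs.2 (Or.inl rfl))
      rwa [h.a, h.a', h.ga] at this
    · have := h1 r.t.b (mem_vs.2 (Or.inr (Or.inl rfl)))
      rwa [h.b, h.b', h.gb] at this
    · have := h1 r.t.c (mem_vs.2 (Or.inr (Or.inr rfl)))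
      rwa [h.c, h.c', h.gc] at this
  · rintro ⟨h1, h2, h3⟩ v hv
    rcases mem_vs.1 hv with rfl | rfl | rfl
    · rw [h.a, h.a', h.ga]; exact h1
    · rw [h.b, h.b', h.gb]; exact h2
    · rw [h.c, h.c', h.gc]; exact h3

theorem box_all {r : Rec} (h : Dt r ∧ Bx r) :
    ∀ v ∈ r.t.vs, InBox r (yI v) ∧ InBox r (y0I v) :=
  (forall_vs (p := fun y y0 _ => InBox r y ∧ InBox r y0) h.1).2
    ⟨⟨h.2.a, h.2.a'⟩, ⟨h.2.b, h.2.b'⟩, ⟨h.2.c, h.2.c'⟩⟩

/-- integer separation of both images in dimension 3 -/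
def IS0 (t t' : Tri) : Prop := ∃ (al : P3) (c : ℤ),
  (∀ v ∈ t.vs, dot3 al (yI v) < c ∧ dot3 al (y0I v) < c) ∧
  ∀ v ∈ t'.vs, c ≤ dot3 al (yI v) ∧ c ≤ dot3 al (y0I v)

theorem IS0.is4 {t t' : Tri} (h : IS0 t t') : IS4 t t' := by
  obtain ⟨al, c, h1, h2⟩ := h
  refine ⟨al, 0, c, fun v hv => ?_, fun v hv => ?_⟩
  · simp only [zero_mul, add_zero]
    exact h1 v hv
  · simp only [zero_mul, add_zero]
    exact h2 v hv

theorem IS0.is3 {t t' : Tri} (h : IS0 t t') : IS3 t t' := by
  obtain ⟨al, c, h1, h2⟩ := h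
  exact ⟨al, c, fun v hv => (h1 v hv).1, fun v hv => (h2 v hv).1⟩

theorem IS0.isW {t t' : Tri} (h : IS0 t t') : ISW t t' := by
  obtain ⟨al, c, h1, h2⟩ := h
  exact ⟨al, c, fun v hv => (h1 v hv).2, fun v hv => (h2 v hv).2⟩

theorem box_x {r s : Rec} (hr : Dt r ∧ Bx r) (hs : Dt s ∧ Bx s) (h : r.x1 < s.x0) :
    IS0 r.t s.t := by
  refine ⟨⟨1, 0, 0⟩, (s.x0 : ℤ) - 4000000, fun v hv => ?_, fun v hv => ?_⟩
  · obtain ⟨⟨h1, -⟩, ⟨h2, -⟩⟩ := box_all hr v hv
    simp only [dot3, one_mul, zero_mul, add_zero]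
    constructor <;> omega
  · obtain ⟨⟨h1, -⟩, ⟨h2, -⟩⟩ := box_all hs v hv
    simp only [dot3, one_mul, zero_mul, add_zero]
    constructor <;> omega

theorem box_y {r s : Rec} (hr : Dt r ∧ Bx r) (hs : Dt s ∧ Bx s) (h : r.y1 < s.y0) :
    IS0 r.t s.t := by
  refine ⟨⟨0, 1, 0⟩, (s.y0 : ℤ) - 4000000, fun v hv => ?_, fun v hv => ?_⟩
  · obtain ⟨⟨-, h1, -⟩, ⟨-, h2, -⟩⟩ := box_all hr v hv
    simp only [dot3, one_mul, zero_mul, add_zero, zero_add]
    constructor <;> omega
  · obtain ⟨⟨-, h1, -⟩, ⟨-, h2, -⟩⟩ := box_all hs v hv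
    simp only [dot3, one_mul, zero_mul, add_zero, zero_add]
    constructor <;> omega

theorem box_z {r s : Rec} (hr : Dt r ∧ Bx r) (hs : Dt s ∧ Bx s) (h : r.z1 < s.z0) :
    IS0 r.t s.t := by
  refine ⟨⟨0, 0, 1⟩, (s.z0 : ℤ) - 4000000, fun v hv => ?_, fun v hv => ?_⟩
  · obtain ⟨⟨-, -, h1⟩, ⟨-, -, h2⟩⟩ := box_all hr v hv
    simp only [dot3, one_mul, zero_mul, add_zero, zero_add]
    constructor <;> omega
  · obtain ⟨⟨-, -, h1⟩, ⟨-, -, h2⟩⟩ := box_all hs v hv
    simp only [dot3, one_mul, zero_mul, add_zero, zero_add]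
    constructor <;> omega

/-- The assembly of one loop. -/
theorem assemble {c6 c7 : ℕ → Rec → Rec → Bool} {C : Tri → Tri → Prop}
    (ns : List ℕ) (qs : List (List ℕ)) (hrun : loop c6 c7 recs ns qs = true)
    (hs : ∀ t s, C t s → C s t) (hsh : ∀ t s, Share t s → C t s) (h0 : ∀ t s, IS0 t s → C t s)
    (h6 : ∀ q r s, c6 q r s = true → (Dt r ∧ Bx r) → (Dt s ∧ Bx s) → C r.t s.t)
    (h7 : ∀ q r s, c7 q r s = true → (Dt r ∧ Bx r) → (Dt s ∧ Bx s) → C r.t s.t) :
    ∀ t ∈ F, ∀ t' ∈ F, C t t' := by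
  refine pairs_of hs (fun t => hsh t t (share_self t)) ?_
  refine loop_sound (P := fun r s => (Dt r ∧ Bx r) → (Dt s ∧ Bx s) → C r.t s.t)
    (fun r s h hr hs' => h0 _ _ (box_x hr hs' h)) (fun r s h hr hs' => h0 _ _ (box_y hr hs' h))
    (fun r s h hr hs' => hs _ _ (h0 _ _ (box_y hs' hr h)))
    (fun r s h hr hs' => h0 _ _ (box_z hr hs' h))
    (fun r s h hr hs' => hs _ _ (h0 _ _ (box_z hs' hr h)))
    (fun r s h _ _ => hsh _ _ (share_of h)) h6 h7 recs ns qs (sorted_of _ recs_sorted) hrun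

theorem share_symm {t s : Tri} (h : Share t s) : Share s t := by
  obtain ⟨v, h1, h2⟩ := h
  exact ⟨v, h2, h1⟩

theorem c4_sound {al : P3} {k c : ℤ} {r s : Rec} (h : c4 al k c r s = true) (hr : Dt r)
    (hs : Dt s) : IS4 r.t s.t := by
  unfold c4 at h
  simp only [Bool.and_eq_true, ltb_iff, leb_iff] at h
  obtain ⟨⟨⟨⟨⟨⟨⟨⟨⟨⟨⟨h1, h2⟩, h3⟩, h4⟩, h5⟩, h6⟩, h7⟩, h8⟩, h9⟩, h10⟩, h11⟩, h12⟩ := h
  exact ⟨al, k, c, (forall_vs (p := fun y y0 g => dot3 al y + k * g < c ∧
    dot3 al y0 + k * g < c) hr).2 ⟨⟨h1, h4⟩, ⟨h2, h5⟩, ⟨h3, h6⟩⟩,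
    (forall_vs (p := fun y y0 g => c ≤ dot3 al y + k * g ∧
    c ≤ dot3 al y0 + k * g) hs).2 ⟨⟨h7, h10⟩, ⟨h8, h11⟩, ⟨h9, h12⟩⟩⟩

theorem c3_sound {al : P3} {c : ℤ} {r s : Rec} (h : c3 al c r s = true) (hr : Dt r)
    (hs : Dt s) : IS3 r.t s.t := by
  unfold c3 at h
  simp only [Bool.and_eq_true, ltb_iff, leb_iff] at h
  obtain ⟨⟨⟨⟨⟨h1, h2⟩, h3⟩, h4⟩, h5⟩, h6⟩ := h
  exact ⟨al, c, (forall_vs (p := fun y _ _ => dot3 al y < c) hr).2 ⟨h1, h2, h3⟩,
    (forall_vs (p := fun y _ _ => c ≤ dot3 al y) hs).2 ⟨h4, h5, h6⟩⟩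

theorem cw6_sound {al : P3} {c : ℤ} {r s : Rec} (h : cw6 al c r s = true) (hr : Dt r)
    (hs : Dt s) : ISW r.t s.t := by
  unfold cw6 at h
  simp only [Bool.and_eq_true, ltb_iff, leb_iff] at h
  obtain ⟨⟨⟨⟨⟨h1, h2⟩, h3⟩, h4⟩, h5⟩, h6⟩ := h
  exact ⟨al, c, (forall_vs (p := fun _ y _ => dot3 al y < c) hr).2 ⟨h1, h2, h3⟩,
    (forall_vs (p := fun _ y _ => c ≤ dot3 al y) hs).2 ⟨h4, h5, h6⟩⟩

theorem hasP_of {s : Rec} (hs : Dt s) {p : P3} (h : hasP s p = true) :
    ∃ v ∈ s.t.vs, y0I v = p := by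
  unfold hasP at h
  simp only [Bool.or_eq_true, p3Eq_iff] at h
  rcases h with (h | h) | h
  · exact ⟨s.t.a, mem_vs.2 (Or.inl rfl), by rw [hs.a', h]⟩
  · exact ⟨s.t.b, mem_vs.2 (Or.inr (Or.inl rfl)), by rw [hs.b', h]⟩
  · exact ⟨s.t.c, mem_vs.2 (Or.inr (Or.inr rfl)), by rw [hs.c', h]⟩

theorem cw7_sound {al : P3} {c : ℤ} {r s : Rec} (h : cw7 al c r s = true) (hr : Dt r)
    (hs : Dt s) : WSep Y0 r.t s.t := by
  unfold cw7 at h
  simp only [Bool.and_eq_true, Bool.or_eq_true, ltb_iff, eqb_iff] at h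
  obtain ⟨⟨⟨⟨⟨⟨⟨h1, h2⟩, h3⟩, h4⟩, h5⟩, h6⟩, h7⟩, h8⟩ := h
  have k1 := (forall_vs (p := fun _ y _ => dot3 al y < c ∨ (dot3 al y = c ∧ hasP s y = true)) hr).2
    ⟨h1, h2, h3⟩
  have k2 := (forall_vs (p := fun _ y _ => c < dot3 al y ∨ (dot3 al y = c ∧ hasP r y = true)) hs).2
    ⟨h4, h5, h6⟩
  have k3 : ∃ v ∈ r.t.vs, dot3 al (y0I v) < c := by
    rcases h7 with (h | h) | h
    · exact ⟨r.t.a, mem_vs.2 (Or.inl rfl), by rw [hr.a']; exact h⟩
    · exact ⟨r.t.b, mem_vs.2 (Or.inr (Or.inl rfl)), by rw [hr.b']; exact h⟩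
    · exact ⟨r.t.c, mem_vs.2 (Or.inr (Or.inr rfl)), by rw [hr.c']; exact h⟩
  have k4 : ∃ v ∈ s.t.vs, c < dot3 al (y0I v) := by
    rcases h8 with (h | h) | h
    · exact ⟨s.t.a, mem_vs.2 (Or.inl rfl), by rw [hs.a']; exact h⟩
    · exact ⟨s.t.b, mem_vs.2 (Or.inr (Or.inl rfl)), by rw [hs.b']; exact h⟩
    · exact ⟨s.t.c, mem_vs.2 (Or.inr (Or.inr rfl)), by rw [hs.c']; exact h⟩
  have pos7 : (0 : ℝ) < 10 ^ 7 := by positivity
  have ilt : ∀ v, dot3 al (y0I v) < c → inner ℝ (av al) (Y0 v) < (c : ℝ) / 10 ^ 7 := by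
    intro v h
    unfold Y0
    rw [inner_r3]
    exact div_lt_div_of_pos_right (by exact_mod_cast h) pos7
  have igt : ∀ v, c < dot3 al (y0I v) → (c : ℝ) / 10 ^ 7 < inner ℝ (av al) (Y0 v) := by
    intro v h
    unfold Y0
    rw [inner_r3]
    exact div_lt_div_of_pos_right (by exact_mod_cast h) pos7
  have ieq : ∀ v, dot3 al (y0I v) = c → inner ℝ (av al) (Y0 v) = (c : ℝ) / 10 ^ 7 := by
    intro v h
    unfold Y0
    rw [inner_r3, h]
  have eY : ∀ v w, y0I v = y0I w → Y0 v = Y0 w := by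
    intro v w h
    unfold Y0
    rw [h]
  refine ⟨av al, (c : ℝ) / 10 ^ 7, fun v hv => ?_, fun v hv => ?_, ?_, ?_⟩
  · rcases k1 v hv with h | ⟨h, h'⟩
    · exact ⟨(ilt v h).le, fun h' => absurd h' (ilt v h).ne⟩
    · refine ⟨(ieq v h).le, fun _ => ?_⟩
      obtain ⟨w, hw, hw'⟩ := hasP_of hs h'
      exact ⟨w, hw, eY _ _ hw'⟩
  · rcases k2 v hv with h | ⟨h, h'⟩
    · exact ⟨(igt v h).le, fun h' => absurd h' (igt v h).ne'⟩
    · refine ⟨(ieq v h).ge, fun _ => ?_⟩
      obtain ⟨w, hw, hw'⟩ := hasP_of hr h'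
      exact ⟨w, hw, (eY _ _ hw').symm⟩
  · obtain ⟨v, hv, h⟩ := k3
    exact ⟨v, hv, ilt v h⟩
  · obtain ⟨v, hv, h⟩ := k4
    exact ⟨v, hv, igt v h⟩

theorem chkX_sound {q : ℕ} {r s : Rec} (h : chkX q r s = true) :
    (r.t, s.t) ∈ X ∨ (s.t, r.t) ∈ X := by
  unfold chkX at h
  obtain ⟨p, hp, h⟩ := List.any_eq_true.1 h
  simp only [Bool.or_eq_true, Bool.and_eq_true, triEq_iff] at h
  rcases h with ⟨h1, h2⟩ | ⟨h1, h2⟩
  · left
    rw [← h1, ← h2]
    exact hp
  · right
    rw [← h1, ← h2]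
    exact hp

end LS

/-- [48319b D4] -/
theorem stSep4 : StSep4 := by
  refine LS.assemble (C := fun t t' => Share t t' ∨ Sep4 Y Y0 g t t') codes4 cus4 run4
    (fun t s h => ?_) (fun t s h => Or.inl h) (fun t s h => Or.inr (LS.sep4_of h.is4))
    (fun q r s h hr hs => ?_) (fun q r s h _ _ => absurd h Bool.false_ne_true)
  · rcases h with h | h
    · exact Or.inl (LS.share_symm h)
    · exact Or.inr (LS.sep4_symm h)
  · unfold chk4 at h
    exact Or.inr (LS.sep4_of (LS.c4_sound h hr.1 hs.1))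

/-- [48319b D5] -/
theorem stSep3 : StSep3 := by
  refine LS.assemble (C := fun t t' => Share t t' ∨ Sep3 Y t t' ∨ (t, t') ∈ X ∨ (t', t) ∈ X)
    codes3 cus3 run3 (fun t s h => ?_) (fun t s h => Or.inl h)
    (fun t s h => Or.inr (Or.inl (LS.sep3_of h.is3)))
    (fun q r s h hr hs => ?_) (fun q r s h _ _ => Or.inr (Or.inr (LS.chkX_sound h)))
  · rcases h with h | h | h | h
    · exact Or.inl (LS.share_symm h)
    · exact Or.inr (Or.inl (LS.sep3_symm h))
    · exact Or.inr (Or.inr (Or.inr h))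
    · exact Or.inr (Or.inr (Or.inl h))
  · unfold chk3 at h
    exact Or.inr (Or.inl (LS.sep3_of (LS.c3_sound h hr.1 hs.1)))

/-- [48319b D6] -/
theorem stSepW : StSepW := by
  refine LS.assemble (C := fun t t' => Share t t' ∨ WSep Y0 t t' ∨ WSep Y0 t' t)
    codesW cusW runW (fun t s h => ?_) (fun t s h => Or.inl h)
    (fun t s h => Or.inr (Or.inl (LS.wsep_of h.isW)))
    (fun q r s h hr hs => ?_) (fun q r s h hr hs => ?_)
  · rcases h with h | h | h
    · exact Or.inl (LS.share_symm h)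
    · exact Or.inr (Or.inr h)
    · exact Or.inr (Or.inl h)
  · unfold decW at h
    exact Or.inr (Or.inl (LS.wsep_of (LS.cw6_sound h hr.1 hs.1)))
  · unfold decW at h
    exact Or.inr (Or.inl (LS.cw7_sound h hr.1 hs.1))

end Pool.Agent.Work.MP_48319b_gt.Dat

end
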