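import Pool.Agent.Work.MP_48319b_gt.CxChk
import Pool.Agent.Work.MP_48319b_gt.SignChk
import Pool.Agent.Work.MP_48319b_gt.Twin

/-! Bundle of small proof modules (one section per former module). -/

section

/-!
# MP_48319b_gt, item D1: evaluations (in short pieces)
-/

namespace Pool.Agent.Work.MP_48319b_gt.Dat.CxA

/-- the first `k` rows -/
def loopK : ℕ → List Rec2 → List ℕ → Bool
  | 0, _, _ => true
  | _ + 1, [], _ => true
  | k + 1, r :: rs, n :: ns => row2 r rs n && loopK k rs ns
  | _ + 1, _ :: _, [] => false

theorem loopK_step : ∀ (k : ℕ) (rs : List Rec2) (ns : List ℕ), loopK k rs ns = true →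
    loop2 (rs.drop k) (ns.drop k) = true → loop2 rs ns = true
  | 0, rs, ns, _, h => by simpa using h
  | k + 1, [], _, _, _ => rfl
  | k + 1, r :: rs, [], h, _ => by simp [loopK] at h
  | k + 1, r :: rs, n :: ns, h, h2 => by
    simp only [loopK, Bool.and_eq_true] at h
    simp only [loop2, Bool.and_eq_true]
    exact ⟨h.1, loopK_step k rs ns h.2 (by simpa using h2)⟩

theorem loop_step (a m : ℕ) (h1 : loopK m (recs2.drop a) (codes2.drop a) = true)
    (h2 : loop2 (recs2.drop (a + m)) (codes2.drop (a + m)) = true) :
    loop2 (recs2.drop a) (codes2.drop a) = true := by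
  apply loopK_step m _ _ h1
  rw [List.drop_drop, List.drop_drop]
  exact h2

/-- the edge condition for the first `k` triangles of the list -/
def edgeK : ℕ → List Tri → Bool
  | 0, _ => true
  | _ + 1, [] => true
  | k + 1, t :: l => ((anyE t.b t.a F || memE t.a t.b bd) && ((anyE t.c t.b F || memE t.b t.c bd) &&
      (anyE t.a t.c F || memE t.c t.a bd))) && edgeK k l

theorem edgeK_step : ∀ (k : ℕ) (l : List Tri), edgeK k l = true →
    edgeL (l.drop k) = true → edgeL l = true
  | 0, l, _, h => by simpa using h
  | k + 1, [], _, _ => rfl
  | k + 1, t :: l, h, h2 => by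
    rw [edgeK, Bool.and_eq_true] at h
    rw [edgeL, Bool.and_eq_true]
    exact ⟨h.1, edgeK_step k l h.2 (by simpa using h2)⟩

theorem edge_step (a m : ℕ) (h1 : edgeK m (F.drop a) = true)
    (h2 : edgeL (F.drop (a + m)) = true) : edgeL (F.drop a) = true := by
  apply edgeK_step m _ h1
  rw [List.drop_drop]
  exact h2

/-- the first `k` triangles are in the list of records -/
def subK (rs : List Rec2) : ℕ → List Tri → Bool
  | 0, _ => true
  | _ + 1, [] => true
  | k + 1, t :: l => memR t rs && subK rs k l

theorem subK_step (rs : List Rec2) : ∀ (k : ℕ) (l : List Tri), subK rs k l = true →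
    subR rs (l.drop k) = true → subR rs l = true
  | 0, l, _, h => by simpa using h
  | k + 1, [], _, _ => rfl
  | k + 1, t :: l, h, h2 => by
    rw [subK, Bool.and_eq_true] at h
    rw [subR, Bool.and_eq_true]
    exact ⟨h.1, subK_step rs k l h.2 (by simpa using h2)⟩

theorem sub_step (a m : ℕ) (h1 : subK recs2 m (F.drop a) = true)
    (h2 : subR recs2 (F.drop (a + m)) = true) : subR recs2 (F.drop a) = true := by
  apply subK_step recs2 m _ h1
  rw [List.drop_drop]
  exact h2

theorem run_ok : allOk recs2 = true := by decide +kernel

theorem run_srt : srt 0 recs2 = true := by decide +kernel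

theorem run_bd : bdL bd = true := by decide +kernel

theorem run_side : sideL bd = true := by decide +kernel

theorem rl_0 : loopK 40 (recs2.drop 0) (codes2.drop 0) = true := by decide +kernel

theorem rl_1 : loopK 40 (recs2.drop 40) (codes2.drop 40) = true := by decide +kernel

theorem rl_2 : loopK 40 (recs2.drop 80) (codes2.drop 80) = true := by decide +kernel

theorem rl_3 : loopK 40 (recs2.drop 120) (codes2.drop 120) = true := by decide +kernel

theorem rl_4 : loopK 40 (recs2.drop 160) (codes2.drop 160) = true := by decide +kernel

theorem rl_5 : loopK 40 (recs2.drop 200) (codes2.drop 200) = true := by decide +kernel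

theorem rl_6 : loopK 40 (recs2.drop 240) (codes2.drop 240) = true := by decide +kernel

theorem rl_7 : loopK 40 (recs2.drop 280) (codes2.drop 280) = true := by decide +kernel

theorem rl_8 : loopK 40 (recs2.drop 320) (codes2.drop 320) = true := by decide +kernel

theorem rl_9 : loopK 6 (recs2.drop 360) (codes2.drop 360) = true := by decide +kernel

theorem rl_e : loop2 (recs2.drop 366) (codes2.drop 366) = true := by decide +kernel

theorem run_loop : loop2 recs2 codes2 = true := by
  have h : loop2 (recs2.drop 0) (codes2.drop 0) = true :=
    loop_step 0 40 rl_0 (loop_step 40 40 rl_1 (loop_step 80 40 rl_2 (loop_step 120 40 rl_3 (loop_step 160 40 rl_4 (loop_step 200 40 rl_5 (loop_step 240 40 rl_6 (loop_step 280 40 rl_7 (loop_step 320 40 rl_8 (loop_step 360 6 rl_9 rl_e)))))))))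
  rwa [List.drop_zero, List.drop_zero] at h

theorem re_0 : edgeK 50 (F.drop 0) = true := by decide +kernel

theorem re_1 : edgeK 50 (F.drop 50) = true := by decide +kernel

theorem re_2 : edgeK 50 (F.drop 100) = true := by decide +kernel

theorem re_3 : edgeK 50 (F.drop 150) = true := by decide +kernel

theorem re_4 : edgeK 50 (F.drop 200) = true := by decide +kernel

theorem re_5 : edgeK 50 (F.drop 250) = true := by decide +kernel

theorem re_6 : edgeK 50 (F.drop 300) = true := by decide +kernel

theorem re_7 : edgeK 16 (F.drop 350) = true := by decide +kernel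

theorem re_e : edgeL (F.drop 366) = true := by decide +kernel

theorem run_edge : edgeL F = true := by
  have h : edgeL (F.drop 0) = true :=
    edge_step 0 50 re_0 (edge_step 50 50 re_1 (edge_step 100 50 re_2 (edge_step 150 50 re_3 (edge_step 200 50 re_4 (edge_step 250 50 re_5 (edge_step 300 50 re_6 (edge_step 350 16 re_7 re_e)))))))
  rwa [List.drop_zero] at h

theorem rs_0 : subK recs2 183 (F.drop 0) = true := by decide +kernel

theorem rs_1 : subK recs2 183 (F.drop 183) = true := by decide +kernel

theorem rs_e : subR recs2 (F.drop 366) = true := by decide +kernel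

theorem run_sub : subR recs2 F = true := by
  have h : subR recs2 (F.drop 0) = true :=
    sub_step 0 183 rs_0 (sub_step 183 183 rs_1 rs_e)
  rwa [List.drop_zero] at h

end Pool.Agent.Work.MP_48319b_gt.Dat.CxA

end

section

namespace Pool.Agent.Work.MP_48319b_gt.Dat.SG

theorem run1 : chainB X1 link1 = true := by decide +kernel

theorem run2 : chainB X2 link2 = true := by decide +kernel

end Pool.Agent.Work.MP_48319b_gt.Dat.SG

end

section

/-!
# MP_48319b_gt : item D10, evaluation, first part
-/

namespace Pool.Agent.Work.MP_48319b_gt.Dat

namespace Twn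

/-- one block of vertices of `chkT1` -/
def partT1 (s n : ℕ) : Bool := (List.range' s n).all fun a => (up a).all fun a' =>
  tw1 a a' (F.filter fun t => isV t a) (F.filter fun t => isV t a')

theorem runT1_0 : partT1 0 12 = true := by decide +kernel

theorem runT1_1 : partT1 12 12 = true := by decide +kernel

theorem runT1_2 : partT1 24 12 = true := by decide +kernel

theorem runT1_3 : partT1 36 12 = true := by decide +kernel

theorem runT1_4 : partT1 48 12 = true := by decide +kernel

theorem runT1_5 : partT1 60 12 = true := by decide +kernel

theorem runT1_6 : partT1 72 12 = true := by decide +kernel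

theorem runT1_7 : partT1 84 12 = true := by decide +kernel

theorem runT1_8 : partT1 96 12 = true := by decide +kernel

theorem runT1_9 : partT1 108 12 = true := by decide +kernel

theorem runT1_10 : partT1 120 12 = true := by decide +kernel

theorem runT1_11 : partT1 132 12 = true := by decide +kernel

theorem runT1_12 : partT1 144 12 = true := by decide +kernel

theorem runT1_13 : partT1 156 12 = true := by decide +kernel

theorem runT1_14 : partT1 168 12 = true := by decide +kernel

theorem runT1_15 : partT1 180 12 = true := by decide +kernel

theorem range_split : List.range 192 =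
    List.range' 0 12 ++
    (List.range' 12 12 ++
    (List.range' 24 12 ++
    (List.range' 36 12 ++
    (List.range' 48 12 ++
    (List.range' 60 12 ++
    (List.range' 72 12 ++
    (List.range' 84 12 ++
    (List.range' 96 12 ++
    (List.range' 108 12 ++
    (List.range' 120 12 ++
    (List.range' 132 12 ++
    (List.range' 144 12 ++
    (List.range' 156 12 ++
    (List.range' 168 12 ++
    (List.range' 180 12))))))))))))))) := by
  decide +kernel

theorem runT1 : chkT1 = true := by
  unfold chkT1
  rw [range_split]
  simp only [List.all_append, Bool.and_eq_true]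
  exact ⟨runT1_0, runT1_1, runT1_2, runT1_3, runT1_4, runT1_5, runT1_6, runT1_7, runT1_8, runT1_9, runT1_10, runT1_11, runT1_12, runT1_13, runT1_14, runT1_15⟩

end Twn

end Pool.Agent.Work.MP_48319b_gt.Dat

end

section

/-!
# MP_48319b_gt : item D10, evaluation, second part
-/

namespace Pool.Agent.Work.MP_48319b_gt.Dat

namespace Twn

theorem runV : chkV = true := by decide +kernel

theorem runE : chkE = true := by decide +kernel

theorem runU1 : chkU1 = true := by decide +kernel

theorem runU2 : chkU2 = true := by decide +kernel

theorem runT2 : chkT2 = true := by decide +kernel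

end Twn

theorem stTwin : StTwin :=
  Twn.sound Twn.runV Twn.runE Twn.runU1 Twn.runU2 Twn.runT1 Twn.runT2

end Pool.Agent.Work.MP_48319b_gt.Dat

end
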